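import Mathlib

/-!
# An upper bound for the transcendence degree of a field generated by algebraic elements over a finite set
-/

set_option autoImplicit false

open AlgebraicIndependent

namespace Pool.Agent.Y916.Af

theorem adjoin_sub_closure (X : Set ℂ) : (IntermediateField.adjoin ℚ X : Set ℂ) ⊆ (matroid ℚ ℂ).closure X := by
  intro x hx
  rw [SetLike.mem_coe, IntermediateField.mem_adjoin_iff_div] at hx
  obtain ⟨a, ha, b, hb, rfl⟩ := hx
  rw [matroid_closure_eq, SetLike.mem_coe, Subalgebra.mem_algebraicClosure]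
  have h1 : IsAlgebraic (Algebra.adjoin ℚ X) a := isAlgebraic_algebraMap (⟨a, ha⟩ : Algebra.adjoin ℚ X)
  have h2 : IsAlgebraic (Algebra.adjoin ℚ X) b := isAlgebraic_algebraMap (⟨b, hb⟩ : Algebra.adjoin ℚ X)
  rw [div_eq_mul_inv]
  exact h1.mul h2.inv

theorem trdeg_le_of_closure {X : Set ℂ} (Z : Finset ℂ) (hX : X ⊆ (matroid ℚ ℂ).closure (Z : Set ℂ)) :
    Algebra.trdeg ℚ (IntermediateField.adjoin ℚ X) ≤ (Z.card : Cardinal) := by
  classical
  unfold Algebra.trdeg
  refine ciSup_le' fun ⟨s, hs⟩ => ?_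
  set s' : Set ℂ := Subtype.val '' s with hs'
  have h1 : AlgebraicIndepOn ℚ id s' := by
    have h2 : AlgebraicIndependent ℚ (fun i : s => ((i : IntermediateField.adjoin ℚ X) : ℂ)) :=
      AlgebraicIndependent.map' (f := (IntermediateField.adjoin ℚ X).val) hs Subtype.val_injective
    have h3 := h2.to_subtype_range
    have h4 : Set.range (fun i : s => ((i : IntermediateField.adjoin ℚ X) : ℂ)) = s' := by
      rw [hs']
      ext z
      simp
    rw [h4] at h3
    exact h3
  have h2 : (matroid ℚ ℂ).Indep s' := matroid_indep_iff.2 h1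
  have h3 : s' ⊆ (matroid ℚ ℂ).closure (Z : Set ℂ) := by
    rintro _ ⟨x, -, rfl⟩
    have h4 := adjoin_sub_closure X x.2
    exact (matroid ℚ ℂ).closure_subset_closure_of_subset_closure hX h4
  have h4 : s'.encard ≤ (Z.card : ℕ∞) := by
    rw [← h2.eRk_eq_encard]
    refine ((matroid ℚ ℂ).eRk_mono h3).trans ?_
    rw [Matroid.eRk_closure_eq]
    refine ((matroid ℚ ℂ).eRk_le_encard _).trans ?_
    rw [Set.encard_coe_eq_coe_finsetCard]
  have h5 : s'.encard = s.encard := Subtype.val_injective.encard_image s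
  rw [h5] at h4
  have hfin : s.Finite := Set.finite_of_encard_le_coe h4
  rw [hfin.encard_eq_coe_toFinset_card] at h4
  have h6 : hfin.toFinset.card ≤ Z.card := by exact_mod_cast h4
  have h7 : Cardinal.mk s = (hfin.toFinset.card : Cardinal) := by
    have := Cardinal.mk_coe_finset (s := hfin.toFinset)
    rw [← this]
    congr 1
    simp
  show Cardinal.mk s ≤ _
  rw [h7]
  exact_mod_cast h6

theorem mem_cl_of_alg {Z : Set ℂ} {x : ℂ} (h : IsAlgebraic (Algebra.adjoin ℚ Z) x) : x ∈ (matroid ℚ ℂ).closure Z := by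
  rw [matroid_closure_eq, SetLike.mem_coe, Subalgebra.mem_algebraicClosure]
  exact h

/-- the field generated by `2πi` and `1/π` -/
theorem trdeg_pi : Algebra.trdeg ℚ (IntermediateField.adjoin ℚ (insert (2 * Real.pi * Complex.I : ℂ)
    (Set.range (fun _ : Fin 1 => 1 / (Real.pi : ℂ))))) ≤ 1 := by
  have h0 : (((({(Real.pi : ℂ)} : Finset ℂ)).card : ℕ) : Cardinal) = 1 := by simp
  rw [← h0]
  refine trdeg_le_of_closure _ ?_
  have hpi : (Real.pi : ℂ) ≠ 0 := by exact_mod_cast Real.pi_ne_zero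
  have h1 : IsAlgebraic (Algebra.adjoin ℚ ((({(Real.pi : ℂ)} : Finset ℂ)) : Set ℂ)) (Real.pi : ℂ) :=
    isAlgebraic_algebraMap (⟨(Real.pi : ℂ), Algebra.subset_adjoin (by simp)⟩ :
      Algebra.adjoin ℚ ((({(Real.pi : ℂ)} : Finset ℂ)) : Set ℂ))
  have hI : IsAlgebraic ℚ Complex.I := by
    refine ⟨Polynomial.X ^ 2 + 1, ?_, ?_⟩
    · intro h
      have := congrArg (Polynomial.eval 0) h
      simp at this
    · simp
  have hI' : IsAlgebraic (Algebra.adjoin ℚ ((({(Real.pi : ℂ)} : Finset ℂ)) : Set ℂ)) Complex.I :=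
    hI.extendScalars (FaithfulSMul.algebraMap_injective ℚ _)
  have h2 : IsAlgebraic (Algebra.adjoin ℚ ((({(Real.pi : ℂ)} : Finset ℂ)) : Set ℂ)) (2 : ℂ) := by
    have := isAlgebraic_algebraMap (A := ℂ) (2 : Algebra.adjoin ℚ ((({(Real.pi : ℂ)} : Finset ℂ)) : Set ℂ))
    rwa [map_ofNat] at this
  rintro x (rfl | ⟨i, rfl⟩)
  · exact mem_cl_of_alg ((h2.mul h1).mul hI')
  · refine mem_cl_of_alg ?_
    show IsAlgebraic _ (1 / (Real.pi : ℂ))
    rw [one_div]
    exact h1.inv

end Pool.Agent.Y916.Af
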