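import Pool.Agent.Y916.Af.Fin2
import Pool.Agent.Y113.EU.Core

/-!
# Constants which are algebraically independent over `ℚ` stay independent over the point of the product of fibres
-/

set_option autoImplicit false

open PowerSeries Module

namespace Pool.Agent.Y916.Af

open Pool.Agent.Y113 Pool.Agent.Y916.Al Pool.Agent.Y118.UL

variable {r : ℕ}

/-- Relations which hold on the whole product of the fibres at algebraic points are trivial in the independent
constants. -/
theorem indepE {h : Fin r → ℚ⟦X⟧} {k : ℕ} {x : Fin k → ℂ} (hx : ∀ j, IsAlgebraic ℚ (x j))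
    {z : Fin k × Option (Fin r) → ℂ} (hz : z ∈ Fib h x) {ι : Type} (w : ι → ℂ) (hw : AlgebraicIndependent ℚ w)
    (K : IntermediateField ℚ ℂ) (hK : FiniteDimensional ℚ K) (P : MvPolynomial (ι ⊕ Fin k × Option (Fin r)) K)
    (hP : ∀ y ∈ Fib h x, MvPolynomial.aeval (Sum.elim w y) P = 0) (v : ι → ℂ) :
    MvPolynomial.aeval (Sum.elim v z) P = 0 := by
  classical
  set F := algebraicClosure ℚ ℂ with hF
  have hw2 : AlgebraicIndependent F w := hw.algebraicClosure
  have hKmem : ∀ c : K, algebraMap K ℂ c ∈ F := by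
    intro c
    rw [hF, mem_algebraicClosure_iff]
    have h1 : IsAlgebraic ℚ (c : K) := Algebra.IsAlgebraic.isAlgebraic c
    exact h1.algebraMap (A := ℂ)
  let ψ : K →+* F := (algebraMap K ℂ).codRestrict F hKmem
  have hψ : ∀ c, algebraMap F ℂ (ψ c) = algebraMap K ℂ c := fun c => rfl
  let Q : MvPolynomial (ι ⊕ Fin k × Option (Fin r)) F := MvPolynomial.map ψ P
  have hQ : ∀ u : ι ⊕ Fin k × Option (Fin r) → ℂ, MvPolynomial.aeval u Q = MvPolynomial.aeval u P := by
    intro u
    rw [MvPolynomial.aeval_def, MvPolynomial.aeval_def, MvPolynomial.eval₂_map]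
    rfl
  have hxm : ∀ (j : Fin k) (c : Polynomial ℚ), Polynomial.aeval (x j) c ∈ F := by
    intro j c
    rw [hF, mem_algebraicClosure_iff]
    have h1 : x j ∈ F := by
      rw [hF, mem_algebraicClosure_iff]
      exact hx j
    have h2 := Polynomial.aeval_algebraMap_apply ℂ (⟨x j, h1⟩ : F) c
    have h3 : algebraMap F ℂ ⟨x j, h1⟩ = x j := rfl
    rw [h3] at h2
    rw [h2, ← mem_algebraicClosure_iff]
    exact (Polynomial.aeval (⟨x j, h1⟩ : F) c).2
  let φ : Fin k → (Polynomial ℚ →+* F) := fun j =>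
    (Polynomial.aeval (x j) : Polynomial ℚ →ₐ[ℚ] ℂ).toRingHom.codRestrict F (hxm j)
  let G : Set (MvPolynomial (Fin k × Option (Fin r)) ℂ) := {g | ∃ (j : Fin k) (R : MvPolynomial (Fin r) (Polynomial ℚ)),
    MvPolynomial.aeval h R = 0 ∧
    g = MvPolynomial.map (algebraMap F ℂ) (MvPolynomial.rename (fun i => (j, some i)) (MvPolynomial.map (φ j) R))}
  have hev : ∀ (j : Fin k) (R : MvPolynomial (Fin r) (Polynomial ℚ)) (y : Fin k × Option (Fin r) → ℂ),
      MvPolynomial.aeval y (MvPolynomial.rename (fun i => (j, some i)) (MvPolynomial.map (φ j) R)) =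
      MvPolynomial.eval₂ (Polynomial.aeval (x j) : Polynomial ℚ →ₐ[ℚ] ℂ).toRingHom (fun i => y (j, some i)) R := by
    intro j R y
    rw [MvPolynomial.aeval_rename, MvPolynomial.aeval_def, MvPolynomial.eval₂_map]
    rfl
  -- the polynomial `P(w, ·)` over `ℂ`
  set p : MvPolynomial (Fin k × Option (Fin r)) ℂ :=
    MvPolynomial.aeval (Sum.elim (fun i => (MvPolynomial.C (w i) : MvPolynomial (Fin k × Option (Fin r)) ℂ))
      MvPolynomial.X) Q with hp
  have hpe : ∀ y : Fin k × Option (Fin r) → ℂ, MvPolynomial.aeval y p = MvPolynomial.aeval (Sum.elim w y) P := by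
    intro y
    rw [← hQ, hp]
    have h1 : ((MvPolynomial.aeval y : MvPolynomial (Fin k × Option (Fin r)) ℂ →ₐ[ℂ] ℂ).restrictScalars F).comp
        (MvPolynomial.aeval (Sum.elim (fun i => (MvPolynomial.C (w i) : MvPolynomial (Fin k × Option (Fin r)) ℂ))
          MvPolynomial.X) : MvPolynomial (ι ⊕ Fin k × Option (Fin r)) F →ₐ[F] MvPolynomial (Fin k × Option (Fin r)) ℂ) =
        MvPolynomial.aeval (Sum.elim w y) := by
      refine MvPolynomial.algHom_ext fun i => ?_
      rcases i with i | i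
      · simp
      · simp
    exact DFunLike.congr_fun h1 Q
  have hrad : p ∈ (Ideal.span G).radical := by
    rw [← MvPolynomial.vanishingIdeal_zeroLocus_eq_radical (K := ℂ), MvPolynomial.mem_vanishingIdeal_iff]
    intro y hy
    rw [hpe]
    refine hP y fun j R hR => ?_
    rw [MvPolynomial.mem_zeroLocus_iff] at hy
    have h1 := hy _ (Ideal.subset_span ⟨j, R, hR, rfl⟩)
    rw [MvPolynomial.aeval_def, MvPolynomial.eval₂_map] at h1
    rw [← hev j R y, MvPolynomial.aeval_def]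
    exact h1
  obtain ⟨n, hn⟩ := hrad
  have h2 := Pool.Agent.Y113.EU.core w hw2 z G (by
    rintro g ⟨j, R, hR, rfl⟩
    refine ⟨_, rfl, ?_⟩
    rw [hev]
    exact hz j R hR) (Q ^ n) (by
    rw [map_pow]
    exact hn) v
  rw [map_pow] at h2
  rw [← hQ]
  rcases Nat.eq_zero_or_pos n with h0 | h0
  · subst h0
    rw [pow_zero] at h2
    exact absurd h2 one_ne_zero
  · exact (pow_eq_zero_iff h0.ne').1 h2

theorem prod_mem_pow {ι : Type} (W : Submodule ℚ ℂ) (w : ι → ℂ) (hw : ∀ i, w i ∈ W) (e : ι → ℕ) (s : Finset ι) :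
    ∏ i ∈ s, w i ^ e i ∈ W ^ (∑ i ∈ s, e i) := by
  classical
  induction s using Finset.induction_on with
  | empty =>
    rw [Finset.prod_empty, Finset.sum_empty, pow_zero]
    exact Submodule.one_le.1 le_rfl
  | insert a s ha ih =>
    rw [Finset.prod_insert ha, Finset.sum_insert ha, pow_add]
    exact Submodule.mul_mem_mul (Submodule.pow_mem_pow W (hw a) _) ih

theorem pow_mono {W : Submodule ℚ ℂ} (h1 : (1 : ℂ) ∈ W) {a b : ℕ} (hab : a ≤ b) : W ^ a ≤ W ^ b := by
  have h2 : (1 : Submodule ℚ ℂ) ≤ W := Submodule.one_le.2 h1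
  exact pow_le_pow_right' h2 hab

/-- the coefficients of `P(w, ·)` -/
theorem coeff_sub {ι σ : Type} [Fintype ι] [Fintype σ] (K : IntermediateField ℚ ℂ) (w : ι → ℂ) (W : Submodule ℚ ℂ)
    (h1 : (1 : ℂ) ∈ W) (hw : ∀ i, w i ∈ W) {δ : ℕ} (P : MvPolynomial (ι ⊕ σ) K) (hP : P.totalDegree ≤ δ) (s : σ →₀ ℕ) :
    (MvPolynomial.aeval (Sum.elim (fun i => (MvPolynomial.C (w i) : MvPolynomial σ ℂ)) MvPolynomial.X) P :
      MvPolynomial σ ℂ).coeff s ∈ Submodule.span K ((W ^ δ : Submodule ℚ ℂ) : Set ℂ) := by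
  classical
  rw [MvPolynomial.aeval_def, MvPolynomial.eval₂_eq', MvPolynomial.coeff_sum]
  refine Submodule.sum_mem _ fun t ht => ?_
  rw [Fintype.prod_sum_type]
  simp only [Sum.elim_inl, Sum.elim_inr]
  have h2 : (∏ i, (MvPolynomial.C (w i) : MvPolynomial σ ℂ) ^ t (Sum.inl i)) =
      MvPolynomial.C (∏ i, w i ^ t (Sum.inl i)) := by
    rw [map_prod]
    exact Finset.prod_congr rfl fun i _ => by rw [map_pow]
  have h3 : algebraMap K (MvPolynomial σ ℂ) (P.coeff t) = MvPolynomial.C (algebraMap K ℂ (P.coeff t)) := rfl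
  rw [h2, h3, ← mul_assoc, ← MvPolynomial.C_mul, MvPolynomial.coeff_C_mul]
  have h4 : ∏ i, w i ^ t (Sum.inl i) ∈ W ^ δ := by
    refine pow_mono h1 ?_ (prod_mem_pow W w hw (fun i => t (Sum.inl i)) Finset.univ)
    have h5 := (MvPolynomial.le_totalDegree ht).trans hP
    rw [Finsupp.sum_fintype _ _ (fun _ => rfl), Fintype.sum_sum_type] at h5
    exact (Nat.le_add_right _ _).trans h5
  have h5 : algebraMap K ℂ (P.coeff t) * ∏ i, w i ^ t (Sum.inl i) ∈ Submodule.span K ((W ^ δ : Submodule ℚ ℂ) : Set ℂ) := by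
    rw [← Algebra.smul_def]
    exact Submodule.smul_mem _ _ (Submodule.subset_span h4)
  have h6 : (∏ i : σ, (MvPolynomial.X i : MvPolynomial σ ℂ) ^ t (Sum.inr i)) =
      MvPolynomial.monomial (Finsupp.equivFunOnFinite.symm fun i => t (Sum.inr i)) 1 := by
    rw [MvPolynomial.monomial_eq, MvPolynomial.C_1, one_mul, Finsupp.prod_fintype _ _ (fun _ => pow_zero _)]
    rfl
  rw [h6, MvPolynomial.coeff_monomial]
  split_ifs
  · rw [mul_one]
    exact h5
  · rw [mul_zero]
    exact Submodule.zero_mem _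

/-- the degree of `P(w, ·)` -/
theorem deg_sub {ι σ : Type} (K : IntermediateField ℚ ℂ) (w : ι → ℂ) {δ : ℕ} (P : MvPolynomial (ι ⊕ σ) K)
    (hP : P.totalDegree ≤ δ) :
    (MvPolynomial.aeval (Sum.elim (fun i => (MvPolynomial.C (w i) : MvPolynomial σ ℂ)) MvPolynomial.X) P :
      MvPolynomial σ ℂ).totalDegree ≤ δ := by
  classical
  rw [MvPolynomial.aeval_def, MvPolynomial.eval₂_eq]
  refine MvPolynomial.totalDegree_finsetSum_le fun t ht => ?_
  have h3 : algebraMap K (MvPolynomial σ ℂ) (P.coeff t) = MvPolynomial.C (algebraMap K ℂ (P.coeff t)) := rfl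
  rw [h3]
  refine (MvPolynomial.totalDegree_mul _ _).trans ?_
  rw [MvPolynomial.totalDegree_C, zero_add]
  refine (MvPolynomial.totalDegree_finset_prod _ _).trans ?_
  refine le_trans (Finset.sum_le_sum fun i _ => ?_) ((MvPolynomial.le_totalDegree ht).trans hP)
  refine (MvPolynomial.totalDegree_pow _ _).trans ?_
  rcases i with i | i
  · simp
  · simp

theorem eval_sub {ι σ : Type} (K : IntermediateField ℚ ℂ) (w : ι → ℂ) (P : MvPolynomial (ι ⊕ σ) K) (y : σ → ℂ) :
    MvPolynomial.aeval y (MvPolynomial.aeval (Sum.elim (fun i => (MvPolynomial.C (w i) : MvPolynomial σ ℂ))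
      MvPolynomial.X) P) = MvPolynomial.aeval (Sum.elim w y) P := by
  have h1 : ((MvPolynomial.aeval y : MvPolynomial σ ℂ →ₐ[ℂ] ℂ).restrictScalars K).comp
      (MvPolynomial.aeval (Sum.elim (fun i => (MvPolynomial.C (w i) : MvPolynomial σ ℂ))
        MvPolynomial.X) : MvPolynomial (ι ⊕ σ) K →ₐ[K] MvPolynomial σ ℂ) = MvPolynomial.aeval (Sum.elim w y) := by
    refine MvPolynomial.algHom_ext fun i => ?_
    rcases i with i | i
    · simp
    · simp
  exact DFunLike.congr_fun h1 P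

end Pool.Agent.Y916.Af
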