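import Pool.Agent.Y916.Af.Dep2
import Pool.Agent.Y977.AF.Br

/-!
# (BR2): the proof of `Pool.Agent.Y977.AF.core` (helper977) for sets irreducible in bounded degree
-/

set_option autoImplicit false

open PowerSeries Module Filter AlgebraicIndependent

namespace Pool.Agent.Y916.Af

open Pool.Agent.Y118.UL Pool.Agent.Y977.AF

theorem t_br2 : S_br2 := by
  have hdep := t_dep2
  classical
  intro r h I hI k m d δ D
  obtain ⟨R, hR1, hR2⟩ := exists_Rc hI.2
  obtain ⟨c, hc1, hc2⟩ := exists_cseq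
  by_contra hcon
  push Not at hcon
  choose x y₀ Y K w P h1 h2 h3 h4 h5 h6 h7 h8 h9 h10 h11 using fun n => hcon n (c n) (hc1 n)
  choose K₁ k1 k2 k3 using h1
  choose y hy1 hy2 using h10
  obtain ⟨a, ha⟩ := hdep (Option (Fin r)) (Option I) (Fin D) (Option.map Subtype.val) R hR1 k x
    (fun j => alg_of_degree (D := m) (fun n => K₁ n j) (fun n => k1 n j) (fun n => k2 n j) _ fun n => k3 n j)
    (by
      intro q hq j
      obtain ⟨N, hN⟩ := hc2 q hq
      filter_upwards [ev_ge N] with n hn h0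
      obtain ⟨u, hu⟩ := hN n hn
      apply h2 n j
      rw [hu, map_mul, h0, zero_mul])
    w Y h3 y₀ h4 (fun n y hy j s => hR2 (x n j) (fun s => y (j, s)) (h5 n y hy j) s)
    d δ K h6 h7 P h8 h9 y hy1 hy2
  obtain ⟨F, hF1, hF2⟩ := rel_of_cl (fun j : Fin D => mk ℂ fun n => w n j)
    (fun b : Fin k × Option I => mk ℂ fun n => y₀ n (b.1, Option.map Subtype.val b.2)) a ha
  obtain ⟨δ₀, hδ⟩ := rel_seq w (fun n (b : Fin k × Option I) => y₀ n (b.1, Option.map Subtype.val b.2)) F hF1 hF2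
  obtain ⟨n, ⟨Q, q1, q2, q3⟩, hn⟩ := (hδ.and (ev_ge δ₀)).exists
  exact q3 (h11 n Q (q1.trans hn) q2)

end Pool.Agent.Y916.Af
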