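import Pool.Agent.Y547.AF.Fin
import Pool.Agent.Y475.AF.NR
import Pool.Agent.Y185.AF.Hf
import Pool.Agent.Y356.AF.Rk
import Pool.Agent.Y340.AF.Conn
import Pool.Agent.Y916.Af.Br2
import Pool.Agent.Y916.Af.Win2

/-!
# Families of G-functions at algebraic points: versions with the condition `GSys` instead of Galochkin's condition on the
system

The proofs are those of helper547 (`famC`, `t_fam`) and helper475 (`nr_of`).
-/

set_option autoImplicit false
set_option maxHeartbeats 400000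

open PowerSeries Module

namespace Pool.Agent.Y916.Af

/-- the hypotheses on the family, with `GSys` -/
structure GFs {r : ℕ} (T : Polynomial ℤ) (A : Fin r → Fin r → Polynomial ℤ) (h : Fin r → ℚ⟦X⟧) : Prop where
  hT : T ≠ 0
  hode : ∀ i, Pool.Agent.Y113.ps T * d⁄dX ℚ (h i) = ∑ j, Pool.Agent.Y113.ps (A i j) * h j
  hsize : ∃ C : ℝ, ∀ i m, |((coeff m (h i) : ℚ) : ℝ)| ≤ C ^ (m + 1)
  hgs : ∃ (q : ℕ) (C : ℝ), Pool.Agent.Y113.GSys q C T h
  hqu : Pool.Agent.Y120.GH.QU0 T A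

section
open Pool.Agent.Y113 Pool.Agent.Y916.Al Pool.Agent.Y120.GF Pool.Agent.Y120.GH Pool.Agent.Y118.UL

/-- the conclusion of (FAM) -/
def FAMc {r : ℕ} (h : Fin r → ℚ⟦X⟧) : Prop :=
  ∃ G0 : ℕ, 1 ≤ G0 ∧ ∀ G : ℕ, G0 ≤ G → ∀ I : Finset (Fin r), AlgebraicIndependent (Polynomial ℚ) (fun i : I => h i) →
  ∀ δ : ℕ, ∃ B : Finset (Fin δ → Option (Fin r)), (Mon δ I).card ≤ B.card ∧ ∀ N d A : ℕ, ∃ E : ℕ, ∀ (H : ℕ)
  (K : IntermediateField ℚ ℂ) (ξ : K) (X : ℝ), FiniteDimensional ℚ K → finrank ℚ K ≤ d → Al.Pt K ξ X →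
  ((H : ℝ) + 2) ^ E ≤ ‖(ξ : ℂ)‖ → X ≤ ‖(ξ : ℂ)‖ ^ A → ∀ g : Fin N → ℕ, Function.Injective g →
  (∀ l, 1 ≤ g l ∧ g l ≤ H) → ∀ (n : ℕ) (a : Fin n → (Fin N → B × Fin (δ + 1)) → ℚ), LinearIndependent ℚ a →
  (∀ i, ∑ b, ((a i b : ℚ) : ℂ) * ∏ l, (yw (fun j => vc G h ξ (g l) (some j)) (b l).1.1 *
    vc G h ξ (g l) none ^ ((b l).2 : ℕ)) = 0) →
  2 * A * d * (Fintype.card (Fin N → B × Fin (δ + 1)) - n) ≤ Fintype.card (Fin N → B × Fin (δ + 1)) → False

/-- the conclusion of (NR) -/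
def NRh {r : ℕ} (h : Fin r → ℚ⟦X⟧) : Prop :=
  ∃ G0 : ℕ, 1 ≤ G0 ∧ ∀ G : ℕ, G0 ≤ G → ∀ I : Finset (Fin r), Free h I →
    Sl.InpA (fun ξ g (i : Option I) => vc G h ξ g (i.map Subtype.val))

end

end Pool.Agent.Y916.Af

namespace Pool.Agent.Y916P1

open PowerSeries Pool.Agent.Y113 Pool.Agent.Y120.GF Pool.Agent.Y120.GH Pool.Agent.Y916.Al Pool.Agent.Y118.UL
  Pool.Agent.Y916.Af Pool.Agent.Y547.AF

theorem famCs {r : ℕ} {h : Fin r → ℚ⟦X⟧} {T : Polynomial ℤ} {A : Fin r → Fin r → Polynomial ℤ} (hT : T ≠ 0)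
    (hode : ∀ i, ps T * d⁄dX ℚ (h i) = ∑ j, ps (A i j) * h j)
    (hsize : ∃ C : ℝ, ∀ i m, |((coeff m (h i) : ℚ) : ℝ)| ≤ C ^ (m + 1))
    (hgs : ∃ (q : ℕ) (C : ℝ), GSys q C T h)
    (hqu : QU0 T A) :
    ∃ R : ℕ, ∀ (δ : ℕ) (B₀ : Finset (Fin δ → Option (Fin r))), (fun _ => none) ∈ B₀ →
      (∀ g : (Fin δ → Option (Fin r)) → Polynomial ℚ, ∑ i ∈ B₀, (g i : ℚ⟦X⟧) * yw h i = 0 → ∀ i ∈ B₀, g i = 0) →
      ∃ B : Finset (Fin δ → Option (Fin r)), B₀ ⊆ B ∧
        (∃ C : ℝ, 1 ≤ C ∧ ∀ (b : Fin δ → Option (Fin r)) m, |((coeff m (yw h b : ℚ⟦X⟧) : ℚ) : ℝ)| ≤ C ^ (m + 1)) ∧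
        ∀ N d A : ℕ, ∃ E : ℕ, ∀ (H : ℕ) (K : IntermediateField ℚ ℂ) (ξ : K) (X : ℝ), FiniteDimensional ℚ K →
        Module.finrank ℚ K ≤ d → Pt K ξ X → ((H : ℝ) + 2) ^ E ≤ ‖(ξ : ℂ)‖ → X ≤ ‖(ξ : ℂ)‖ ^ A →
        ∀ g : Fin N → ℕ, SepR R g → (∀ l, g l ≤ H) → ∀ (n : ℕ) (a : Fin n → (Fin N → B × Fin (δ + 1)) → ℚ),
        LinearIndependent ℚ a → (∀ i, ∑ b, ((a i b : ℚ) : ℂ) *
          ∏ l, evc (1 / (ξ : ℂ)) (Fg (δ + 1) (fun β : B => yw h β.1) (g l) (b l)) = 0) →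
        2 * A * d * (Fintype.card (Fin N → B × Fin (δ + 1)) - n) ≤ Fintype.card (Fin N → B × Fin (δ + 1)) → False := by
  classical
  obtain ⟨q, C, hG⟩ := hgs
  obtain ⟨Ch, hCh⟩ := hsize
  obtain ⟨e, he, M₀, K, Φ, hΦc, hΦe, hΦd⟩ := hqu
  -- the radii
  set τ : ℝ := |K| + |Ch| + 1 with hτd
  have hτ1 : 1 ≤ τ := by
    have := abs_nonneg K
    have := abs_nonneg Ch
    linarith
  have hτ0 : 0 < τ := by linarith
  have hτe : τ ≤ τ ^ e := le_self_pow₀ hτ1 he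
  set τ' : ℝ := τ + 1 with hτ'd
  have hρρ : τ ^ e < τ' ^ e := pow_lt_pow_left₀ (by linarith) hτ0.le he
  obtain ⟨R, hR⟩ := exists_nat_gt (τ ^ e + τ' ^ e)
  refine ⟨R, fun δ B₀ hb₀ h0 => ?_⟩
  obtain ⟨C', hG'⟩ := gsys_tens (gsys_opt hG) δ
  have hyw : (fun b : Fin δ → Option (Fin r) => ∏ j, (fun o : Option (Fin r) => o.elim 1 h) (b j)) = fun b => yw h b := rfl
  rw [hyw] at hG'
  have hone : yw h (fun _ : Fin δ => none) = 1 := by
    unfold yw
    exact Finset.prod_eq_one fun j _ => rfl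
  obtain ⟨B, hBB, hLI, a, M, ha, hM⟩ := max_li' (fun b : Fin δ → Option (Fin r) => yw h b) B₀ h0
  refine ⟨B, hBB, ⟨C', hG'.one_le, hG'.size⟩, fun N d₁ A₁ => ?_⟩
  obtain ⟨q', C'', hG''⟩ := gsys_sub hG' (fun β : B => yw h β.1) (fun β => β.1) (fun β => rfl) a M hM
  have hmem1 : ∀ i, cx (h i) ∈ Cw (τ ^ e) := fun i =>
    Cw_mono (by
      have := abs_nonneg K
      linarith) (cx_mem (abs_nonneg Ch) fun m => (hCh i m).trans (by
        rw [← abs_pow]
        exact le_abs_self _))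
  have hmem : ∀ b : Fin δ → Option (Fin r), cx (yw h b : ℚ⟦X⟧) ∈ Cw (τ ^ e) := by
    intro b
    unfold yw
    rw [map_prod]
    refine Subring.prod_mem _ fun j _ => ?_
    rcases b j with _ | i
    · show cx 1 ∈ _
      rw [map_one]
      exact Subring.one_mem _
    · exact hmem1 i
  set Tc : Polynomial ℂ := T.map (Int.castRingHom ℂ) with hTc
  set Ac : Fin r → Fin r → Polynomial ℂ := fun i j => (A i j).map (Int.castRingHom ℂ) with hAc
  have hTc0 : Tc ≠ 0 := (Polynomial.map_ne_zero_iff (Int.castRingHom ℂ).injective_int).2 hT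
  have hQU : QU he τ Tc (AT (δ := δ) (A1 Ac)) := by
    refine qu_tens he δ (qu_one he ⟨M₀, Φ, fun i j k => mem_Cw_of_bound ?_ (hΦc i j k), hΦe, hΦd⟩)
    have := abs_nonneg Ch
    linarith
  -- the differential equation of the products
  have hodeC : ∀ i, (Tc : PowerSeries ℂ) * PowerSeries.derivative ℂ (cx (h i)) = ∑ j, (Ac i j : PowerSeries ℂ) * cx (h j) := by
    intro i
    have h1 := congrArg cx (hode i)
    rw [map_mul, map_sum, cx_der, cx_ps] at h1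
    rw [h1]
    refine Finset.sum_congr rfl fun j _ => ?_
    rw [map_mul, cx_ps]
  have hodeT : ∀ b : Fin δ → Option (Fin r), (Tc : PowerSeries ℂ) * PowerSeries.derivative ℂ (cx (yw h b)) =
      ∑ b', ((AT (δ := δ) (A1 Ac) b b' : Polynomial ℂ) : PowerSeries ℂ) * cx (yw h b') := by
    intro b
    have h1 := tens_der (δ := δ) (fun f : PowerSeries ℂ => PowerSeries.derivative ℂ f) (Derivation.map_one_eq_zero _)
      (fun f g => by
        rw [Derivation.leibniz]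
        rfl) (Tc : PowerSeries ℂ) 0
      (fun i l : Option (Fin r) => ((A1 Ac i l : Polynomial ℂ) : PowerSeries ℂ))
      (fun _ o => cx (o.elim 1 h)) (fun j o => by
        rw [zero_mul, zero_add, Fintype.sum_option]
        rcases o with _ | i
        · show _ * PowerSeries.derivative ℂ (cx 1) = ((0 : Polynomial ℂ) : PowerSeries ℂ) * _ +
            ∑ j, ((0 : Polynomial ℂ) : PowerSeries ℂ) * _
          rw [map_one, Derivation.map_one_eq_zero]
          simp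
        · show _ = ((0 : Polynomial ℂ) : PowerSeries ℂ) * _ + ∑ j, (Ac i j : PowerSeries ℂ) * cx (h j)
          rw [← hodeC i]
          simp) b
    have h2 : ∀ b : Fin δ → Option (Fin r), cx (yw h b) = ∏ j, cx ((b j).elim 1 h) := fun b => map_prod _ _ _
    rw [h2 b]
    refine h1.trans ?_
    rw [mul_zero, zero_mul, zero_add]
    refine Finset.sum_congr rfl fun b' _ => ?_
    rw [h2 b']
    congr 1
    let f : Polynomial ℂ →+ PowerSeries ℂ := (Polynomial.coeToPowerSeries.ringHom (R := ℂ)).toAddMonoidHom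
    exact (AT_map f (A1 Ac) b b').symm
  have hdisc : Disc (τ ^ e) (τ' ^ e) fun b : (B : Set (Fin δ → Option (Fin r))) => cx (yw h b.1) :=
    disc_of_qu he hτ0 (by linarith) (fun b => cx (yw h b)) hmem Tc hTc0 _ hodeT hQU
      (B : Set (Fin δ → Option (Fin r))) (by
      intro G hG
      refine li_cx (κ := (B : Set (Fin δ → Option (Fin r)))) ?_ G hG
      exact hLI)
  obtain ⟨q₀, E₀, hsys⟩ := gsys_Fg hG'' δ
  obtain ⟨c, hc⟩ := Tg_neC (mul_ne_zero ha hT) hG''.degT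
  obtain ⟨E, hE⟩ := gsys_shift hG''
  obtain ⟨E₁, hE₁⟩ := liC (F := Fg (δ + 1) (fun β : B => yw h β.1)) (Tg := Pool.Agent.Y120.GH.Tg q' (a * T)) (c := c)
    (b₀ := ((⟨fun _ => none, hBB hb₀⟩ : B), (0 : Fin (δ + 1)))) (by
      intro g
      show sf g (yw h fun _ : Fin δ => none) * yQ g ((0 : Fin (δ + 1)) : ℕ) = 1
      rw [hone]
      have h1 : sf g 1 = 1 := by
        have := sf_nat g 1
        simpa using this
      rw [h1, one_mul]
      exact yQ_nil g) hsys hc N d₁ A₁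
  refine ⟨E₁, fun H K' ξ X hK' hd hPt hHt hX g hg hgH => hE₁ H K' ξ X hK' hd hPt hHt hX g hgH ?_⟩
  refine li_shift (ρ := τ ^ e) (ρ' := τ' ^ e) (C := C'') (y := fun β : B => yw h β.1) (by positivity) hρρ
    (by have := hG''.one_le; linarith) (fun β => hmem _) hdisc hG''.size (fun g => ⟨((g : ℝ) + 2) ^ E, by positivity,
      (hE g).size⟩) hR (δ + 1) N g (fun l => by exact_mod_cast hg.1 l) fun l l' hl => ?_
  rcases hg.2 l l' hl with h1 | h1
  · have h2 : (g l : ℝ) + R ≤ g l' := by exact_mod_cast h1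
    rw [abs_sub_comm]
    exact le_trans (by linarith) (le_abs_self _)
  · have h2 : (g l' : ℝ) + R ≤ g l := by exact_mod_cast h1
    exact le_trans (by linarith) (le_abs_self _)


theorem t_fams {r : ℕ} {T : Polynomial ℤ} {A : Fin r → Fin r → Polynomial ℤ} {h : Fin r → ℚ⟦X⟧} (hG : GFs T A h) :
    FAMc h := by
  classical
  obtain ⟨R, hR⟩ := famCs hG.hT hG.hode hG.hsize hG.hgs hG.hqu
  refine ⟨max R 1, le_max_right _ _, fun G hGR I hI δ => ?_⟩
  have hG1 : 1 ≤ G := (le_max_right _ _).trans hGR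
  have hGR' : R ≤ G := (le_max_left _ _).trans hGR
  obtain ⟨B, hBB, ⟨C, hC1, hC⟩, hB⟩ := hR δ ((Mon δ I).image (wd r δ)) (by
    rw [← wd_zero δ]
    refine Finset.mem_image_of_mem _ ?_
    rw [mem_Mon]
    simp) (li_B0 hI δ)
  refine ⟨B, ?_, fun N d A₁ => ?_⟩
  · rw [← Finset.card_image_of_injOn (wd_inj (r := r) (δ := δ) (I := I))]
    exact Finset.card_le_card hBB
  obtain ⟨C₀, hC₀⟩ := hG.hsize
  obtain ⟨E, hE⟩ := hB N d A₁
  obtain ⟨c, hc⟩ := pow_unbounded_of_one_lt (C + |C₀|) (show (1 : ℝ) < 2 by norm_num)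
  refine ⟨(G + 1) * E + (G + 1 + c), ?_⟩
  intro H K ξ X hK hd hPt ht hX g hg hgH n a ha hrel hcard
  have hGH : G * H + 2 ≤ (H + 2) ^ (G + 1) := by
    have h2 : G + 1 ≤ 2 ^ G := Nat.lt_two_pow_self
    have h3 : 2 ^ G ≤ (H + 2) ^ G := Nat.pow_le_pow_left (by omega) _
    rw [pow_succ]
    nlinarith
  have hGHR : ((G * H : ℕ) : ℝ) + 2 ≤ ((H : ℝ) + 2) ^ (G + 1) := by exact_mod_cast hGH
  have hH0 : (0 : ℝ) ≤ (H : ℝ) := by positivity
  have hH1 : (1 : ℝ) ≤ (H : ℝ) + 2 := by linarith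
  have ht1 : (((G * H : ℕ) : ℝ) + 2) ^ E ≤ ‖(ξ : ℂ)‖ := by
    refine (pow_le_pow_left₀ (by positivity) hGHR _).trans ?_
    rw [← pow_mul]
    exact (pow_le_pow_right₀ hH1 (by omega)).trans ht
  have ht2 : (((G * H : ℕ) : ℝ) + 2) * 2 ^ c ≤ ‖(ξ : ℂ)‖ := by
    refine le_trans ?_ ((pow_le_pow_right₀ hH1 (show G + 1 + c ≤ (G + 1) * E + (G + 1 + c) by omega)).trans ht)
    rw [pow_add _ (G + 1) c]
    exact mul_le_mul hGHR (pow_le_pow_left₀ (by norm_num) (by linarith) _) (by positivity) (by positivity)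
  set g' : Fin N → ℕ := fun l => G * g l with hg'
  have hg'H : ∀ l, g' l ≤ G * H := fun l => Nat.mul_le_mul_left _ (hgH l).2
  have hbig : ∀ l, ((g' l : ℕ) : ℝ) + (C + |C₀|) < ‖(ξ : ℂ)‖ := by
    intro l
    have h1 : ((g' l : ℕ) : ℝ) ≤ ((G * H : ℕ) : ℝ) := by exact_mod_cast hg'H l
    have h2 : (1 : ℝ) ≤ 2 ^ c := one_le_pow₀ (by norm_num)
    have h3 : (0 : ℝ) ≤ ((G * H : ℕ) : ℝ) := by positivity
    nlinarith
  have hsep : SepR R g' := by
    refine ⟨fun l => hGR'.trans (Nat.le_mul_of_pos_right _ (hgH l).1), fun l l' hll => ?_⟩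
    have h1 : g l ≠ g l' := fun h => hll (hg h)
    rcases Nat.lt_or_gt_of_ne h1 with h2 | h2
    · left
      have : G * (g l + 1) ≤ G * g l' := Nat.mul_le_mul_left _ h2
      rw [mul_add, mul_one] at this
      show G * g l + R ≤ G * g l'
      omega
    · right
      have : G * (g l' + 1) ≤ G * g l := Nat.mul_le_mul_left _ h2
      rw [mul_add, mul_one] at this
      show G * g l' + R ≤ G * g l
      omega
  refine hE (G * H) K ξ X hK hd hPt ht1 hX g' hsep hg'H n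
    (fun i b => a i b * ((∏ l, ((b l).2 : ℕ).factorial : ℕ) : ℚ)) (li_scale ha fun b => ?_) (fun i => ?_) hcard
  · have h1 : (∏ l, ((b l).2 : ℕ).factorial : ℕ) ≠ 0 := Finset.prod_ne_zero_iff.2 fun l _ => Nat.factorial_ne_zero _
    exact_mod_cast h1
  · refine Eq.trans ?_ (hrel i)
    refine Finset.sum_congr rfl fun b _ => ?_
    have h1 : ∀ l, evc (1 / (ξ : ℂ)) (Fg (δ + 1) (fun β : B => yw h β.1) (g' l) (b l)) =
        yw (fun j => vc G h ξ (g l) (some j)) (b l).1.1 *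
          (1 / (((b l).2 : ℕ).factorial : ℂ) * vc G h ξ (g l) none ^ ((b l).2 : ℕ)) := by
      intro l
      have hb := hbig l
      rw [evc_Fg hC1 (fun β m => hC β.1 m) (by
        have := abs_nonneg C₀
        linarith) (b l)]
      have h2 : |C₀| < ‖(ξ : ℂ) - ((g' l : ℕ) : ℂ)‖ := by
        have h3 := norm_sub_norm_le (ξ : ℂ) ((g' l : ℕ) : ℂ)
        rw [Complex.norm_natCast] at h3
        linarith
      rw [evc_yw (C := |C₀|) (abs_nonneg _) (fun j m => (hC₀ j m).trans (by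
        rw [← abs_pow]
        exact le_abs_self _)) h2]
      rfl
    simp only [h1]
    rw [Rat.cast_mul, mul_assoc]
    congr 1
    have h4 : (((∏ l, ((b l).2 : ℕ).factorial : ℕ) : ℚ) : ℂ) = ∏ l, (((b l).2 : ℕ).factorial : ℂ) := by
      push_cast
      rfl
    rw [h4, ← Finset.prod_mul_distrib]
    refine Finset.prod_congr rfl fun l _ => ?_
    have h5 : ((((b l).2 : ℕ).factorial : ℕ) : ℂ) ≠ 0 := by
      exact_mod_cast Nat.factorial_ne_zero _
    field_simp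


end Pool.Agent.Y916P1

namespace Pool.Agent.Y916P2

open Filter AlgebraicIndependent
open Pool.Agent.Y916 Pool.Agent.Y916.Af Pool.Agent.Y916.Al Pool.Agent.Y120.GH Pool.Agent.Y118.UL Pool.Agent.Y475.AF

theorem nrs {r : ℕ} {h : Fin r → ℚ⟦X⟧} (hfam : FAMc h)
    (hsize : ∃ C : ℝ, ∀ i m, |((coeff m (h i) : ℚ) : ℝ)| ≤ C ^ (m + 1)) : NRh h := by
  classical
  have hhf := Pool.Agent.Y185.AF.t_hf
  have hrk := Pool.Agent.Y356.AF.t_rk
  obtain ⟨G0, hG0, hG⟩ := hfam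
  refine ⟨G0, hG0, fun G hGG I hFree N Δ d A' => ?_⟩
  by_contra hcon
  push Not at hcon
  choose H K ξ X hfd hrank hPt hbig hX g hginj hgb Q hQd hQ0 hQne using hcon
  -- the points
  obtain ⟨xs, hxs⟩ : ∃ xs : Fin N → ℕ → ℂ, xs = fun l n =>
    1 / ((ξ n : ℂ) - ((G * g n l : ℕ) : ℂ)) := ⟨_, rfl⟩
  obtain ⟨zs, hzs⟩ : ∃ zs : Fin N → Option (Fin r) → ℕ → ℂ, zs = fun l o n =>
    vc G h (ξ n) (g n l) o := ⟨_, rfl⟩
  have hxsmall : ∀ ε : ℝ, 0 < ε → ∀ᶠ n in (hyperfilter ℕ : Filter ℕ), ∀ l,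
      xs l n ≠ 0 ∧ ‖xs l n‖ < ε := by
    intro ε hε
    obtain ⟨n₀, hn₀⟩ := small_x G ε hε
    filter_upwards [ev_ge n₀] with n hn l
    rw [hxs]
    exact hn₀ n (H n) (g n l) (ξ n) hn (hbig n) (hgb n l).2
  -- (1)
  have hdep : ¬ AlgebraicIndependent (U ℚ) (fun p : Fin N × Option I =>
      mk ℂ (zs p.1 (p.2.map Subtype.val))) :=
    not_ind (fun p : Fin N × Option I => zs p.1 (p.2.map Subtype.val)) Δ Q hQd hQne (by
      intro n
      rw [hzs]
      exact hQ0 n)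
  -- (2)
  have halg : ∀ l, IsAlgebraic (U ℚ) (mk ℂ (xs l)) := by
    intro l
    refine alg_of_degree K hfd hrank _ fun n => ?_
    rw [hxs]
    exact (K n).div_mem (K n).one_mem ((K n).sub_mem (ξ n).2 (natCast_mem (K n) _))
  have hroot : ∀ l, ∀ c : Polynomial ℚ, c ≠ 0 → Polynomial.aeval (mk ℂ (xs l)) c ≠ 0 := by
    intro l c hc
    rw [aeval_mk1, mk_ne_zero]
    obtain ⟨ε, hε, hεc⟩ := small_root c hc
    filter_upwards [hxsmall ε hε] with n hn
    exact hεc _ (hn l).1 (hn l).2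
  -- (3)
  have hrel : ∀ l, ∀ R : MvPolynomial (Fin r) (Polynomial ℚ), MvPolynomial.aeval h R = 0 →
      MvPolynomial.eval₂ (Polynomial.aeval (mk ℂ (xs l)) : Polynomial ℚ →ₐ[ℚ] U ℂ).toRingHom
        (fun j => mk ℂ (zs l (some j))) R = 0 := by
    intro l R hR
    rw [eval₂_mk, mk_eq_zero]
    obtain ⟨ε, hε, hεc⟩ := small_cvc h hsize
    filter_upwards [hxsmall ε hε] with n hn
    have h1 := (ev_aeval h (xs l n) (hεc _ (hn l).2) R).2
    rw [hR, ev_zero] at h1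
    have h2 : (fun j => zs l (some j) n) = fun j => evc (xs l n) (h j) := by
      funext j
      rw [hzs, hxs]
      rfl
    rw [h2]
    exact h1.symm
  -- (4)
  have hrank2 := hrk r h I hFree (U ℚ) (U ℂ) N (fun l => mk ℂ (xs l)) (fun l o => mk ℂ (zs l o))
    halg hroot hrel hdep
  obtain ⟨n1, hn1⟩ : ∃ n1, N * (I.card + 1) = n1 + 1 := by
    refine ⟨N * (I.card + 1) - 1, ?_⟩
    have : N * (I.card + 1) ≠ 0 := by
      intro h0
      rw [h0] at hrank2
      exact absurd hrank2 (by simp)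
    omega
  have hrank3 : (matroid (U ℚ) (U ℂ)).eRk (Set.range fun p : Fin N × Option (Fin r) =>
      mk ℂ (zs p.1 p.2)) ≤ (n1 : ℕ∞) := by
    rw [hn1] at hrank2
    have h1 : ((n1 + 1 : ℕ) : ℕ∞) = (n1 : ℕ∞) + 1 := by push_cast; rfl
    rw [h1] at hrank2
    exact Order.le_of_lt_add_one hrank2
  obtain ⟨C, hC⟩ := hhf (U ℚ) (U ℂ) (Fin N × Option (Fin r)) (fun p => mk ℂ (zs p.1 p.2)) n1 hrank3
  -- (5)
  obtain ⟨s, hs⟩ : ∃ s : ℕ, 2 * A' * d * (C * (2 * N * (I.card + 1) + 1) ^ n1) ≤ s + 1 :=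
    ⟨2 * A' * d * (C * (2 * N * (I.card + 1) + 1) ^ n1), Nat.le_succ _⟩
  obtain ⟨δ, hδ⟩ : ∃ δ, δ = (I.card + 1) * s := ⟨_, rfl⟩
  obtain ⟨B, hBcard, hB⟩ := hG G hGG I hFree.1 δ
  obtain ⟨E, hE⟩ := hB N d A'
  have hMon : (s + 1) ^ I.card ≤ B.card := by
    refine le_trans ?_ hBcard
    rw [hδ]
    exact card_Mon I s
  have hcard : (s + 1) ^ (n1 + 1) ≤ Fintype.card (Fin N → B × Fin (δ + 1)) := by
    rw [Fintype.card_fun, Fintype.card_prod, Fintype.card_coe, Fintype.card_fin, Fintype.card_fin,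
      ← hn1, mul_comm N, pow_mul, pow_succ]
    refine Nat.pow_le_pow_left (Nat.mul_le_mul hMon ?_) N
    have : s ≤ δ := by
      rw [hδ]
      exact Nat.le_mul_of_pos_left s (Nat.succ_pos _)
    omega
  have hdim : 2 * A' * d * (C * (2 * N * δ + 1) ^ n1) ≤
      Fintype.card (Fin N → B × Fin (δ + 1)) := by
    refine le_trans ?_ hcard
    have h1 : 2 * N * δ + 1 ≤ (2 * N * (I.card + 1) + 1) * (s + 1) := by
      rw [hδ]
      nlinarith [Nat.zero_le (2 * N * (I.card + 1)), Nat.zero_le s]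
    calc 2 * A' * d * (C * (2 * N * δ + 1) ^ n1)
        ≤ 2 * A' * d * (C * ((2 * N * (I.card + 1) + 1) * (s + 1)) ^ n1) := by
          gcongr
      _ = (2 * A' * d * (C * (2 * N * (I.card + 1) + 1) ^ n1)) * (s + 1) ^ n1 := by
          rw [mul_pow]; ring
      _ ≤ (s + 1) * (s + 1) ^ n1 := Nat.mul_le_mul_right _ hs
      _ = (s + 1) ^ (n1 + 1) := (pow_succ' _ _).symm
  -- (6) the products
  obtain ⟨ws, hws⟩ : ∃ ws : (Fin N → B × Fin (δ + 1)) → ℕ → ℂ, ws = fun b n =>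
    ∏ l, (yw (fun j => zs l (some j) n) (b l).1.1 * zs l none n ^ ((b l).2 : ℕ)) := ⟨_, rfl⟩
  obtain ⟨W, hW⟩ : ∃ W : (Fin N → B × Fin (δ + 1)) → U ℂ, W = fun b => mk ℂ (ws b) := ⟨_, rfl⟩
  have hWmem : ∀ b, W b ∈ mons (fun p : Fin N × Option (Fin r) => mk ℂ (zs p.1 p.2))
      (2 * N * δ) := by
    intro b
    have e : W b = ∏ l, (yw (fun j => mk ℂ (zs l (some j))) (b l).1.1 *
        mk ℂ (zs l none) ^ ((b l).2 : ℕ)) := by
      rw [hW]
      simp only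
      have e1 : ∀ l, yw (fun j => mk ℂ (zs l (some j))) (b l).1.1 =
          mk ℂ (fun n => yw (fun j => zs l (some j) n) (b l).1.1) := by
        intro l
        unfold yw
        have e2 : ∀ i, ((b l).1.1 i).elim (1 : U ℂ) (fun j => mk ℂ (zs l (some j))) =
            mk ℂ (fun n => ((b l).1.1 i).elim (1 : ℂ) (fun j => zs l (some j) n)) := by
          intro i
          cases (b l).1.1 i with
          | none => exact (map_one (mk ℂ)).symm
          | some j => rfl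
        simp only [e2, ← map_prod]
        congr 1
        funext n
        rw [Finset.prod_apply]
      simp only [e1, ← map_pow, ← map_mul, ← map_prod]
      congr 1
      funext n
      rw [hws, Finset.prod_apply]
      rfl
    rw [e]
    have h1 := mons_prod (fun p : Fin N × Option (Fin r) => mk ℂ (zs p.1 p.2)) Finset.univ
      (fun l => yw (fun j => mk ℂ (zs l (some j))) (b l).1.1 *
        mk ℂ (zs l none) ^ ((b l).2 : ℕ)) (δ + δ) (by
      intro l _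
      refine mons_mul _ ?_ ?_
      · unfold yw
        have h2 := mons_prod (fun p : Fin N × Option (Fin r) => mk ℂ (zs p.1 p.2)) Finset.univ
          (fun i => ((b l).1.1 i).elim (1 : U ℂ) (fun j => mk ℂ (zs l (some j)))) 1 (by
            intro i _
            cases (b l).1.1 i with
            | none => exact mons_mono _ (Nat.zero_le 1) (mons_one _)
            | some j => exact mons_var (fun p : Fin N × Option (Fin r) => mk ℂ (zs p.1 p.2)) (l, some j))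
        rw [Finset.card_univ, Fintype.card_fin, mul_one] at h2
        exact h2
      · refine mons_mono _ (Nat.lt_succ_iff.1 (b l).2.2) (mons_pow _ ?_ _)
        exact mons_var (fun p : Fin N × Option (Fin r) => mk ℂ (zs p.1 p.2)) (l, none))
    rw [Finset.card_univ, Fintype.card_fin] at h1
    refine mons_mono _ ?_ h1
    nlinarith
  -- the kernel
  obtain ⟨φ, hφ⟩ : ∃ φ : ((Fin N → B × Fin (δ + 1)) → U ℚ) →ₗ[U ℚ] U ℂ,
    φ = Fintype.linearCombination (U ℚ) W := ⟨_, rfl⟩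
  have hφa : ∀ f, φ f = ∑ b, f b • W b := by
    intro f
    rw [hφ, Fintype.linearCombination_apply]
  have hfinm := mons_finite (fun p : Fin N × Option (Fin r) => mk ℂ (zs p.1 p.2)) (2 * N * δ)
  have hfdm : FiniteDimensional (U ℚ) (Submodule.span (U ℚ)
      (mons (fun p : Fin N × Option (Fin r) => mk ℂ (zs p.1 p.2)) (2 * N * δ))) :=
    FiniteDimensional.span_of_finite _ hfinm
  have hrange : finrank (U ℚ) (LinearMap.range φ) ≤ C * (2 * N * δ + 1) ^ n1 := by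
    refine le_trans ?_ (hC (2 * N * δ))
    apply Submodule.finrank_mono
    rw [hφ, Fintype.range_linearCombination]
    apply Submodule.span_mono
    rintro _ ⟨b, rfl⟩
    exact hWmem b
  have hrn := LinearMap.finrank_range_add_finrank_ker φ
  rw [Module.finrank_fintype_fun_eq_card] at hrn
  obtain ⟨n2, hn2⟩ : ∃ n2, n2 = finrank (U ℚ) (LinearMap.ker φ) := ⟨_, rfl⟩
  rw [← hn2] at hrn
  obtain ⟨bas⟩ : Nonempty (Basis (Fin n2) (U ℚ) (LinearMap.ker φ)) := by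
    rw [hn2]
    exact ⟨Module.finBasis (U ℚ) (LinearMap.ker φ)⟩
  have hbas : LinearIndependent (U ℚ) (fun i => ((bas i : LinearMap.ker φ) :
      (Fin N → B × Fin (δ + 1)) → U ℚ)) :=
    bas.linearIndependent.map' (LinearMap.ker φ).subtype (Submodule.ker_subtype _)
  have hrep : ∀ (i : Fin n2) (b : Fin N → B × Fin (δ + 1)), ∃ a : ℕ → ℚ,
      mk ℚ a = ((bas i : LinearMap.ker φ) : (Fin N → B × Fin (δ + 1)) → U ℚ) b :=
    fun i b => mk_surj _
  choose a ha using hrep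
  have hbas' : LinearIndependent (U ℚ) (fun i => fun b => mk ℚ (a i b)) := by
    have e : (fun i => fun b => mk ℚ (a i b)) = (fun i => ((bas i : LinearMap.ker φ) :
        (Fin N → B × Fin (δ + 1)) → U ℚ)) := by
      funext i b
      exact ha i b
    rw [e]
    exact hbas
  have hli := lift_ind a hbas'
  have hvan : ∀ᶠ n in (hyperfilter ℕ : Filter ℕ), ∀ i, ∑ b, ((a i b n : ℚ) : ℂ) * ws b n = 0 := by
    rw [eventually_all]
    intro i
    have h1 : φ ((bas i : LinearMap.ker φ) : (Fin N → B × Fin (δ + 1)) → U ℚ) = 0 :=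
      LinearMap.mem_ker.1 (bas i).2
    rw [hφa] at h1
    have h2 : ∑ b, mk ℂ (fun n => ((a i b n : ℚ) : ℂ) * ws b n) = 0 := by
      refine Eq.trans (Finset.sum_congr rfl fun b _ => ?_) h1
      rw [← ha i b, Algebra.smul_def, algebraMap_eq, qc_mk, hW]
      simp only
      rw [← map_mul]
      rfl
    rw [← map_sum, mk_eq_zero] at h2
    filter_upwards [h2] with n hn
    rw [Finset.sum_apply] at hn
    exact hn
  obtain ⟨n, hn1', hn2', hn3'⟩ := (hli.and (hvan.and (ev_ge E))).exists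
  refine hE (H n) (K n) (ξ n) (X n) (hfd n) (hrank n) (hPt n) ?_ (hX n) (g n) (hginj n) (hgb n)
    n2 (fun i b => a i b n) hn1' ?_ ?_
  · refine le_trans (pow_le_pow_right₀ ?_ hn3') (hbig n)
    have : (0 : ℝ) ≤ (H n : ℝ) := Nat.cast_nonneg _
    linarith
  · intro i
    have h1 := hn2' i
    rw [hws, hzs] at h1
    exact h1
  · refine le_trans (Nat.mul_le_mul_left _ ?_) hdim
    omega

end Pool.Agent.Y916P2
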