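import Pool.Agent.Y916.Af.All

/-!
# Families of G-functions at algebraic points: windows for relations without logarithms

The number of exceptions is at most `trdeg ℚ(Ω) + q`; there are none for relations without constants.
-/

set_option autoImplicit false

open PowerSeries Module Filter AlgebraicIndependent

namespace Pool.Agent.Y916.Af

open Pool.Agent.Y113 Pool.Agent.Y916.Al Pool.Agent.Y916.AW Pool.Agent.Y118.UL Pool.Agent.Y977.AF

variable {r : ℕ}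

/-- the relations of the dependent coordinates -/
theorem exists_Rn {h : Fin r → ℚ⟦X⟧} {I : Finset (Fin r)}
    (hI : ∀ s ∉ I, ¬ AlgebraicIndependent (Polynomial ℚ) (fun o : Option I => o.elim (h s) fun i => h i)) :
    ∃ R : Fin r → Polynomial (MvPolynomial I (Polynomial ℚ)), (∀ s, R s ≠ 0) ∧
      ∀ (x : ℂ) (y : Fin r → ℂ), y ∈ Vc h x → ∀ s,
        Polynomial.eval₂ (spc (Subtype.val : I → Fin r) x y) (y s) (R s) = 0 := by
  classical
  have key : ∀ s : Fin r, ∃ R : Polynomial (MvPolynomial I (Polynomial ℚ)), R ≠ 0 ∧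
      ∀ (x : ℂ) (y : Fin r → ℂ), y ∈ Vc h x →
        Polynomial.eval₂ (spc (Subtype.val : I → Fin r) x y) (y s) R = 0 := by
    intro s
    by_cases hs : s ∈ I
    · refine ⟨Polynomial.X - Polynomial.C (MvPolynomial.X ⟨s, hs⟩), Polynomial.X_sub_C_ne_zero _, fun x y _ => ?_⟩
      rw [Polynomial.eval₂_sub, Polynomial.eval₂_X, Polynomial.eval₂_C]
      unfold spc
      rw [MvPolynomial.coe_eval₂Hom, MvPolynomial.eval₂_X, sub_self]
    · have h1 := hI s hs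
      rw [algebraicIndependent_iff] at h1
      push Not at h1
      obtain ⟨p, hp, hp0⟩ := h1
      set q := MvPolynomial.optionEquivLeft (Polynomial ℚ) I p with hq
      have hq0 : q ≠ 0 := by
        rw [hq]
        exact fun h => hp0 ((map_eq_zero_iff _ (MvPolynomial.optionEquivLeft (Polynomial ℚ) I).injective).1 h)
      refine ⟨q, hq0, fun x y hy => ?_⟩
      set z : Option I → ℂ := fun o => o.elim (y s) fun i => y i.1 with hz
      have h2 : spc (Subtype.val : I → Fin r) x y =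
          MvPolynomial.eval₂Hom (Polynomial.aeval x : Polynomial ℚ →ₐ[ℚ] ℂ).toRingHom fun i => z (some i) := rfl
      rw [h2]
      have h3 : y s = z none := rfl
      rw [h3, hq, Pool.Agent.Y977.AF.eval₂_option]
      have h4 := hy (MvPolynomial.rename (fun o : Option I => o.elim s Subtype.val) p) (by
        rw [MvPolynomial.aeval_rename]
        have h5 : (h ∘ fun o : Option I => o.elim s Subtype.val) = fun o : Option I => o.elim (h s) fun i => h i := by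
          funext o
          rcases o with _ | i <;> rfl
        rw [h5]
        exact hp)
      rw [MvPolynomial.eval₂_rename] at h4
      have h6 : (y ∘ fun o : Option I => o.elim s Subtype.val) = z := by
        funext o
        rcases o with _ | i <;> rfl
      rw [h6] at h4
      exact h4
  choose R h1 h2 using key
  exact ⟨R, h1, fun x y hy s => h2 s x y hy⟩

/-- (BR) without logarithms -/
theorem t_brn (h : Fin r → ℚ⟦X⟧) (I : Finset (Fin r)) (hI : Free h I) (k m d δ D : ℕ) :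
    ∃ (δ' : ℕ) (c : Polynomial ℚ), c ≠ 0 ∧ ∀ (x : Fin k → ℂ) (y₀ : Fin k × Fin r → ℂ)
    (Y : Set (Fin k × Fin r → ℂ)) (K : IntermediateField ℚ ℂ) (w : Fin D → ℂ)
    (P : MvPolynomial (Fin D ⊕ Fin k × Fin r) K),
    (∀ j, ∃ K₁ : IntermediateField ℚ ℂ, FiniteDimensional ℚ K₁ ∧ finrank ℚ K₁ ≤ m ∧ x j ∈ K₁) →
    (∀ j, Polynomial.aeval (x j) c ≠ 0) → IrrD δ' Y → y₀ ∈ Y → (∀ y ∈ Y, ∀ j, (fun i => y (j, i)) ∈ Vc h (x j)) →
    FiniteDimensional ℚ K → finrank ℚ K ≤ d → P.totalDegree ≤ δ → MvPolynomial.aeval (Sum.elim w y₀) P = 0 →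
    (∃ y ∈ Y, MvPolynomial.aeval (Sum.elim w y) P ≠ 0) →
    ∃ Q : MvPolynomial (Fin D ⊕ Fin k × I) ℚ, Q.totalDegree ≤ δ' ∧
      MvPolynomial.aeval (Sum.elim w fun p : Fin k × I => y₀ (p.1, p.2)) Q = 0 ∧
      (MvPolynomial.aeval (Sum.elim (fun j => MvPolynomial.C (w j)) MvPolynomial.X) Q :
        MvPolynomial (Fin k × I) ℂ) ≠ 0 := by
  have hdep := t_dep2
  classical
  obtain ⟨R, hR1, hR2⟩ := exists_Rn hI.2
  obtain ⟨c, hc1, hc2⟩ := exists_cseq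
  by_contra hcon
  push Not at hcon
  choose x y₀ Y K w P h1 h2 h3 h4 h5 h6 h7 h8 h9 h10 h11 using fun n => hcon n (c n) (hc1 n)
  choose K₁ k1 k2 k3 using h1
  choose y hy1 hy2 using h10
  obtain ⟨a, ha⟩ := hdep (Fin r) I (Fin D) Subtype.val R hR1 k x
    (fun j => alg_of_degree (D := m) (fun n => K₁ n j) (fun n => k1 n j) (fun n => k2 n j) _ fun n => k3 n j)
    (by
      intro q hq j
      obtain ⟨N, hN⟩ := hc2 q hq
      filter_upwards [ev_ge N] with n hn h0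
      obtain ⟨u, hu⟩ := hN n hn
      apply h2 n j
      rw [hu, map_mul, h0, zero_mul])
    w Y h3 y₀ h4 (fun n y hy j s => hR2 (x n j) (fun s => y (j, s)) (h5 n y hy j) s)
    d δ K h6 h7 P h8 h9 y hy1 hy2
  obtain ⟨F, hF1, hF2⟩ := rel_of_cl (fun j : Fin D => mk ℂ fun n => w n j)
    (fun b : Fin k × I => mk ℂ fun n => y₀ n (b.1, b.2)) a ha
  obtain ⟨δ₀, hδ⟩ := rel_seq w (fun n (b : Fin k × I) => y₀ n (b.1, b.2)) F hF1 hF2
  obtain ⟨n, ⟨Q, q1, q2, q3⟩, hn⟩ := (hδ.and (ev_ge δ₀)).exists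
  exact q3 (h11 n Q (q1.trans hn) q2)

/-- windows for the values themselves -/
theorem windowN {σ : Type} [Fintype σ] [DecidableEq σ] (val : ℂ → ℕ → σ → ℂ) (hval : Sl.InpA val)
    {υ : Type} [Fintype υ] (u : υ → ℂ) (m r d δ τ A : ℕ) :
    ∃ E : ℕ, ∀ (H : ℕ) (K₁ : IntermediateField ℚ ℂ) (ξ : K₁) (X : ℝ), FiniteDimensional ℚ K₁ → finrank ℚ K₁ ≤ m →
      Al.Pt K₁ ξ X → ((H : ℝ) + 2) ^ E ≤ ‖(ξ : ℂ)‖ → X ≤ ‖(ξ : ℂ)‖ ^ A → ∀ w : Fin τ → ℂ, ∃ S : Finset ℕ,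
        (S.card : Cardinal) ≤ τ + Algebra.trdeg ℚ (IntermediateField.adjoin ℚ (Set.range u)) ∧
        ∀ g : Fin r → ℕ, Function.Injective g → (∀ i, 1 ≤ g i ∧ g i ≤ H ∧ g i ∉ S) →
        ∀ K : IntermediateField ℚ ℂ, FiniteDimensional ℚ K → finrank ℚ K ≤ d →
        ∀ P : MvPolynomial ((Fin τ ⊕ υ) ⊕ Fin r × σ) K,
          P.totalDegree ≤ δ → MvPolynomial.aeval (Sum.elim (Sum.elim w u) fun p => val ξ (g p.1) p.2) P = 0 →
          MvPolynomial.aeval (Sum.elim (fun j => MvPolynomial.C (Sum.elim w u j)) MvPolynomial.X) P =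
            (0 : MvPolynomial (Fin r × σ) ℂ) := by
  classical
  obtain ⟨T, hTc, hT⟩ := Om.exists_base u
  obtain ⟨A', B', hAB⟩ := Om.Dom.exists u T hT
  obtain ⟨Ev, hEv⟩ := Sl.inpI hval m A
  obtain ⟨E₂, hE₂⟩ := Om.winF Ev (σ := σ) r d 1 δ (τ + T.card) A' B'
  refine ⟨E₂, fun H K₁ ξ X hK₁f hK₁d hPt hξ hXξ w => ?_⟩
  set i : Sl.PtI m A := ⟨K₁, ξ, X, hK₁f, hK₁d, hPt, hXξ⟩ with hi
  have hsize : (H + 2) ^ E₂ ≤ i.size := Nat.le_floor (by push_cast; exact hξ)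
  set v : Fin τ ⊕ υ → ℂ := Sum.elim w u with hv
  set T' : Finset (Fin τ ⊕ υ) := (Finset.univ : Finset (Fin τ)).disjSum T with hT'
  have hT'c : T'.card = τ + T.card := by
    rw [hT', Finset.card_disjSum]
    simp
  have hdom : Om.Dom A' B' v T' := by
    refine hAB.of v T' ?_ ?_
    · intro j hj
      exact ⟨Sum.inr j, by simp [hT', hj], by simp [hv]⟩
    · rintro (j | j)
      · exact Or.inl (by simp [hT'])
      · exact Or.inr ⟨j, by simp [hv]⟩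
  obtain ⟨S, hS, hwin⟩ := hE₂ ℂ (Sl.PtI m A) Sl.PtI.size _ hEv H i hsize _ v T' hT'c hdom ⊥ inferInstance
    (by rw [IntermediateField.finrank_bot])
  refine ⟨S, ?_, ?_⟩
  · calc (S.card : Cardinal) ≤ ((τ + T.card : ℕ) : Cardinal) := by exact_mod_cast hS
      _ = (τ : Cardinal) + (T.card : Cardinal) := by push_cast; ring
      _ ≤ _ := by gcongr
  intro g hn hnb K hKf hKd P hPd hPv
  exact hwin g hn hnb (fun p => val ξ (g p.1) p.2) (fun p => ⟨1, one_ne_zero, by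
    rw [show (((1 : (⊥ : IntermediateField ℚ ℂ))) : ℂ) = 1 from rfl, one_mul, sub_self]
    exact Submodule.zero_mem _⟩) K hKf hKd (fun p => val ξ (g p.1) p.2) (fun p => ⟨1, one_ne_zero, by
    rw [show ((1 : K) : ℂ) = 1 from rfl, one_mul, sub_self]
    exact Submodule.zero_mem _⟩) P hPd hPv

/-- a part of the coordinates -/
theorem inpA_some {I : Finset (Fin r)} {val : ℂ → ℕ → Option I → ℂ} (hval : Sl.InpA val) :
    Sl.InpA (fun ξ g (i : I) => val ξ g (some i)) := by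
  intro N Δ d A
  obtain ⟨E, hE⟩ := hval N Δ d A
  refine ⟨E, fun H K ξ X hf hd hPt hξ hX g hg hgb Q hQ hQ0 => ?_⟩
  have h1 := hE H K ξ X hf hd hPt hξ hX g hg hgb (MvPolynomial.rename (fun p : Fin N × I => (p.1, some p.2)) Q)
    ((MvPolynomial.totalDegree_rename_le _ _).trans hQ) (by
      rw [MvPolynomial.aeval_rename]
      exact hQ0)
  refine (map_eq_zero_iff _ (MvPolynomial.rename_injective _ ?_)).1 h1
  rintro ⟨a, b⟩ ⟨a', b'⟩ hab
  simpa using hab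

/-- the numbers `h_i(1 / α_j)` -/
noncomputable def ptn (h : Fin r → ℚ⟦X⟧) {k : ℕ} (α : Fin k → ℂ) : Fin k × Fin r → ℂ := fun a => evc (1 / α a.1) (h a.2)

/-- windows without logarithms, the core -/
theorem winN {T₀ : Polynomial ℤ} {A₀ : Fin r → Fin r → Polynomial ℤ} {h : Fin r → ℚ⟦X⟧} (hGF : GFam T₀ A₀ h) :
    ∃ G0 : ℕ, 1 ≤ G0 ∧ ∀ G : ℕ, G0 ≤ G → ∀ (p : ℕ) (Ω : Fin p → ℂ) (q k m d δ A : ℕ), ∃ δ₁ E : ℕ, ∀ (H : ℕ) (ξ : ℂ),
      ((H : ℝ) + 2) ^ E ≤ ‖ξ‖ → Ht m A ξ → ∀ w : Fin q → ℂ, ∃ S : Finset ℕ,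
      (S.card : Cardinal) ≤ Algebra.trdeg ℚ (IntermediateField.adjoin ℚ (Set.range Ω)) + q ∧
      ∀ u : Fin k → ℕ, Function.Injective u → (∀ j, 1 ≤ u j ∧ u j ≤ H ∧ u j ∉ S) →
      ∀ Y : Set (Fin k × Fin r → ℂ), IrrD δ₁ Y → ptn h (fun j => ξ - ((G * u j : ℕ) : ℂ)) ∈ Y →
      (∀ y ∈ Y, ∀ j, (fun i => y (j, i)) ∈ Vc h (1 / (ξ - ((G * u j : ℕ) : ℂ)))) →
      ∀ K : IntermediateField ℚ ℂ, FiniteDimensional ℚ K → finrank ℚ K ≤ d →
      ∀ P : MvPolynomial ((Fin p ⊕ Fin q) ⊕ Fin k × Fin r) K, P.totalDegree ≤ δ →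
      MvPolynomial.aeval (Sum.elim (Sum.elim Ω w) (ptn h (fun j => ξ - ((G * u j : ℕ) : ℂ)))) P = 0 →
      ∀ y ∈ Y, MvPolynomial.aeval (Sum.elim (Sum.elim Ω w) y) P = 0 := by
  classical
  obtain ⟨I, hI1, hI2⟩ := exists_free h
  have hI : Free h I := ⟨hI1, hI2⟩
  obtain ⟨G0, hG01, hval⟩ := nr r T₀ A₀ h hGF
  refine ⟨G0, hG01, fun G hG p Ω q k m d δ A => ?_⟩
  have hG1 : 1 ≤ G := hG01.trans hG
  have hval := hval G hG I hI
  obtain ⟨δ', c, hc, hbr⟩ := t_brn h I hI k m d δ (p + q)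
  obtain ⟨B, hB1, hB⟩ := large_ne hc
  obtain ⟨E₁, hE₁⟩ := windowN _ (inpA_some (inpA_va hG1 hval)) Ω m k 1 δ' q (2 * (2 * A + 3))
  refine ⟨δ', E₁ + 2 * G + B + 3, ?_⟩
  intro H ξ hξ hHt w
  have hH2 : (2 : ℝ) ≤ (H : ℝ) + 2 := by linarith [(Nat.cast_nonneg H : (0 : ℝ) ≤ H)]
  have hH1 : (1 : ℝ) ≤ (H : ℝ) + 2 := by linarith
  have hGR : (1 : ℝ) ≤ G := by exact_mod_cast hG1
  have h2n : ∀ n : ℕ, (n : ℝ) ≤ ((H : ℝ) + 2) ^ n := fun n => by
    refine le_trans ?_ (pow_le_pow_left₀ (by norm_num) hH2 n)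
    exact_mod_cast (Nat.lt_two_pow_self (n := n)).le
  have hGB : (G : ℝ) * (H + 2) + B ≤ ‖ξ‖ := by
    refine le_trans ?_ ((pow_le_pow_right₀ hH1 (by omega : G + 1 + B + 1 ≤ E₁ + 2 * G + B + 3)).trans hξ)
    have h1 := h2n G
    have h2 := h2n B
    have h3 : (1 : ℝ) ≤ ((H : ℝ) + 2) ^ (G + 1) := one_le_pow₀ hH1
    have h4 : (1 : ℝ) ≤ ((H : ℝ) + 2) ^ B := one_le_pow₀ hH1
    have h5 : (G : ℝ) * (H + 2) ≤ ((H : ℝ) + 2) ^ (G + 1) := by
      rw [pow_succ]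
      exact mul_le_mul_of_nonneg_right h1 (by linarith)
    have h6 : (B : ℝ) ≤ ((H : ℝ) + 2) ^ B := h2
    calc (G : ℝ) * (H + 2) + B ≤ ((H : ℝ) + 2) ^ (G + 1) + ((H : ℝ) + 2) ^ B := add_le_add h5 h6
      _ ≤ ((H : ℝ) + 2) ^ (G + 1) * ((H : ℝ) + 2) ^ B * 2 := by nlinarith
      _ ≤ ((H : ℝ) + 2) ^ (G + 1) * ((H : ℝ) + 2) ^ B * ((H : ℝ) + 2) :=
          mul_le_mul_of_nonneg_left hH2 (by positivity)
      _ = _ := by rw [← pow_add, ← pow_succ]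
  have hG2 : (G : ℝ) * G ≤ ‖ξ‖ := by
    refine le_trans ?_ ((pow_le_pow_right₀ hH1 (by omega : G + G ≤ E₁ + 2 * G + B + 3)).trans hξ)
    rw [pow_add]
    exact mul_le_mul (h2n G) (h2n G) (by linarith) (by positivity)
  have hGE : (G : ℝ) * ((H : ℝ) + 2) ^ E₁ ≤ ‖ξ‖ := by
    refine le_trans ?_ ((pow_le_pow_right₀ hH1 (by omega : G + E₁ ≤ E₁ + 2 * G + B + 3)).trans hξ)
    rw [pow_add]
    exact mul_le_mul_of_nonneg_right (h2n G) (by positivity)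
  obtain ⟨p₀, hp0, hpd, hpY, hp⟩ := hHt
  obtain ⟨K₁, ξ₁, h1, h2, h3, h4⟩ := pt_root hp0 hpd hpY hp
  have hξ2 : (2 : ℝ) ≤ ‖ξ‖ := by nlinarith [(Nat.cast_nonneg B : (0 : ℝ) ≤ B), (Nat.cast_nonneg H : (0 : ℝ) ≤ H)]
  have hn : ‖((-ξ₁ / G : K₁) : ℂ)‖ = ‖ξ‖ / G := by
    push_cast
    rw [h3, norm_div, norm_neg, Complex.norm_natCast]
  obtain ⟨S, hS, hwin⟩ := hE₁ H K₁ (-ξ₁ / G) (G * (‖ξ‖ ^ A * (‖ξ‖ ^ A + 2))) h1 h2 (pt_div h4 hG1) (by
    rw [hn, le_div_iff₀ (by linarith), mul_comm]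
    exact hGE) (by
    rw [hn]
    have h5 : ‖ξ‖ ≤ (‖ξ‖ / G) ^ 2 := by
      rw [div_pow, le_div_iff₀ (by positivity)]
      nlinarith
    have h6 : (G : ℝ) ≤ ‖ξ‖ := by nlinarith
    have h7 : (1 : ℝ) ≤ ‖ξ‖ ^ A := one_le_pow₀ (by linarith)
    have h8 : ‖ξ‖ ^ A + 2 ≤ ‖ξ‖ ^ A * ‖ξ‖ ^ 2 := by
      have h9 : (4 : ℝ) ≤ ‖ξ‖ ^ 2 := by nlinarith
      nlinarith
    calc (G : ℝ) * (‖ξ‖ ^ A * (‖ξ‖ ^ A + 2)) ≤ ‖ξ‖ * (‖ξ‖ ^ A * (‖ξ‖ ^ A * ‖ξ‖ ^ 2)) :=
          mul_le_mul h6 (mul_le_mul_of_nonneg_left h8 (by positivity)) (by positivity) (by positivity)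
      _ = ‖ξ‖ ^ (2 * A + 3) := by ring
      _ ≤ ((‖ξ‖ / G) ^ 2) ^ (2 * A + 3) := pow_le_pow_left₀ (by positivity) h5 _
      _ = _ := by rw [← pow_mul]) w
  refine ⟨S, hS.trans (le_of_eq (add_comm _ _)), ?_⟩
  intro u hu hub Y hY hmem hfib K hKf hKd P hPd hP0 y hy
  by_contra hPy
  set α : Fin k → ℂ := fun j => ξ - ((G * u j : ℕ) : ℂ) with hα
  have hαB : ∀ j, (B : ℝ) < ‖α j‖ := by
    intro j
    have h5 := norm_sub_norm_le ξ ((G * u j : ℕ) : ℂ)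
    rw [Complex.norm_natCast] at h5
    have h6 : ((G * u j : ℕ) : ℝ) ≤ G * H := by
      push_cast
      exact mul_le_mul_of_nonneg_left (by exact_mod_cast (hub j).2.1) (by linarith)
    show (B : ℝ) < ‖ξ - ((G * u j : ℕ) : ℂ)‖
    nlinarith
  -- the constants
  set w' : Fin (p + q) → ℂ := fun i => Sum.elim Ω w (finSumFinEquiv.symm i) with hw'
  set ρ : (Fin p ⊕ Fin q) ⊕ Fin k × Fin r → Fin (p + q) ⊕ Fin k × Fin r := Sum.map finSumFinEquiv id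
    with hρ
  have hev : ∀ z : Fin k × Fin r → ℂ, MvPolynomial.aeval (Sum.elim w' z) (MvPolynomial.rename ρ P) =
      MvPolynomial.aeval (Sum.elim (Sum.elim Ω w) z) P := by
    intro z
    rw [MvPolynomial.aeval_rename]
    congr 2
    funext x
    rcases x with i | x
    · show w' (finSumFinEquiv i) = _
      rw [hw']
      simp
    · rfl
  obtain ⟨Q, hQd, hQ, hQ0⟩ := hbr (fun j => 1 / α j) (ptn h α) Y K w' (MvPolynomial.rename ρ P) (fun j => by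
    refine ⟨K₁, h1, h2, ?_⟩
    have h5 : 1 / α j = ((1 / (ξ₁ - ((G * u j : ℕ) : K₁)) : K₁) : ℂ) := by
      push_cast
      rw [h3, hα]
      push_cast
      rfl
    rw [h5]
    exact SetLike.coe_mem _) (fun j => hB _ (hαB j)) hY hmem hfib hKf hKd
    ((MvPolynomial.totalDegree_rename_le _ _).trans hPd) (by rw [hev, hP0]) ⟨y, hy, by rwa [hev]⟩
  apply hQ0
  -- the window theorem for the free coordinates
  set ρ' : Fin (p + q) ⊕ Fin k × I → (Fin q ⊕ Fin p) ⊕ Fin k × I :=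
    Sum.map (fun i => (finSumFinEquiv.symm i).elim (fun a => Sum.inr a) Sum.inl) id with hρ'
  have hcc : ∀ i : Fin (p + q), Sum.elim w Ω ((finSumFinEquiv.symm i).elim (fun a => Sum.inr a) Sum.inl) = w' i := by
    intro i
    rw [hw']
    simp only
    rcases finSumFinEquiv.symm i with a | a <;> rfl
  have h9 := hwin u hu hub ⊥ inferInstance
    (by rw [IntermediateField.finrank_bot])
    (MvPolynomial.rename ρ' (MvPolynomial.map (algebraMap ℚ (⊥ : IntermediateField ℚ ℂ)) Q))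
    ((MvPolynomial.totalDegree_rename_le _ _).trans ((tdm _ _).trans hQd)) ?_
  · rw [MvPolynomial.aeval_rename] at h9
    refine Eq.trans ?_ h9
    rw [MvPolynomial.aeval_def, MvPolynomial.aeval_def, MvPolynomial.eval₂_map]
    congr 1
    funext x
    rcases x with i | x
    · show MvPolynomial.C (w' i) = MvPolynomial.C (Sum.elim w Ω _)
      rw [hcc]
    · rfl
  · rw [MvPolynomial.aeval_rename]
    refine Eq.trans ?_ hQ
    rw [MvPolynomial.aeval_def, MvPolynomial.aeval_def, MvPolynomial.eval₂_map]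
    congr 1
    funext x
    rcases x with i | ⟨i, s⟩
    · show Sum.elim w Ω _ = w' i
      rw [hcc]
    · show evc (1 / (-(G : ℂ) * ((-ξ₁ / G : K₁) : ℂ) - ((G * u i : ℕ) : ℂ))) (h s) = evc (1 / α i) (h s)
      have h10 : -(G : ℂ) * ((-ξ₁ / G : K₁) : ℂ) - ((G * u i : ℕ) : ℂ) = α i := by
        have hG0 : (G : ℂ) ≠ 0 := by exact_mod_cast (by omega : G ≠ 0)
        rw [hα]
        push_cast
        rw [h3]
        field_simp
      rw [h10]

end Pool.Agent.Y916.Af
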