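import Pool.Agent.Y916.Af.Gs
import Pool.Agent.Y916.Af.Nolog

/-!
# Families of G-functions at algebraic points: the final theorems from (NR) for one family

`NRh h` holds for `GFam T A h` and for `GFs T A h`.
-/

set_option autoImplicit false
set_option linter.unusedVariables false

open PowerSeries Module Filter AlgebraicIndependent

namespace Pool.Agent.Y916.Af

open Pool.Agent.Y113 Pool.Agent.Y916.Al Pool.Agent.Y916.AW Pool.Agent.Y118.UL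

variable {r : ℕ}

/-- the coefficients have geometric growth -/
def SZ (h : Fin r → ℚ⟦X⟧) : Prop := ∃ C : ℝ, ∀ i m, |((coeff m (h i) : ℚ) : ℝ)| ≤ C ^ (m + 1)

theorem nrh_of_gfs {T : Polynomial ℤ} {A : Fin r → Fin r → Polynomial ℤ} {h : Fin r → ℚ⟦X⟧} (hG : GFs T A h) : NRh h :=
  Pool.Agent.Y916P2.nrs (Pool.Agent.Y916P1.t_fams hG) hG.hsize

theorem nrh_of_gfam {T : Polynomial ℤ} {A : Fin r → Fin r → Polynomial ℤ} {h : Fin r → ℚ⟦X⟧} (hG : GFam T A h) :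
    NRh h := nr r T A h hG

/-- almost all tuples, the core -/
theorem tupDs {h : Fin r → ℚ⟦X⟧} (hnr : NRh h) (hsize : SZ h) (k m δ d D : ℕ) :
    ∃ δ₁ : ℕ, ∃ c : ℝ, 0 < c ∧ ∃ C : ℝ, 0 ≤ C ∧ ∀ V : Submodule ℚ ℂ, Module.Finite ℚ V → finrank ℚ V ≤ D →
      ∀ T : ℕ, 1 ≤ T → {α : Fin k → ℂ | (∀ i, Sl.AInt m T (α i)) ∧ ExcD δ₁ h δ d V α}.Finite ∧
      ({α : Fin k → ℂ | (∀ i, Sl.AInt m T (α i)) ∧ ExcD δ₁ h δ d V α}.ncard : ℝ) ≤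
        C * (T : ℝ) ^ (((k * Sl.Mm m : ℕ) : ℝ) - c) := by
  classical
  obtain ⟨I, hI1, hI2⟩ := exists_free h
  have hI : Free h I := ⟨hI1, hI2⟩
  obtain ⟨G, hG1, hval⟩ := hnr
  have hval := hval G le_rfl I hI
  obtain ⟨δ', c, hc, hbr⟩ := t_br2 r h I hI k m d (δ + 1) D
  obtain ⟨B, hB1, hB⟩ := large_ne hc
  obtain ⟨c₁, hc₁, C₁, hC₁, h₁⟩ := tuplesG hG1 hval m δ' k ((D + 2) ^ δ')
  obtain ⟨C₂, hC₂, h₂⟩ := small_tuples m k B hB1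
  refine ⟨δ', min c₁ 1, lt_min hc₁ one_pos, C₁ + C₂, by positivity, fun V hV hVD T hT => ?_⟩
  have hT1 : (1 : ℝ) ≤ T := by exact_mod_cast hT
  obtain ⟨w, cc, hw⟩ := coords V hV D hVD
  set f : Option (Option (Fin D)) → ℂ := fun o => o.elim 1 fun o => o.elim (2 * Real.pi * Complex.I) w with hf
  set W : Submodule ℚ ℂ := Submodule.span ℚ (Set.range f) with hW
  have hW1 : (1 : ℂ) ∈ W := Submodule.subset_span ⟨none, rfl⟩
  have hWpi : (2 * Real.pi * Complex.I : ℂ) ∈ W := Submodule.subset_span ⟨some none, rfl⟩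
  have hWw : ∀ j, w j ∈ W := fun j => Submodule.subset_span ⟨some (some j), rfl⟩
  have hWf : Module.Finite ℚ W := Module.Finite.span_of_finite ℚ (Set.finite_range _)
  have hWd : finrank ℚ W ≤ D + 2 := by
    refine (finrank_range_le_card _).trans ?_
    simp
  obtain ⟨hb1, hb2⟩ := Om.finrank_pow_le W δ'
  have h3 := h₁ (W ^ δ') hb1 (hb2.trans (Nat.pow_le_pow_left hWd _)) T hT
  have h4 := h₂ T hT
  set B1 := (Fintype.piFinset fun _ : Fin k => Sl.NF m T).filter fun α =>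
        Rel δ' (W ^ δ') (fun p : Fin k × Option I => xc h (α p.1) (p.2.map Subtype.val)) with hB1'
  set B2 := (Fintype.piFinset fun _ : Fin k => Sl.NF m T).filter fun α => ∃ i, ‖α i‖ ≤ B with hB2'
  have hsub : {α : Fin k → ℂ | (∀ i, Sl.AInt m T (α i)) ∧ ExcD δ' h δ d V α} ⊆
      ((B1 ∪ B2 : Finset (Fin k → ℂ)) : Set (Fin k → ℂ)) := by
    rintro α ⟨hα, ℓ, hℓ, Y, hY, hmem, hfib, L, hLf, hLd, P, hPd, hPc, hP0, y, hy, hPy⟩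
    have hαm : α ∈ Fintype.piFinset fun _ : Fin k => Sl.NF m T := by
      rw [Fintype.mem_piFinset]
      exact fun i => Sl.mem_NF.2 (hα i)
    rw [Finset.mem_coe, Finset.mem_union]
    by_cases hs : ∃ i, ‖α i‖ ≤ B
    · exact Or.inr (Finset.mem_filter.2 ⟨hαm, hs⟩)
    · left
      push Not at hs
      refine Finset.mem_filter.2 ⟨hαm, ?_⟩
      obtain ⟨P', hP'd, hP'⟩ := coeff_lift L V w cc hw P hPd hPc
      obtain ⟨Q, hQd, hQ, hQ0⟩ := hbr (fun j => 1 / α j) (ptc h α ℓ) Y L w P' (fun j => by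
        obtain ⟨K, ξ', h5, h6, h7, -⟩ := (hα j).pt hT1
        refine ⟨K, h5, h6, ?_⟩
        rw [one_div, ← h7]
        exact K.inv_mem ξ'.2) (fun j => hB _ (hs j)) hY hmem hfib hLf hLd hP'd (by rw [hP', hP0])
        ⟨y, hy, by rwa [hP']⟩
      refine rel_of_Q W hW1 w hWw _ (fun p : Fin k × Option I => ptc h α ℓ (p.1, p.2.map Subtype.val)) ?_ Q hQd hQ hQ0
      rintro ⟨i, _ | s⟩
      · show ℓ i - Complex.log (α i) ∈ W
        have hα0 : α i ≠ 0 := by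
          rw [← hℓ i]
          exact Complex.exp_ne_zero _
        obtain ⟨n, hn⟩ := Complex.exp_eq_exp_iff_exists_int.1 ((hℓ i).trans (Complex.exp_log hα0).symm)
        have h5 : ℓ i - Complex.log (α i) = (n : ℚ) • (2 * Real.pi * Complex.I : ℂ) := by
          rw [hn, Rat.smul_def]
          push_cast
          ring
        rw [h5]
        exact W.smul_mem _ hWpi
      · show evc (1 / α i) (h s) - evc (1 / α i) (h s) ∈ W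
        rw [sub_self]
        exact W.zero_mem
  refine ⟨(Finset.finite_toSet _).subset hsub, ?_⟩
  have h5 := Set.ncard_le_ncard hsub (Finset.finite_toSet _)
  rw [Set.ncard_coe_finset] at h5
  have h6 : (T : ℝ) ^ (((k * Sl.Mm m : ℕ) : ℝ) - c₁) ≤ (T : ℝ) ^ (((k * Sl.Mm m : ℕ) : ℝ) - min c₁ 1) :=
    Real.rpow_le_rpow_of_exponent_le hT1 (by linarith [min_le_left c₁ 1])
  have h7 : (T : ℝ) ^ (((k * Sl.Mm m : ℕ) : ℝ) - 1) ≤ (T : ℝ) ^ (((k * Sl.Mm m : ℕ) : ℝ) - min c₁ 1) :=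
    Real.rpow_le_rpow_of_exponent_le hT1 (by linarith [min_le_right c₁ 1])
  calc ({α : Fin k → ℂ | (∀ i, Sl.AInt m T (α i)) ∧ ExcD δ' h δ d V α}.ncard : ℝ) ≤ ((B1 ∪ B2).card : ℝ) := by
        exact_mod_cast h5
    _ ≤ B1.card + B2.card := by exact_mod_cast Finset.card_union_le _ _
    _ ≤ C₁ * (T : ℝ) ^ (((k * Sl.Mm m : ℕ) : ℝ) - min c₁ 1) + C₂ * (T : ℝ) ^ (((k * Sl.Mm m : ℕ) : ℝ) - min c₁ 1) :=
        add_le_add (h3.trans (mul_le_mul_of_nonneg_left h6 hC₁)) (h4.trans (mul_le_mul_of_nonneg_left h7 hC₂))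
    _ = _ := by ring

/-- almost all tuples, irreducible sets -/
theorem tupT2s {h : Fin r → ℚ⟦X⟧} (hnr : NRh h) (hsize : SZ h) (k m δ d D : ℕ) :
    ∃ c : ℝ, 0 < c ∧ ∃ C : ℝ, 0 ≤ C ∧ ∀ V : Submodule ℚ ℂ, Module.Finite ℚ V → finrank ℚ V ≤ D → ∀ T : ℕ, 1 ≤ T →
      {α : Fin k → ℂ | (∀ i, Sl.AInt m T (α i)) ∧ ExcT h δ d V α}.Finite ∧
      ({α : Fin k → ℂ | (∀ i, Sl.AInt m T (α i)) ∧ ExcT h δ d V α}.ncard : ℝ) ≤
        C * (T : ℝ) ^ (((k * Sl.Mm m : ℕ) : ℝ) - c) := by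
  obtain ⟨δ₁, c, hc, C, hC, h1⟩ := tupDs hnr hsize k m δ d D
  refine ⟨c, hc, C, hC, fun V hV hVD T hT => ?_⟩
  obtain ⟨h2, h3⟩ := h1 V hV hVD T hT
  have hsub : {α : Fin k → ℂ | (∀ i, Sl.AInt m T (α i)) ∧ ExcT h δ d V α} ⊆
      {α : Fin k → ℂ | (∀ i, Sl.AInt m T (α i)) ∧ ExcD δ₁ h δ d V α} := fun α hα => ⟨hα.1, hα.2.toD δ₁⟩
  exact ⟨h2.subset hsub, le_trans (by exact_mod_cast Set.ncard_le_ncard hsub h2) h3⟩

/-- almost all tuples, connected families -/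
theorem tupCs {h : Fin r → ℚ⟦X⟧} (hnr : NRh h) (hsize : SZ h) (hconn : Conn h) (k m δ d D : ℕ) :
    ∃ c : ℝ, 0 < c ∧ ∃ C : ℝ, 0 ≤ C ∧ ∀ V : Submodule ℚ ℂ, Module.Finite ℚ V → finrank ℚ V ≤ D → ∀ T : ℕ, 1 ≤ T →
      {α : Fin k → ℂ | (∀ i, Sl.AInt m T (α i)) ∧ ExcC h δ d V α}.Finite ∧
      ({α : Fin k → ℂ | (∀ i, Sl.AInt m T (α i)) ∧ ExcC h δ d V α}.ncard : ℝ) ≤
        C * (T : ℝ) ^ (((k * Sl.Mm m : ℕ) : ℝ) - c) := by
  classical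
  obtain ⟨δ₁, c, hc, C, hC, h1⟩ := tupDs hnr hsize k m δ d D
  obtain ⟨cc, hcc, hirr⟩ := conn r h hconn δ₁
  obtain ⟨B₁, -, hB₁⟩ := large_ne hcc
  obtain ⟨B₂, hB₂1, hB₂⟩ := val_memC hsize
  obtain ⟨C₂, hC₂, h₂⟩ := small_tuples m k (max B₁ B₂) (hB₂1.trans (le_max_right _ _))
  refine ⟨min c 1, lt_min hc one_pos, C + C₂, by positivity, fun V hV hVD T hT => ?_⟩
  have hT1 : (1 : ℝ) ≤ T := by exact_mod_cast hT
  obtain ⟨h2, h3⟩ := h1 V hV hVD T hT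
  have h4 := h₂ T hT
  set B2 := (Fintype.piFinset fun _ : Fin k => Sl.NF m T).filter fun α => ∃ i, ‖α i‖ ≤ (max B₁ B₂ : ℕ) with hB2'
  set X := {α : Fin k → ℂ | (∀ i, Sl.AInt m T (α i)) ∧ ExcD δ₁ h δ d V α} with hX
  have hsub : {α : Fin k → ℂ | (∀ i, Sl.AInt m T (α i)) ∧ ExcC h δ d V α} ⊆ X ∪ (B2 : Set (Fin k → ℂ)) := by
    rintro α ⟨hα, ℓ, hℓ, L, hLf, hLd, P, hPd, hPc, hP0, y, hy, hPy⟩
    by_cases hs : ∃ i, ‖α i‖ ≤ (max B₁ B₂ : ℕ)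
    · right
      rw [hB2', Finset.mem_coe, Finset.mem_filter, Fintype.mem_piFinset]
      exact ⟨fun i => Sl.mem_NF.2 (hα i), hs⟩
    · left
      push Not at hs
      have hs1 : ∀ i, (B₁ : ℝ) < ‖α i‖ := fun i => lt_of_le_of_lt (by exact_mod_cast le_max_left B₁ B₂) (hs i)
      have hs2 : ∀ i, (B₂ : ℝ) < ‖α i‖ := fun i => lt_of_le_of_lt (by exact_mod_cast le_max_right B₁ B₂) (hs i)
      refine ⟨hα, ℓ, hℓ, Fib h fun j => 1 / α j, fib_irrD fun j => hirr _ (hB₁ _ (hs1 j)), fun j => hB₂ _ (hs2 j),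
        fun y hy => hy, L, hLf, hLd, P, hPd, hPc, hP0, y, hy, hPy⟩
  have hfin : (X ∪ (B2 : Set (Fin k → ℂ))).Finite := h2.union (Finset.finite_toSet _)
  refine ⟨hfin.subset hsub, ?_⟩
  have h5 := (Set.ncard_le_ncard hsub hfin).trans (Set.ncard_union_le _ _)
  rw [Set.ncard_coe_finset] at h5
  have h6 : (T : ℝ) ^ (((k * Sl.Mm m : ℕ) : ℝ) - c) ≤ (T : ℝ) ^ (((k * Sl.Mm m : ℕ) : ℝ) - min c 1) :=
    Real.rpow_le_rpow_of_exponent_le hT1 (by linarith [min_le_left c 1])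
  have h7 : (T : ℝ) ^ (((k * Sl.Mm m : ℕ) : ℝ) - 1) ≤ (T : ℝ) ^ (((k * Sl.Mm m : ℕ) : ℝ) - min c 1) :=
    Real.rpow_le_rpow_of_exponent_le hT1 (by linarith [min_le_right c 1])
  calc ({α : Fin k → ℂ | (∀ i, Sl.AInt m T (α i)) ∧ ExcC h δ d V α}.ncard : ℝ) ≤ (X.ncard : ℝ) + B2.card := by
        exact_mod_cast h5
    _ ≤ C * (T : ℝ) ^ (((k * Sl.Mm m : ℕ) : ℝ) - min c 1) + C₂ * (T : ℝ) ^ (((k * Sl.Mm m : ℕ) : ℝ) - min c 1) :=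
        add_le_add (h3.trans (mul_le_mul_of_nonneg_left h6 hC)) (h4.trans (mul_le_mul_of_nonneg_left h7 hC₂))
    _ = _ := by ring

/-- windows, the core -/
theorem winDs {h : Fin r → ℚ⟦X⟧} (hnr : NRh h) (hsize : SZ h) :
    ∃ G0 : ℕ, 1 ≤ G0 ∧ ∀ G : ℕ, G0 ≤ G → ∀ (p : ℕ) (Ω : Fin p → ℂ) (q k m d δ A : ℕ), ∃ δ₁ E : ℕ, ∀ (H : ℕ) (ξ : ℂ),
      ((H : ℝ) + 2) ^ E ≤ ‖ξ‖ → Ht m A ξ → ∀ w : Fin q → ℂ, ∃ S : Finset ℕ,
      (S.card : Cardinal) ≤ Algebra.trdeg ℚ (IntermediateField.adjoin ℚ (insert (2 * Real.pi * Complex.I) (Set.range Ω))) +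
        q + 1 ∧
      ∀ u : Fin k → ℕ, Function.Injective u → (∀ j, 1 ≤ u j ∧ u j ≤ H ∧ u j ∉ S) →
      ∀ ℓ : Fin k → ℂ, (∀ j, Complex.exp (ℓ j) = ξ - ((G * u j : ℕ) : ℂ)) →
      ∀ Y : Set (Fin k × Option (Fin r) → ℂ), IrrD δ₁ Y → ptc h (fun j => ξ - ((G * u j : ℕ) : ℂ)) ℓ ∈ Y →
      (∀ y ∈ Y, ∀ j, (fun i => y (j, some i)) ∈ Vc h (1 / (ξ - ((G * u j : ℕ) : ℂ)))) →
      ∀ K : IntermediateField ℚ ℂ, FiniteDimensional ℚ K → finrank ℚ K ≤ d →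
      ∀ P : MvPolynomial ((Fin p ⊕ Fin q) ⊕ Fin k × Option (Fin r)) K, P.totalDegree ≤ δ →
      MvPolynomial.aeval (Sum.elim (Sum.elim Ω w) (ptc h (fun j => ξ - ((G * u j : ℕ) : ℂ)) ℓ)) P = 0 →
      ∀ y ∈ Y, MvPolynomial.aeval (Sum.elim (Sum.elim Ω w) y) P = 0 := by
  classical
  obtain ⟨I, hI1, hI2⟩ := exists_free h
  have hI : Free h I := ⟨hI1, hI2⟩
  obtain ⟨G0, hG01, hval⟩ := hnr
  refine ⟨G0, hG01, fun G hG p Ω q k m d δ A => ?_⟩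
  have hG1 : 1 ≤ G := hG01.trans hG
  have hval := hval G hG I hI
  obtain ⟨δ', c, hc, hbr⟩ := t_br2 r h I hI k m d δ (p + q)
  obtain ⟨B, hB1, hB⟩ := large_ne hc
  set u₀ : Fin p ⊕ Unit → ℂ := Sum.elim Ω fun _ => 2 * Real.pi * Complex.I with hu₀
  obtain ⟨E₁, hE₁⟩ := Sl.windowU (va G h I) (inpA_va hG1 hval) (xa G h I) (fun _ => True) u₀ m 1 1
    (linkU_va h hG1 I m u₀ (Sum.inr ()) rfl) k 1 δ' q (2 * (2 * A + 3))
  refine ⟨δ', E₁ + 2 * G + B + 3, ?_⟩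
  intro H ξ hξ hHt w
  have hH2 : (2 : ℝ) ≤ (H : ℝ) + 2 := by linarith [(Nat.cast_nonneg H : (0 : ℝ) ≤ H)]
  have hH1 : (1 : ℝ) ≤ (H : ℝ) + 2 := by linarith
  have hGR : (1 : ℝ) ≤ G := by exact_mod_cast hG1
  have h2n : ∀ n : ℕ, (n : ℝ) ≤ ((H : ℝ) + 2) ^ n := fun n => by
    refine le_trans ?_ (pow_le_pow_left₀ (by norm_num) hH2 n)
    exact_mod_cast (Nat.lt_two_pow_self (n := n)).le
  have hGB : (G : ℝ) * (H + 2) + B ≤ ‖ξ‖ := by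
    refine le_trans ?_ ((pow_le_pow_right₀ hH1 (by omega : G + 1 + B + 1 ≤ E₁ + 2 * G + B + 3)).trans hξ)
    have h1 := h2n G
    have h2 := h2n B
    have h3 : (1 : ℝ) ≤ ((H : ℝ) + 2) ^ (G + 1) := one_le_pow₀ hH1
    have h4 : (1 : ℝ) ≤ ((H : ℝ) + 2) ^ B := one_le_pow₀ hH1
    have h5 : (G : ℝ) * (H + 2) ≤ ((H : ℝ) + 2) ^ (G + 1) := by
      rw [pow_succ]
      exact mul_le_mul_of_nonneg_right h1 (by linarith)
    have h6 : (B : ℝ) ≤ ((H : ℝ) + 2) ^ B := h2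
    calc (G : ℝ) * (H + 2) + B ≤ ((H : ℝ) + 2) ^ (G + 1) + ((H : ℝ) + 2) ^ B := add_le_add h5 h6
      _ ≤ ((H : ℝ) + 2) ^ (G + 1) * ((H : ℝ) + 2) ^ B * 2 := by nlinarith
      _ ≤ ((H : ℝ) + 2) ^ (G + 1) * ((H : ℝ) + 2) ^ B * ((H : ℝ) + 2) :=
          mul_le_mul_of_nonneg_left hH2 (by positivity)
      _ = _ := by rw [← pow_add, ← pow_succ]
  have hG2 : (G : ℝ) * G ≤ ‖ξ‖ := by
    refine le_trans ?_ ((pow_le_pow_right₀ hH1 (by omega : G + G ≤ E₁ + 2 * G + B + 3)).trans hξ)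
    rw [pow_add]
    exact mul_le_mul (h2n G) (h2n G) (by linarith) (by positivity)
  have hGE : (G : ℝ) * ((H : ℝ) + 2) ^ E₁ ≤ ‖ξ‖ := by
    refine le_trans ?_ ((pow_le_pow_right₀ hH1 (by omega : G + E₁ ≤ E₁ + 2 * G + B + 3)).trans hξ)
    rw [pow_add]
    exact mul_le_mul_of_nonneg_right (h2n G) (by positivity)
  obtain ⟨p₀, hp0, hpd, hpY, hp⟩ := hHt
  obtain ⟨K₁, ξ₁, h1, h2, h3, h4⟩ := pt_root hp0 hpd hpY hp
  have hξ2 : (2 : ℝ) ≤ ‖ξ‖ := by nlinarith [(Nat.cast_nonneg B : (0 : ℝ) ≤ B), (Nat.cast_nonneg H : (0 : ℝ) ≤ H)]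
  have hn : ‖((-ξ₁ / G : K₁) : ℂ)‖ = ‖ξ‖ / G := by
    push_cast
    rw [h3, norm_div, norm_neg, Complex.norm_natCast]
  obtain ⟨S, hS, hwin⟩ := hE₁ H K₁ (-ξ₁ / G) (G * (‖ξ‖ ^ A * (‖ξ‖ ^ A + 2))) h1 h2 (pt_div h4 hG1) (by
    rw [hn, le_div_iff₀ (by linarith), mul_comm]
    exact hGE) (by
    rw [hn]
    have h5 : ‖ξ‖ ≤ (‖ξ‖ / G) ^ 2 := by
      rw [div_pow, le_div_iff₀ (by positivity)]
      nlinarith
    have h6 : (G : ℝ) ≤ ‖ξ‖ := by nlinarith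
    have h7 : (1 : ℝ) ≤ ‖ξ‖ ^ A := one_le_pow₀ (by linarith)
    have h8 : ‖ξ‖ ^ A + 2 ≤ ‖ξ‖ ^ A * ‖ξ‖ ^ 2 := by
      have h9 : (4 : ℝ) ≤ ‖ξ‖ ^ 2 := by nlinarith
      nlinarith
    calc (G : ℝ) * (‖ξ‖ ^ A * (‖ξ‖ ^ A + 2)) ≤ ‖ξ‖ * (‖ξ‖ ^ A * (‖ξ‖ ^ A * ‖ξ‖ ^ 2)) :=
          mul_le_mul h6 (mul_le_mul_of_nonneg_left h8 (by positivity)) (by positivity) (by positivity)
      _ = ‖ξ‖ ^ (2 * A + 3) := by ring
      _ ≤ ((‖ξ‖ / G) ^ 2) ^ (2 * A + 3) := pow_le_pow_left₀ (by positivity) h5 _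
      _ = _ := by rw [← pow_mul]) w
  refine ⟨S, ?_, ?_⟩
  · refine hS.trans (le_of_eq ?_)
    have h5 : Set.range u₀ = insert (2 * Real.pi * Complex.I) (Set.range Ω) := by
      rw [hu₀, Set.Sum.elim_range]
      ext z
      simp
    rw [h5]
    ring
  intro u hu hub ℓ hℓ Y hY hmem hfib K hKf hKd P hPd hP0 y hy
  by_contra hPy
  set α : Fin k → ℂ := fun j => ξ - ((G * u j : ℕ) : ℂ) with hα
  have hαB : ∀ j, (B : ℝ) < ‖α j‖ := by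
    intro j
    have h5 := norm_sub_norm_le ξ ((G * u j : ℕ) : ℂ)
    rw [Complex.norm_natCast] at h5
    have h6 : ((G * u j : ℕ) : ℝ) ≤ G * H := by
      push_cast
      exact mul_le_mul_of_nonneg_left (by exact_mod_cast (hub j).2.1) (by linarith)
    show (B : ℝ) < ‖ξ - ((G * u j : ℕ) : ℂ)‖
    nlinarith
  -- the constants
  set w' : Fin (p + q) → ℂ := fun i => Sum.elim Ω w (finSumFinEquiv.symm i) with hw'
  set ρ : (Fin p ⊕ Fin q) ⊕ Fin k × Option (Fin r) → Fin (p + q) ⊕ Fin k × Option (Fin r) := Sum.map finSumFinEquiv id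
    with hρ
  have hev : ∀ z : Fin k × Option (Fin r) → ℂ, MvPolynomial.aeval (Sum.elim w' z) (MvPolynomial.rename ρ P) =
      MvPolynomial.aeval (Sum.elim (Sum.elim Ω w) z) P := by
    intro z
    rw [MvPolynomial.aeval_rename]
    congr 2
    funext x
    rcases x with i | x
    · show w' (finSumFinEquiv i) = _
      rw [hw']
      simp
    · rfl
  obtain ⟨Q, hQd, hQ, hQ0⟩ := hbr (fun j => 1 / α j) (ptc h α ℓ) Y K w' (MvPolynomial.rename ρ P) (fun j => by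
    refine ⟨K₁, h1, h2, ?_⟩
    have h5 : 1 / α j = ((1 / (ξ₁ - ((G * u j : ℕ) : K₁)) : K₁) : ℂ) := by
      push_cast
      rw [h3, hα]
      push_cast
      rfl
    rw [h5]
    exact SetLike.coe_mem _) (fun j => hB _ (hαB j)) hY hmem hfib hKf hKd
    ((MvPolynomial.totalDegree_rename_le _ _).trans hPd) (by rw [hev, hP0]) ⟨y, hy, by rwa [hev]⟩
  apply hQ0
  -- the window theorem for the free coordinates
  set ρ' : Fin (p + q) ⊕ Fin k × Option I → (Fin q ⊕ (Fin p ⊕ Unit)) ⊕ Fin k × Option I :=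
    Sum.map (fun i => (finSumFinEquiv.symm i).elim (fun a => Sum.inr (Sum.inl a)) Sum.inl) id with hρ'
  have hcc : ∀ i : Fin (p + q), Sum.elim w u₀ ((finSumFinEquiv.symm i).elim (fun a => Sum.inr (Sum.inl a)) Sum.inl) = w' i := by
    intro i
    rw [hw']
    simp only
    rcases finSumFinEquiv.symm i with a | a <;> rfl
  have h9 := hwin u hu (fun i => ⟨(hub i).1, (hub i).2.1, (hub i).2.2, trivial⟩) ⊥ inferInstance
    (by rw [IntermediateField.finrank_bot]) (fun p => ptc h α ℓ (p.1, p.2.map Subtype.val)) ?_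
    (MvPolynomial.rename ρ' (MvPolynomial.map (algebraMap ℚ (⊥ : IntermediateField ℚ ℂ)) Q))
    ((MvPolynomial.totalDegree_rename_le _ _).trans ((tdm _ _).trans hQd)) ?_
  · rw [MvPolynomial.aeval_rename] at h9
    refine Eq.trans ?_ h9
    rw [MvPolynomial.aeval_def, MvPolynomial.aeval_def, MvPolynomial.eval₂_map]
    congr 1
    funext x
    rcases x with i | x
    · show MvPolynomial.C (w' i) = MvPolynomial.C (Sum.elim w u₀ _)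
      rw [hcc]
    · rfl
  · rintro ⟨i, s⟩
    refine ⟨1, one_ne_zero, ?_⟩
    have h10 : -(G : ℂ) * (((-ξ₁ / G : K₁) : ℂ) + (u i : ℂ)) = α i := by
      have hG0 : (G : ℂ) ≠ 0 := by exact_mod_cast (by omega : G ≠ 0)
      rw [hα]
      push_cast
      rw [h3]
      field_simp
      ring
    rcases s with _ | s
    · show ℓ i - (((1 : (⊥ : IntermediateField ℚ ℂ))) : ℂ) * Complex.log (-(G : ℂ) * (((-ξ₁ / G : K₁) : ℂ) + (u i : ℂ))) ∈ _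
      rw [h10, show (((1 : (⊥ : IntermediateField ℚ ℂ))) : ℂ) = 1 from rfl, one_mul]
      have hα0 : α i ≠ 0 := by
        rw [← norm_pos_iff]
        exact lt_of_le_of_lt (Nat.cast_nonneg B) (hαB i)
      obtain ⟨n, hn⟩ := Complex.exp_eq_exp_iff_exists_int.1 ((hℓ i).trans (Complex.exp_log hα0).symm)
      have h5 : ℓ i - Complex.log (α i) = (n : (⊥ : IntermediateField ℚ ℂ)) • (2 * Real.pi * Complex.I : ℂ) := by
        rw [hn, Algebra.smul_def]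
        simp
      rw [h5]
      exact Submodule.smul_mem _ _ (Submodule.subset_span (Set.mem_insert_of_mem _ ⟨Sum.inr (Sum.inr ()), rfl⟩))
    · show evc (1 / α i) (h s) - (((1 : (⊥ : IntermediateField ℚ ℂ))) : ℂ) *
        evc (1 / (-(G : ℂ) * (((-ξ₁ / G : K₁) : ℂ) + (u i : ℂ)))) (h s) ∈ _
      rw [h10, show (((1 : (⊥ : IntermediateField ℚ ℂ))) : ℂ) = 1 from rfl, one_mul, sub_self]
      exact Submodule.zero_mem _
  · rw [MvPolynomial.aeval_rename]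
    refine Eq.trans ?_ hQ
    rw [MvPolynomial.aeval_def, MvPolynomial.aeval_def, MvPolynomial.eval₂_map]
    congr 1
    funext x
    rcases x with i | x
    · show Sum.elim w u₀ _ = w' i
      rw [hcc]
    · rfl

/-- windows, irreducible sets -/
theorem winT2s {h : Fin r → ℚ⟦X⟧} (hnr : NRh h) (hsize : SZ h) :
    ∃ G0 : ℕ, 1 ≤ G0 ∧ ∀ G : ℕ, G0 ≤ G → ∀ (p : ℕ) (Ω : Fin p → ℂ) (q k m d δ A : ℕ), ∃ E : ℕ, ∀ (H : ℕ) (ξ : ℂ),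
      ((H : ℝ) + 2) ^ E ≤ ‖ξ‖ → Ht m A ξ → ∀ w : Fin q → ℂ, ∃ S : Finset ℕ,
      (S.card : Cardinal) ≤ Algebra.trdeg ℚ (IntermediateField.adjoin ℚ (insert (2 * Real.pi * Complex.I) (Set.range Ω))) +
        q + 1 ∧
      ∀ u : Fin k → ℕ, Function.Injective u → (∀ j, 1 ≤ u j ∧ u j ≤ H ∧ u j ∉ S) →
      ∀ ℓ : Fin k → ℂ, (∀ j, Complex.exp (ℓ j) = ξ - ((G * u j : ℕ) : ℂ)) →
      ∀ Y : Set (Fin k × Option (Fin r) → ℂ), Irr Y → ptc h (fun j => ξ - ((G * u j : ℕ) : ℂ)) ℓ ∈ Y →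
      (∀ y ∈ Y, ∀ j, (fun i => y (j, some i)) ∈ Vc h (1 / (ξ - ((G * u j : ℕ) : ℂ)))) →
      ∀ K : IntermediateField ℚ ℂ, FiniteDimensional ℚ K → finrank ℚ K ≤ d →
      ∀ P : MvPolynomial ((Fin p ⊕ Fin q) ⊕ Fin k × Option (Fin r)) K, P.totalDegree ≤ δ →
      MvPolynomial.aeval (Sum.elim (Sum.elim Ω w) (ptc h (fun j => ξ - ((G * u j : ℕ) : ℂ)) ℓ)) P = 0 →
      ∀ y ∈ Y, MvPolynomial.aeval (Sum.elim (Sum.elim Ω w) y) P = 0 := by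
  obtain ⟨G0, hG0, hW⟩ := winDs hnr hsize
  refine ⟨G0, hG0, fun G hG p Ω q k m d δ A => ?_⟩
  obtain ⟨δ₁, E, h1⟩ := hW G hG p Ω q k m d δ A
  refine ⟨E, fun H ξ hξ hHt w => ?_⟩
  obtain ⟨S, hS, h2⟩ := h1 H ξ hξ hHt w
  exact ⟨S, hS, fun u hu hub ℓ hℓ Y hY => h2 u hu hub ℓ hℓ Y (irrD_of_irr hY δ₁)⟩

/-- windows, connected families -/
theorem winCs {h : Fin r → ℚ⟦X⟧} (hnr : NRh h) (hsize : SZ h) (hconn : Conn h) :
    ∃ G0 : ℕ, 1 ≤ G0 ∧ ∀ G : ℕ, G0 ≤ G → ∀ (p : ℕ) (Ω : Fin p → ℂ) (q k m d δ A : ℕ), ∃ E : ℕ, ∀ (H : ℕ) (ξ : ℂ),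
      ((H : ℝ) + 2) ^ E ≤ ‖ξ‖ → Ht m A ξ → ∀ w : Fin q → ℂ, ∃ S : Finset ℕ,
      (S.card : Cardinal) ≤ Algebra.trdeg ℚ (IntermediateField.adjoin ℚ (insert (2 * Real.pi * Complex.I) (Set.range Ω))) +
        q + 1 ∧
      ∀ u : Fin k → ℕ, Function.Injective u → (∀ j, 1 ≤ u j ∧ u j ≤ H ∧ u j ∉ S) →
      ∀ ℓ : Fin k → ℂ, (∀ j, Complex.exp (ℓ j) = ξ - ((G * u j : ℕ) : ℂ)) →
      ∀ K : IntermediateField ℚ ℂ, FiniteDimensional ℚ K → finrank ℚ K ≤ d →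
      ∀ P : MvPolynomial ((Fin p ⊕ Fin q) ⊕ Fin k × Option (Fin r)) K, P.totalDegree ≤ δ →
      MvPolynomial.aeval (Sum.elim (Sum.elim Ω w) (ptc h (fun j => ξ - ((G * u j : ℕ) : ℂ)) ℓ)) P = 0 →
      ∀ y ∈ Fib h (fun j => 1 / (ξ - ((G * u j : ℕ) : ℂ))), MvPolynomial.aeval (Sum.elim (Sum.elim Ω w) y) P = 0 := by
  obtain ⟨G0, hG0, hW⟩ := winDs hnr hsize
  obtain ⟨B₂, hB₂1, hB₂⟩ := val_memC hsize
  refine ⟨G0, hG0, fun G hG p Ω q k m d δ A => ?_⟩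
  obtain ⟨δ₁, E, h1⟩ := hW G hG p Ω q k m d δ A
  obtain ⟨cc, hcc, hirr⟩ := conn r h hconn δ₁
  obtain ⟨B₁, -, hB₁⟩ := large_ne hcc
  have hG1 : 1 ≤ G := hG0.trans hG
  have hGR : (1 : ℝ) ≤ G := by exact_mod_cast hG1
  refine ⟨E + (G + 1 + (B₁ + B₂) + 1), fun H ξ hξ hHt w => ?_⟩
  have hH2 : (2 : ℝ) ≤ (H : ℝ) + 2 := by linarith [(Nat.cast_nonneg H : (0 : ℝ) ≤ H)]
  have hH1 : (1 : ℝ) ≤ (H : ℝ) + 2 := by linarith
  have h2n : ∀ n : ℕ, (n : ℝ) ≤ ((H : ℝ) + 2) ^ n := fun n => by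
    refine le_trans ?_ (pow_le_pow_left₀ (by norm_num) hH2 n)
    exact_mod_cast (Nat.lt_two_pow_self (n := n)).le
  have hGB : (G : ℝ) * (H + 2) + (B₁ + B₂ : ℕ) ≤ ‖ξ‖ := by
    refine le_trans ?_ ((pow_le_pow_right₀ hH1 (by omega : G + 1 + (B₁ + B₂) + 1 ≤ E + (G + 1 + (B₁ + B₂) + 1))).trans hξ)
    have h1 := h2n G
    have h3 : (1 : ℝ) ≤ ((H : ℝ) + 2) ^ (G + 1) := one_le_pow₀ hH1
    have h4 : (1 : ℝ) ≤ ((H : ℝ) + 2) ^ (B₁ + B₂) := one_le_pow₀ hH1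
    have h5 : (G : ℝ) * (H + 2) ≤ ((H : ℝ) + 2) ^ (G + 1) := by
      rw [pow_succ]
      exact mul_le_mul_of_nonneg_right h1 (by linarith)
    have h6 := h2n (B₁ + B₂)
    calc (G : ℝ) * (H + 2) + (B₁ + B₂ : ℕ) ≤ ((H : ℝ) + 2) ^ (G + 1) + ((H : ℝ) + 2) ^ (B₁ + B₂) := add_le_add h5 h6
      _ ≤ ((H : ℝ) + 2) ^ (G + 1) * ((H : ℝ) + 2) ^ (B₁ + B₂) * 2 := by nlinarith
      _ ≤ ((H : ℝ) + 2) ^ (G + 1) * ((H : ℝ) + 2) ^ (B₁ + B₂) * ((H : ℝ) + 2) :=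
          mul_le_mul_of_nonneg_left hH2 (by positivity)
      _ = _ := by rw [← pow_add, ← pow_succ]
  obtain ⟨S, hS, h2⟩ := h1 H ξ ((pow_le_pow_right₀ hH1 (by omega)).trans hξ) hHt w
  refine ⟨S, hS, fun u hu hub ℓ hℓ K hKf hKd P hPd hP0 y hy => ?_⟩
  have hαB : ∀ j, ((B₁ + B₂ : ℕ) : ℝ) < ‖ξ - ((G * u j : ℕ) : ℂ)‖ := by
    intro j
    have h5 := norm_sub_norm_le ξ ((G * u j : ℕ) : ℂ)
    rw [Complex.norm_natCast] at h5
    have h6 : ((G * u j : ℕ) : ℝ) ≤ G * H := by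
      push_cast
      exact mul_le_mul_of_nonneg_left (by exact_mod_cast (hub j).2.1) (by linarith)
    nlinarith
  have hα1 : ∀ j, (B₁ : ℝ) < ‖ξ - ((G * u j : ℕ) : ℂ)‖ := fun j =>
    lt_of_le_of_lt (by exact_mod_cast Nat.le_add_right B₁ B₂) (hαB j)
  have hα2 : ∀ j, (B₂ : ℝ) < ‖ξ - ((G * u j : ℕ) : ℂ)‖ := fun j =>
    lt_of_le_of_lt (by exact_mod_cast Nat.le_add_left B₂ B₁) (hαB j)
  exact h2 u hu hub ℓ hℓ (Fib h fun j => 1 / (ξ - ((G * u j : ℕ) : ℂ))) (fib_irrD fun j => hirr _ (hB₁ _ (hα1 j)))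
    (fun j => hB₂ _ (hα2 j)) (fun y hy => hy) K hKf hKd P hPd hP0 y hy


/-- windows without logarithms, the core -/
theorem winNs {h : Fin r → ℚ⟦X⟧} (hnr : NRh h) (hsize : SZ h) :
    ∃ G0 : ℕ, 1 ≤ G0 ∧ ∀ G : ℕ, G0 ≤ G → ∀ (p : ℕ) (Ω : Fin p → ℂ) (q k m d δ A : ℕ), ∃ δ₁ E : ℕ, ∀ (H : ℕ) (ξ : ℂ),
      ((H : ℝ) + 2) ^ E ≤ ‖ξ‖ → Ht m A ξ → ∀ w : Fin q → ℂ, ∃ S : Finset ℕ,
      (S.card : Cardinal) ≤ Algebra.trdeg ℚ (IntermediateField.adjoin ℚ (Set.range Ω)) + q ∧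
      ∀ u : Fin k → ℕ, Function.Injective u → (∀ j, 1 ≤ u j ∧ u j ≤ H ∧ u j ∉ S) →
      ∀ Y : Set (Fin k × Fin r → ℂ), IrrD δ₁ Y → ptn h (fun j => ξ - ((G * u j : ℕ) : ℂ)) ∈ Y →
      (∀ y ∈ Y, ∀ j, (fun i => y (j, i)) ∈ Vc h (1 / (ξ - ((G * u j : ℕ) : ℂ)))) →
      ∀ K : IntermediateField ℚ ℂ, FiniteDimensional ℚ K → finrank ℚ K ≤ d →
      ∀ P : MvPolynomial ((Fin p ⊕ Fin q) ⊕ Fin k × Fin r) K, P.totalDegree ≤ δ →
      MvPolynomial.aeval (Sum.elim (Sum.elim Ω w) (ptn h (fun j => ξ - ((G * u j : ℕ) : ℂ)))) P = 0 →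
      ∀ y ∈ Y, MvPolynomial.aeval (Sum.elim (Sum.elim Ω w) y) P = 0 := by
  classical
  obtain ⟨I, hI1, hI2⟩ := exists_free h
  have hI : Free h I := ⟨hI1, hI2⟩
  obtain ⟨G0, hG01, hval⟩ := hnr
  refine ⟨G0, hG01, fun G hG p Ω q k m d δ A => ?_⟩
  have hG1 : 1 ≤ G := hG01.trans hG
  have hval := hval G hG I hI
  obtain ⟨δ', c, hc, hbr⟩ := t_brn h I hI k m d δ (p + q)
  obtain ⟨B, hB1, hB⟩ := large_ne hc
  obtain ⟨E₁, hE₁⟩ := windowN _ (inpA_some (inpA_va hG1 hval)) Ω m k 1 δ' q (2 * (2 * A + 3))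
  refine ⟨δ', E₁ + 2 * G + B + 3, ?_⟩
  intro H ξ hξ hHt w
  have hH2 : (2 : ℝ) ≤ (H : ℝ) + 2 := by linarith [(Nat.cast_nonneg H : (0 : ℝ) ≤ H)]
  have hH1 : (1 : ℝ) ≤ (H : ℝ) + 2 := by linarith
  have hGR : (1 : ℝ) ≤ G := by exact_mod_cast hG1
  have h2n : ∀ n : ℕ, (n : ℝ) ≤ ((H : ℝ) + 2) ^ n := fun n => by
    refine le_trans ?_ (pow_le_pow_left₀ (by norm_num) hH2 n)
    exact_mod_cast (Nat.lt_two_pow_self (n := n)).le
  have hGB : (G : ℝ) * (H + 2) + B ≤ ‖ξ‖ := by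
    refine le_trans ?_ ((pow_le_pow_right₀ hH1 (by omega : G + 1 + B + 1 ≤ E₁ + 2 * G + B + 3)).trans hξ)
    have h1 := h2n G
    have h2 := h2n B
    have h3 : (1 : ℝ) ≤ ((H : ℝ) + 2) ^ (G + 1) := one_le_pow₀ hH1
    have h4 : (1 : ℝ) ≤ ((H : ℝ) + 2) ^ B := one_le_pow₀ hH1
    have h5 : (G : ℝ) * (H + 2) ≤ ((H : ℝ) + 2) ^ (G + 1) := by
      rw [pow_succ]
      exact mul_le_mul_of_nonneg_right h1 (by linarith)
    have h6 : (B : ℝ) ≤ ((H : ℝ) + 2) ^ B := h2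
    calc (G : ℝ) * (H + 2) + B ≤ ((H : ℝ) + 2) ^ (G + 1) + ((H : ℝ) + 2) ^ B := add_le_add h5 h6
      _ ≤ ((H : ℝ) + 2) ^ (G + 1) * ((H : ℝ) + 2) ^ B * 2 := by nlinarith
      _ ≤ ((H : ℝ) + 2) ^ (G + 1) * ((H : ℝ) + 2) ^ B * ((H : ℝ) + 2) :=
          mul_le_mul_of_nonneg_left hH2 (by positivity)
      _ = _ := by rw [← pow_add, ← pow_succ]
  have hG2 : (G : ℝ) * G ≤ ‖ξ‖ := by
    refine le_trans ?_ ((pow_le_pow_right₀ hH1 (by omega : G + G ≤ E₁ + 2 * G + B + 3)).trans hξ)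
    rw [pow_add]
    exact mul_le_mul (h2n G) (h2n G) (by linarith) (by positivity)
  have hGE : (G : ℝ) * ((H : ℝ) + 2) ^ E₁ ≤ ‖ξ‖ := by
    refine le_trans ?_ ((pow_le_pow_right₀ hH1 (by omega : G + E₁ ≤ E₁ + 2 * G + B + 3)).trans hξ)
    rw [pow_add]
    exact mul_le_mul_of_nonneg_right (h2n G) (by positivity)
  obtain ⟨p₀, hp0, hpd, hpY, hp⟩ := hHt
  obtain ⟨K₁, ξ₁, h1, h2, h3, h4⟩ := pt_root hp0 hpd hpY hp
  have hξ2 : (2 : ℝ) ≤ ‖ξ‖ := by nlinarith [(Nat.cast_nonneg B : (0 : ℝ) ≤ B), (Nat.cast_nonneg H : (0 : ℝ) ≤ H)]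
  have hn : ‖((-ξ₁ / G : K₁) : ℂ)‖ = ‖ξ‖ / G := by
    push_cast
    rw [h3, norm_div, norm_neg, Complex.norm_natCast]
  obtain ⟨S, hS, hwin⟩ := hE₁ H K₁ (-ξ₁ / G) (G * (‖ξ‖ ^ A * (‖ξ‖ ^ A + 2))) h1 h2 (pt_div h4 hG1) (by
    rw [hn, le_div_iff₀ (by linarith), mul_comm]
    exact hGE) (by
    rw [hn]
    have h5 : ‖ξ‖ ≤ (‖ξ‖ / G) ^ 2 := by
      rw [div_pow, le_div_iff₀ (by positivity)]
      nlinarith
    have h6 : (G : ℝ) ≤ ‖ξ‖ := by nlinarith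
    have h7 : (1 : ℝ) ≤ ‖ξ‖ ^ A := one_le_pow₀ (by linarith)
    have h8 : ‖ξ‖ ^ A + 2 ≤ ‖ξ‖ ^ A * ‖ξ‖ ^ 2 := by
      have h9 : (4 : ℝ) ≤ ‖ξ‖ ^ 2 := by nlinarith
      nlinarith
    calc (G : ℝ) * (‖ξ‖ ^ A * (‖ξ‖ ^ A + 2)) ≤ ‖ξ‖ * (‖ξ‖ ^ A * (‖ξ‖ ^ A * ‖ξ‖ ^ 2)) :=
          mul_le_mul h6 (mul_le_mul_of_nonneg_left h8 (by positivity)) (by positivity) (by positivity)
      _ = ‖ξ‖ ^ (2 * A + 3) := by ring
      _ ≤ ((‖ξ‖ / G) ^ 2) ^ (2 * A + 3) := pow_le_pow_left₀ (by positivity) h5 _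
      _ = _ := by rw [← pow_mul]) w
  refine ⟨S, hS.trans (le_of_eq (add_comm _ _)), ?_⟩
  intro u hu hub Y hY hmem hfib K hKf hKd P hPd hP0 y hy
  by_contra hPy
  set α : Fin k → ℂ := fun j => ξ - ((G * u j : ℕ) : ℂ) with hα
  have hαB : ∀ j, (B : ℝ) < ‖α j‖ := by
    intro j
    have h5 := norm_sub_norm_le ξ ((G * u j : ℕ) : ℂ)
    rw [Complex.norm_natCast] at h5
    have h6 : ((G * u j : ℕ) : ℝ) ≤ G * H := by
      push_cast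
      exact mul_le_mul_of_nonneg_left (by exact_mod_cast (hub j).2.1) (by linarith)
    show (B : ℝ) < ‖ξ - ((G * u j : ℕ) : ℂ)‖
    nlinarith
  -- the constants
  set w' : Fin (p + q) → ℂ := fun i => Sum.elim Ω w (finSumFinEquiv.symm i) with hw'
  set ρ : (Fin p ⊕ Fin q) ⊕ Fin k × Fin r → Fin (p + q) ⊕ Fin k × Fin r := Sum.map finSumFinEquiv id
    with hρ
  have hev : ∀ z : Fin k × Fin r → ℂ, MvPolynomial.aeval (Sum.elim w' z) (MvPolynomial.rename ρ P) =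
      MvPolynomial.aeval (Sum.elim (Sum.elim Ω w) z) P := by
    intro z
    rw [MvPolynomial.aeval_rename]
    congr 2
    funext x
    rcases x with i | x
    · show w' (finSumFinEquiv i) = _
      rw [hw']
      simp
    · rfl
  obtain ⟨Q, hQd, hQ, hQ0⟩ := hbr (fun j => 1 / α j) (ptn h α) Y K w' (MvPolynomial.rename ρ P) (fun j => by
    refine ⟨K₁, h1, h2, ?_⟩
    have h5 : 1 / α j = ((1 / (ξ₁ - ((G * u j : ℕ) : K₁)) : K₁) : ℂ) := by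
      push_cast
      rw [h3, hα]
      push_cast
      rfl
    rw [h5]
    exact SetLike.coe_mem _) (fun j => hB _ (hαB j)) hY hmem hfib hKf hKd
    ((MvPolynomial.totalDegree_rename_le _ _).trans hPd) (by rw [hev, hP0]) ⟨y, hy, by rwa [hev]⟩
  apply hQ0
  -- the window theorem for the free coordinates
  set ρ' : Fin (p + q) ⊕ Fin k × I → (Fin q ⊕ Fin p) ⊕ Fin k × I :=
    Sum.map (fun i => (finSumFinEquiv.symm i).elim (fun a => Sum.inr a) Sum.inl) id with hρ'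
  have hcc : ∀ i : Fin (p + q), Sum.elim w Ω ((finSumFinEquiv.symm i).elim (fun a => Sum.inr a) Sum.inl) = w' i := by
    intro i
    rw [hw']
    simp only
    rcases finSumFinEquiv.symm i with a | a <;> rfl
  have h9 := hwin u hu hub ⊥ inferInstance
    (by rw [IntermediateField.finrank_bot])
    (MvPolynomial.rename ρ' (MvPolynomial.map (algebraMap ℚ (⊥ : IntermediateField ℚ ℂ)) Q))
    ((MvPolynomial.totalDegree_rename_le _ _).trans ((tdm _ _).trans hQd)) ?_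
  · rw [MvPolynomial.aeval_rename] at h9
    refine Eq.trans ?_ h9
    rw [MvPolynomial.aeval_def, MvPolynomial.aeval_def, MvPolynomial.eval₂_map]
    congr 1
    funext x
    rcases x with i | x
    · show MvPolynomial.C (w' i) = MvPolynomial.C (Sum.elim w Ω _)
      rw [hcc]
    · rfl
  · rw [MvPolynomial.aeval_rename]
    refine Eq.trans ?_ hQ
    rw [MvPolynomial.aeval_def, MvPolynomial.aeval_def, MvPolynomial.eval₂_map]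
    congr 1
    funext x
    rcases x with i | ⟨i, s⟩
    · show Sum.elim w Ω _ = w' i
      rw [hcc]
    · show evc (1 / (-(G : ℂ) * ((-ξ₁ / G : K₁) : ℂ) - ((G * u i : ℕ) : ℂ))) (h s) = evc (1 / α i) (h s)
      have h10 : -(G : ℂ) * ((-ξ₁ / G : K₁) : ℂ) - ((G * u i : ℕ) : ℂ) = α i := by
        have hG0 : (G : ℂ) ≠ 0 := by exact_mod_cast (by omega : G ≠ 0)
        rw [hα]
        push_cast
        rw [h3]
        field_simp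
      rw [h10]


end Pool.Agent.Y916.Af
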