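import Pool.Agent.Y916.Af.Prod

/-!
# Families of G-functions at algebraic points: almost all tuples, connected families
-/

set_option autoImplicit false

open PowerSeries Module

namespace Pool.Agent.Y916.Af

open Pool.Agent.Y113 Pool.Agent.Y916.Al Pool.Agent.Y916.AW Pool.Agent.Y118.UL

variable {r : ℕ}

/-- the values satisfy the relations -/
theorem val_memC {h : Fin r → ℚ⟦X⟧} (hsize : ∃ C : ℝ, ∀ i m, |((coeff m (h i) : ℚ) : ℝ)| ≤ C ^ (m + 1)) :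
    ∃ B : ℕ, 1 ≤ B ∧ ∀ α : ℂ, (B : ℝ) < ‖α‖ → (fun i => evc (1 / α) (h i)) ∈ Vc h (1 / α) := by
  obtain ⟨C, hC⟩ := hsize
  obtain ⟨B, hB⟩ := exists_nat_ge |C|
  refine ⟨B + 1, by omega, fun α hα => ?_⟩
  push_cast at hα
  have hα0 : 0 < ‖α‖ := by
    have : (0 : ℝ) ≤ B := Nat.cast_nonneg B
    linarith
  have hcv : ∀ j, Cvc (1 / α) (h j) := by
    intro j
    have hq0 : 0 ≤ |C| / ‖α‖ := by positivity
    have hq1 : |C| / ‖α‖ < 1 := by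
      rw [div_lt_one hα0]
      linarith
    refine Summable.of_nonneg_of_le (fun m => by positivity) (fun m => ?_)
      ((summable_geometric_of_lt_one hq0 hq1).mul_left |C|)
    have h1 : ‖((coeff m (h j) : ℚ) : ℂ)‖ ≤ |C| ^ (m + 1) := by
      have h2 : ‖((coeff m (h j) : ℚ) : ℂ)‖ = |((coeff m (h j) : ℚ) : ℝ)| := by
        rw [← Complex.ofReal_ratCast, Complex.norm_real, Real.norm_eq_abs]
      rw [h2]
      refine (hC j m).trans ?_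
      rw [← abs_pow]
      exact le_abs_self _
    rw [norm_div, norm_one]
    calc ‖((coeff m (h j) : ℚ) : ℂ)‖ * (1 / ‖α‖) ^ m ≤ |C| ^ (m + 1) * (1 / ‖α‖) ^ m :=
          mul_le_mul_of_nonneg_right h1 (by positivity)
      _ = |C| * (|C| / ‖α‖) ^ m := by
          rw [pow_succ', div_pow, div_pow, one_pow]
          ring
  have key : ∀ R : MvPolynomial (Fin r) (Polynomial ℚ), Cvc (1 / α) (MvPolynomial.aeval h R) ∧
      evc (1 / α) (MvPolynomial.aeval h R) = MvPolynomial.eval₂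
        (Polynomial.aeval (1 / α) : Polynomial ℚ →ₐ[ℚ] ℂ).toRingHom (fun i => evc (1 / α) (h i)) R := by
    intro R
    induction R using MvPolynomial.induction_on with
    | C c =>
      rw [MvPolynomial.aeval_C, PowerSeries.algebraMap_apply', MvPolynomial.eval₂_C]
      have h1 : (algebraMap ℚ ℚ) = RingHom.id ℚ := rfl
      rw [h1, PowerSeries.map_id, id]
      exact ⟨Cvc.coe _, ev_coe _⟩
    | add p q hp hq =>
      rw [map_add, MvPolynomial.eval₂_add]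
      exact ⟨hp.1.add hq.1, by rw [hp.1.ev_add hq.1, ← hp.2, ← hq.2]⟩
    | mul_X p j hp =>
      rw [map_mul, MvPolynomial.eval₂_mul, MvPolynomial.aeval_X, MvPolynomial.eval₂_X]
      exact ⟨hp.1.mul (hcv j), by rw [hp.1.ev_mul (hcv j), ← hp.2]⟩
  intro R hR
  have h1 := (key R).2
  rw [hR, Al.ev_zero] at h1
  exact h1.symm

/-- the exceptional tuples, irreducible sets in bounded degree -/
def ExcD (δ₁ : ℕ) (h : Fin r → ℚ⟦X⟧) (δ d : ℕ) (V : Submodule ℚ ℂ) {k : ℕ} (α : Fin k → ℂ) : Prop :=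
  ∃ ℓ : Fin k → ℂ, (∀ i, Complex.exp (ℓ i) = α i) ∧ ∃ Y : Set (Fin k × Option (Fin r) → ℂ), IrrD δ₁ Y ∧ ptc h α ℓ ∈ Y ∧
    (∀ y ∈ Y, ∀ j, (fun i => y (j, some i)) ∈ Vc h (1 / α j)) ∧
    ∃ L : IntermediateField ℚ ℂ, FiniteDimensional ℚ L ∧ finrank ℚ L ≤ d ∧
    ∃ P : MvPolynomial (Fin k × Option (Fin r)) ℂ, P.totalDegree ≤ δ ∧
      (∀ s, P.coeff s ∈ Submodule.span L (V : Set ℂ)) ∧
      MvPolynomial.aeval (ptc h α ℓ) P = 0 ∧ ∃ y ∈ Y, MvPolynomial.aeval y P ≠ 0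

/-- the exceptional tuples, connected families -/
def ExcC (h : Fin r → ℚ⟦X⟧) (δ d : ℕ) (V : Submodule ℚ ℂ) {k : ℕ} (α : Fin k → ℂ) : Prop :=
  ∃ ℓ : Fin k → ℂ, (∀ i, Complex.exp (ℓ i) = α i) ∧
    ∃ L : IntermediateField ℚ ℂ, FiniteDimensional ℚ L ∧ finrank ℚ L ≤ d ∧
    ∃ P : MvPolynomial (Fin k × Option (Fin r)) ℂ, P.totalDegree ≤ δ ∧
      (∀ s, P.coeff s ∈ Submodule.span L (V : Set ℂ)) ∧
      MvPolynomial.aeval (ptc h α ℓ) P = 0 ∧ ∃ y ∈ Fib h fun j => 1 / α j, MvPolynomial.aeval y P ≠ 0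

theorem ExcT.toD {h : Fin r → ℚ⟦X⟧} {δ d : ℕ} {V : Submodule ℚ ℂ} {k : ℕ} {α : Fin k → ℂ} (hα : ExcT h δ d V α) (δ₁ : ℕ) :
    ExcD δ₁ h δ d V α := by
  obtain ⟨ℓ, h1, Y, h2, h3⟩ := hα
  exact ⟨ℓ, h1, Y, irrD_of_irr h2 δ₁, h3⟩

/-- almost all tuples, the core -/
theorem tupD (hnr : S_nr) (hbr : S_br2) {T₀ : Polynomial ℤ} {A : Fin r → Fin r → Polynomial ℤ} {h : Fin r → ℚ⟦X⟧}
    (hGF : GFam T₀ A h) (k m δ d D : ℕ) :
    ∃ δ₁ : ℕ, ∃ c : ℝ, 0 < c ∧ ∃ C : ℝ, 0 ≤ C ∧ ∀ V : Submodule ℚ ℂ, Module.Finite ℚ V → finrank ℚ V ≤ D →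
      ∀ T : ℕ, 1 ≤ T → {α : Fin k → ℂ | (∀ i, Sl.AInt m T (α i)) ∧ ExcD δ₁ h δ d V α}.Finite ∧
      ({α : Fin k → ℂ | (∀ i, Sl.AInt m T (α i)) ∧ ExcD δ₁ h δ d V α}.ncard : ℝ) ≤
        C * (T : ℝ) ^ (((k * Sl.Mm m : ℕ) : ℝ) - c) := by
  classical
  obtain ⟨I, hI1, hI2⟩ := exists_free h
  have hI : Free h I := ⟨hI1, hI2⟩
  obtain ⟨G, hG1, hval⟩ := hnr r T₀ A h hGF
  have hval := hval G le_rfl I hI
  obtain ⟨δ', c, hc, hbr⟩ := hbr r h I hI k m d (δ + 1) D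
  obtain ⟨B, hB1, hB⟩ := large_ne hc
  obtain ⟨c₁, hc₁, C₁, hC₁, h₁⟩ := tuplesG hG1 hval m δ' k ((D + 2) ^ δ')
  obtain ⟨C₂, hC₂, h₂⟩ := small_tuples m k B hB1
  refine ⟨δ', min c₁ 1, lt_min hc₁ one_pos, C₁ + C₂, by positivity, fun V hV hVD T hT => ?_⟩
  have hT1 : (1 : ℝ) ≤ T := by exact_mod_cast hT
  obtain ⟨w, cc, hw⟩ := coords V hV D hVD
  set f : Option (Option (Fin D)) → ℂ := fun o => o.elim 1 fun o => o.elim (2 * Real.pi * Complex.I) w with hf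
  set W : Submodule ℚ ℂ := Submodule.span ℚ (Set.range f) with hW
  have hW1 : (1 : ℂ) ∈ W := Submodule.subset_span ⟨none, rfl⟩
  have hWpi : (2 * Real.pi * Complex.I : ℂ) ∈ W := Submodule.subset_span ⟨some none, rfl⟩
  have hWw : ∀ j, w j ∈ W := fun j => Submodule.subset_span ⟨some (some j), rfl⟩
  have hWf : Module.Finite ℚ W := Module.Finite.span_of_finite ℚ (Set.finite_range _)
  have hWd : finrank ℚ W ≤ D + 2 := by
    refine (finrank_range_le_card _).trans ?_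
    simp
  obtain ⟨hb1, hb2⟩ := Om.finrank_pow_le W δ'
  have h3 := h₁ (W ^ δ') hb1 (hb2.trans (Nat.pow_le_pow_left hWd _)) T hT
  have h4 := h₂ T hT
  set B1 := (Fintype.piFinset fun _ : Fin k => Sl.NF m T).filter fun α =>
        Rel δ' (W ^ δ') (fun p : Fin k × Option I => xc h (α p.1) (p.2.map Subtype.val)) with hB1'
  set B2 := (Fintype.piFinset fun _ : Fin k => Sl.NF m T).filter fun α => ∃ i, ‖α i‖ ≤ B with hB2'
  have hsub : {α : Fin k → ℂ | (∀ i, Sl.AInt m T (α i)) ∧ ExcD δ' h δ d V α} ⊆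
      ((B1 ∪ B2 : Finset (Fin k → ℂ)) : Set (Fin k → ℂ)) := by
    rintro α ⟨hα, ℓ, hℓ, Y, hY, hmem, hfib, L, hLf, hLd, P, hPd, hPc, hP0, y, hy, hPy⟩
    have hαm : α ∈ Fintype.piFinset fun _ : Fin k => Sl.NF m T := by
      rw [Fintype.mem_piFinset]
      exact fun i => Sl.mem_NF.2 (hα i)
    rw [Finset.mem_coe, Finset.mem_union]
    by_cases hs : ∃ i, ‖α i‖ ≤ B
    · exact Or.inr (Finset.mem_filter.2 ⟨hαm, hs⟩)
    · left
      push Not at hs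
      refine Finset.mem_filter.2 ⟨hαm, ?_⟩
      obtain ⟨P', hP'd, hP'⟩ := coeff_lift L V w cc hw P hPd hPc
      obtain ⟨Q, hQd, hQ, hQ0⟩ := hbr (fun j => 1 / α j) (ptc h α ℓ) Y L w P' (fun j => by
        obtain ⟨K, ξ', h5, h6, h7, -⟩ := (hα j).pt hT1
        refine ⟨K, h5, h6, ?_⟩
        rw [one_div, ← h7]
        exact K.inv_mem ξ'.2) (fun j => hB _ (hs j)) hY hmem hfib hLf hLd hP'd (by rw [hP', hP0])
        ⟨y, hy, by rwa [hP']⟩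
      refine rel_of_Q W hW1 w hWw _ (fun p : Fin k × Option I => ptc h α ℓ (p.1, p.2.map Subtype.val)) ?_ Q hQd hQ hQ0
      rintro ⟨i, _ | s⟩
      · show ℓ i - Complex.log (α i) ∈ W
        have hα0 : α i ≠ 0 := by
          rw [← hℓ i]
          exact Complex.exp_ne_zero _
        obtain ⟨n, hn⟩ := Complex.exp_eq_exp_iff_exists_int.1 ((hℓ i).trans (Complex.exp_log hα0).symm)
        have h5 : ℓ i - Complex.log (α i) = (n : ℚ) • (2 * Real.pi * Complex.I : ℂ) := by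
          rw [hn, Rat.smul_def]
          push_cast
          ring
        rw [h5]
        exact W.smul_mem _ hWpi
      · show evc (1 / α i) (h s) - evc (1 / α i) (h s) ∈ W
        rw [sub_self]
        exact W.zero_mem
  refine ⟨(Finset.finite_toSet _).subset hsub, ?_⟩
  have h5 := Set.ncard_le_ncard hsub (Finset.finite_toSet _)
  rw [Set.ncard_coe_finset] at h5
  have h6 : (T : ℝ) ^ (((k * Sl.Mm m : ℕ) : ℝ) - c₁) ≤ (T : ℝ) ^ (((k * Sl.Mm m : ℕ) : ℝ) - min c₁ 1) :=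
    Real.rpow_le_rpow_of_exponent_le hT1 (by linarith [min_le_left c₁ 1])
  have h7 : (T : ℝ) ^ (((k * Sl.Mm m : ℕ) : ℝ) - 1) ≤ (T : ℝ) ^ (((k * Sl.Mm m : ℕ) : ℝ) - min c₁ 1) :=
    Real.rpow_le_rpow_of_exponent_le hT1 (by linarith [min_le_right c₁ 1])
  calc ({α : Fin k → ℂ | (∀ i, Sl.AInt m T (α i)) ∧ ExcD δ' h δ d V α}.ncard : ℝ) ≤ ((B1 ∪ B2).card : ℝ) := by
        exact_mod_cast h5
    _ ≤ B1.card + B2.card := by exact_mod_cast Finset.card_union_le _ _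
    _ ≤ C₁ * (T : ℝ) ^ (((k * Sl.Mm m : ℕ) : ℝ) - min c₁ 1) + C₂ * (T : ℝ) ^ (((k * Sl.Mm m : ℕ) : ℝ) - min c₁ 1) :=
        add_le_add (h3.trans (mul_le_mul_of_nonneg_left h6 hC₁)) (h4.trans (mul_le_mul_of_nonneg_left h7 hC₂))
    _ = _ := by ring

/-- almost all tuples, irreducible sets -/
theorem tupT2 (hnr : S_nr) (hbr : S_br2) {T₀ : Polynomial ℤ} {A : Fin r → Fin r → Polynomial ℤ} {h : Fin r → ℚ⟦X⟧}
    (hGF : GFam T₀ A h) (k m δ d D : ℕ) :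
    ∃ c : ℝ, 0 < c ∧ ∃ C : ℝ, 0 ≤ C ∧ ∀ V : Submodule ℚ ℂ, Module.Finite ℚ V → finrank ℚ V ≤ D → ∀ T : ℕ, 1 ≤ T →
      {α : Fin k → ℂ | (∀ i, Sl.AInt m T (α i)) ∧ ExcT h δ d V α}.Finite ∧
      ({α : Fin k → ℂ | (∀ i, Sl.AInt m T (α i)) ∧ ExcT h δ d V α}.ncard : ℝ) ≤
        C * (T : ℝ) ^ (((k * Sl.Mm m : ℕ) : ℝ) - c) := by
  obtain ⟨δ₁, c, hc, C, hC, h1⟩ := tupD hnr hbr hGF k m δ d D
  refine ⟨c, hc, C, hC, fun V hV hVD T hT => ?_⟩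
  obtain ⟨h2, h3⟩ := h1 V hV hVD T hT
  have hsub : {α : Fin k → ℂ | (∀ i, Sl.AInt m T (α i)) ∧ ExcT h δ d V α} ⊆
      {α : Fin k → ℂ | (∀ i, Sl.AInt m T (α i)) ∧ ExcD δ₁ h δ d V α} := fun α hα => ⟨hα.1, hα.2.toD δ₁⟩
  exact ⟨h2.subset hsub, le_trans (by exact_mod_cast Set.ncard_le_ncard hsub h2) h3⟩

/-- almost all tuples, connected families -/
theorem tupC (hnr : S_nr) (hbr : S_br2) (hcn : S_conn) {T₀ : Polynomial ℤ} {A : Fin r → Fin r → Polynomial ℤ}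
    {h : Fin r → ℚ⟦X⟧} (hGF : GFam T₀ A h) (hconn : Conn h) (k m δ d D : ℕ) :
    ∃ c : ℝ, 0 < c ∧ ∃ C : ℝ, 0 ≤ C ∧ ∀ V : Submodule ℚ ℂ, Module.Finite ℚ V → finrank ℚ V ≤ D → ∀ T : ℕ, 1 ≤ T →
      {α : Fin k → ℂ | (∀ i, Sl.AInt m T (α i)) ∧ ExcC h δ d V α}.Finite ∧
      ({α : Fin k → ℂ | (∀ i, Sl.AInt m T (α i)) ∧ ExcC h δ d V α}.ncard : ℝ) ≤
        C * (T : ℝ) ^ (((k * Sl.Mm m : ℕ) : ℝ) - c) := by
  classical
  obtain ⟨δ₁, c, hc, C, hC, h1⟩ := tupD hnr hbr hGF k m δ d D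
  obtain ⟨cc, hcc, hirr⟩ := hcn r h hconn δ₁
  obtain ⟨B₁, -, hB₁⟩ := large_ne hcc
  obtain ⟨B₂, hB₂1, hB₂⟩ := val_memC hGF.hsize
  obtain ⟨C₂, hC₂, h₂⟩ := small_tuples m k (max B₁ B₂) (hB₂1.trans (le_max_right _ _))
  refine ⟨min c 1, lt_min hc one_pos, C + C₂, by positivity, fun V hV hVD T hT => ?_⟩
  have hT1 : (1 : ℝ) ≤ T := by exact_mod_cast hT
  obtain ⟨h2, h3⟩ := h1 V hV hVD T hT
  have h4 := h₂ T hT
  set B2 := (Fintype.piFinset fun _ : Fin k => Sl.NF m T).filter fun α => ∃ i, ‖α i‖ ≤ (max B₁ B₂ : ℕ) with hB2'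
  set X := {α : Fin k → ℂ | (∀ i, Sl.AInt m T (α i)) ∧ ExcD δ₁ h δ d V α} with hX
  have hsub : {α : Fin k → ℂ | (∀ i, Sl.AInt m T (α i)) ∧ ExcC h δ d V α} ⊆ X ∪ (B2 : Set (Fin k → ℂ)) := by
    rintro α ⟨hα, ℓ, hℓ, L, hLf, hLd, P, hPd, hPc, hP0, y, hy, hPy⟩
    by_cases hs : ∃ i, ‖α i‖ ≤ (max B₁ B₂ : ℕ)
    · right
      rw [hB2', Finset.mem_coe, Finset.mem_filter, Fintype.mem_piFinset]
      exact ⟨fun i => Sl.mem_NF.2 (hα i), hs⟩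
    · left
      push Not at hs
      have hs1 : ∀ i, (B₁ : ℝ) < ‖α i‖ := fun i => lt_of_le_of_lt (by exact_mod_cast le_max_left B₁ B₂) (hs i)
      have hs2 : ∀ i, (B₂ : ℝ) < ‖α i‖ := fun i => lt_of_le_of_lt (by exact_mod_cast le_max_right B₁ B₂) (hs i)
      refine ⟨hα, ℓ, hℓ, Fib h fun j => 1 / α j, fib_irrD fun j => hirr _ (hB₁ _ (hs1 j)), fun j => hB₂ _ (hs2 j),
        fun y hy => hy, L, hLf, hLd, P, hPd, hPc, hP0, y, hy, hPy⟩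
  have hfin : (X ∪ (B2 : Set (Fin k → ℂ))).Finite := h2.union (Finset.finite_toSet _)
  refine ⟨hfin.subset hsub, ?_⟩
  have h5 := (Set.ncard_le_ncard hsub hfin).trans (Set.ncard_union_le _ _)
  rw [Set.ncard_coe_finset] at h5
  have h6 : (T : ℝ) ^ (((k * Sl.Mm m : ℕ) : ℝ) - c) ≤ (T : ℝ) ^ (((k * Sl.Mm m : ℕ) : ℝ) - min c 1) :=
    Real.rpow_le_rpow_of_exponent_le hT1 (by linarith [min_le_left c 1])
  have h7 : (T : ℝ) ^ (((k * Sl.Mm m : ℕ) : ℝ) - 1) ≤ (T : ℝ) ^ (((k * Sl.Mm m : ℕ) : ℝ) - min c 1) :=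
    Real.rpow_le_rpow_of_exponent_le hT1 (by linarith [min_le_right c 1])
  calc ({α : Fin k → ℂ | (∀ i, Sl.AInt m T (α i)) ∧ ExcC h δ d V α}.ncard : ℝ) ≤ (X.ncard : ℝ) + B2.card := by
        exact_mod_cast h5
    _ ≤ C * (T : ℝ) ^ (((k * Sl.Mm m : ℕ) : ℝ) - min c 1) + C₂ * (T : ℝ) ^ (((k * Sl.Mm m : ℕ) : ℝ) - min c 1) :=
        add_le_add (h3.trans (mul_le_mul_of_nonneg_left h6 hC)) (h4.trans (mul_le_mul_of_nonneg_left h7 hC₂))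
    _ = _ := by ring

end Pool.Agent.Y916.Af
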