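import Pool.Agent.Y118.UL.Rel
import Pool.Agent.Y916.Sl.Cnt

/-!
# Families of G-functions at algebraic points: definitions and statements of the parts

`K` is a number field in `ℂ`, `ξ ∈ K`. The windows are `ξ - G g`, `1 ≤ g ≤ H`.
-/

set_option autoImplicit false

open PowerSeries Module Filter AlgebraicIndependent

namespace Pool.Agent.Y916.Af

open Pool.Agent.Y113 Pool.Agent.Y916.Al Pool.Agent.Y120.GF Pool.Agent.Y120.GH Pool.Agent.Y118.UL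

/-- the hypotheses on the family -/
structure GFam {r : ℕ} (T : Polynomial ℤ) (A : Fin r → Fin r → Polynomial ℤ) (h : Fin r → ℚ⟦X⟧) : Prop where
  hT : T ≠ 0
  hode : ∀ i, ps T * d⁄dX ℚ (h i) = ∑ j, ps (A i j) * h j
  hsize : ∃ C : ℝ, ∀ i m, |((coeff m (h i) : ℚ) : ℝ)| ≤ C ^ (m + 1)
  hden : ∃ C : ℝ, ∀ m, ∃ d : ℕ, 0 < d ∧ (d : ℝ) ≤ C ^ (m + 1) ∧ ∀ i, ∀ j ≤ m, ∃ a : ℤ, (d : ℚ) * coeff j (h i) = a
  hgal : ∃ C : ℝ, ∀ m, ∃ d : ℕ, 0 < d ∧ (d : ℝ) ≤ C ^ (m + 1) ∧ ∀ s ≤ m, ∀ i j, ∃ H : Polynomial ℤ,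
    (d : Polynomial ℤ) * itm T A s i j = (s.factorial : Polynomial ℤ) * H
  hqu : QU0 T A

/-- `I` is a maximal algebraically independent subfamily of `h` over `ℚ[x]` -/
def Free {r : ℕ} (h : Fin r → ℚ⟦X⟧) (I : Finset (Fin r)) : Prop :=
  AlgebraicIndependent (Polynomial ℚ) (fun i : I => h i) ∧
    ∀ s ∉ I, ¬ AlgebraicIndependent (Polynomial ℚ) (fun o : Option I => o.elim (h s) fun i => h i)

/-- the values at the shift `G g`: the logarithm and the functions -/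
noncomputable def vc {r : ℕ} (G : ℕ) (h : Fin r → ℚ⟦X⟧) (ξ : ℂ) (g : ℕ) : Option (Fin r) → ℂ
  | none => Complex.log (1 - ((G * g : ℕ) : ℂ) / ξ)
  | some j => evc (1 / (ξ - ((G * g : ℕ) : ℂ))) (h j)

/-- evaluation of the coefficients at the complex number `x` -/
noncomputable def spc {σ ε : Type} (e : ε → σ) (x : ℂ) (y : σ → ℂ) : MvPolynomial ε (Polynomial ℚ) →+* ℂ :=
  MvPolynomial.eval₂Hom (Polynomial.aeval x : Polynomial ℚ →ₐ[ℚ] ℂ).toRingHom (fun i => y (e i))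

/-- the specialisation at `x` of the variety of functional relations -/
def Vc {r : ℕ} (h : Fin r → ℚ⟦X⟧) (x : ℂ) : Set (Fin r → ℂ) :=
  {y | ∀ R : MvPolynomial (Fin r) (Polynomial ℚ), MvPolynomial.aeval h R = 0 →
    MvPolynomial.eval₂ (Polynomial.aeval x : Polynomial ℚ →ₐ[ℚ] ℂ).toRingHom y R = 0}

/-- the monomials of degree at most `D` in the `v s` -/
def mons {Ω σ : Type} [Field Ω] [Fintype σ] (v : σ → Ω) (D : ℕ) : Set Ω :=
  {z | ∃ n : σ → ℕ, ∑ s, n s ≤ D ∧ z = ∏ s, v s ^ n s}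

/-- (FAM) at the points `ξ` of number fields of degree at most `d`, `|ξ| ≥ (H + 2)^E`, of height at most `|ξ|^A`, the
products of the values of the words in `B` and of powers of the logarithm, for `N` different shifts, generate a
`ℚ`-space of dimension greater than `card / (2 A d)` -/
def S_fam : Prop := ∀ (r : ℕ) (T : Polynomial ℤ) (A : Fin r → Fin r → Polynomial ℤ) (h : Fin r → ℚ⟦X⟧), GFam T A h →
  ∃ G0 : ℕ, 1 ≤ G0 ∧ ∀ G : ℕ, G0 ≤ G → ∀ I : Finset (Fin r), AlgebraicIndependent (Polynomial ℚ) (fun i : I => h i) →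
  ∀ δ : ℕ, ∃ B : Finset (Fin δ → Option (Fin r)), (Mon δ I).card ≤ B.card ∧ ∀ N d A : ℕ, ∃ E : ℕ, ∀ (H : ℕ)
  (K : IntermediateField ℚ ℂ) (ξ : K) (X : ℝ), FiniteDimensional ℚ K → finrank ℚ K ≤ d → Al.Pt K ξ X →
  ((H : ℝ) + 2) ^ E ≤ ‖(ξ : ℂ)‖ → X ≤ ‖(ξ : ℂ)‖ ^ A → ∀ g : Fin N → ℕ, Function.Injective g →
  (∀ l, 1 ≤ g l ∧ g l ≤ H) → ∀ (n : ℕ) (a : Fin n → (Fin N → B × Fin (δ + 1)) → ℚ), LinearIndependent ℚ a →
  (∀ i, ∑ b, ((a i b : ℚ) : ℂ) * ∏ l, (yw (fun j => vc G h ξ (g l) (some j)) (b l).1.1 *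
    vc G h ξ (g l) none ^ ((b l).2 : ℕ)) = 0) →
  2 * A * d * (Fintype.card (Fin N → B × Fin (δ + 1)) - n) ≤ Fintype.card (Fin N → B × Fin (δ + 1)) → False

/-- (HF) the growth of the span of the monomials of bounded degree -/
def S_hf : Prop := ∀ (F Ω : Type) [Field F] [Field Ω] [Algebra F Ω] (σ : Type) [Fintype σ] (v : σ → Ω) (n : ℕ),
  (matroid F Ω).eRk (Set.range v) ≤ n → ∃ C : ℕ, ∀ D : ℕ, finrank F (Submodule.span F (mons v D)) ≤ C * (D + 1) ^ n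

/-- (RK) the rank of specialisations of the functions at `N` points, and logarithms, if the free coordinates are
dependent -/
def S_rk : Prop := ∀ (r : ℕ) (h : Fin r → ℚ⟦X⟧) (I : Finset (Fin r)), Free h I → ∀ (F Ω : Type) [Field F] [Field Ω]
  [Algebra ℚ Ω] [Algebra F Ω] (N : ℕ) (x : Fin N → Ω) (z : Fin N → Option (Fin r) → Ω), (∀ l, IsAlgebraic F (x l)) →
  (∀ l, ∀ c : Polynomial ℚ, c ≠ 0 → Polynomial.aeval (x l) c ≠ 0) →
  (∀ l, ∀ R : MvPolynomial (Fin r) (Polynomial ℚ), MvPolynomial.aeval h R = 0 →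
    MvPolynomial.eval₂ (Polynomial.aeval (x l) : Polynomial ℚ →ₐ[ℚ] Ω).toRingHom (fun j => z l (some j)) R = 0) →
  ¬ AlgebraicIndependent F (fun p : Fin N × Option I => z p.1 (p.2.map Subtype.val)) →
  (matroid F Ω).eRk (Set.range fun p : Fin N × Option (Fin r) => z p.1 p.2) < ((N * (I.card + 1) : ℕ) : ℕ∞)

/-- (DEP) the version of `Y118.UL.dep_irr` for algebraic parameters -/
def S_dep : Prop := ∀ (σ ε υ : Type) [Fintype σ] [Fintype υ] (e : ε → σ)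
  (R : σ → Polynomial (MvPolynomial ε (Polynomial ℚ))), (∀ s, R s ≠ 0) → ∀ (k : ℕ) (xx : ℕ → Fin k → ℂ),
  (∀ j, IsAlgebraic (Pool.Agent.Y118.UL.U ℚ) (mk ℂ fun n => xx n j)) →
  (∀ c : Polynomial ℚ, c ≠ 0 → ∀ j, ∀ᶠ n in (hyperfilter ℕ : Filter ℕ), Polynomial.aeval (xx n j) c ≠ 0) →
  ∀ (w : ℕ → υ → ℂ) (Y : ℕ → Set (Fin k × σ → ℂ)), (∀ n, Irr (Y n)) → ∀ z : ℕ → Fin k × σ → ℂ, (∀ n, z n ∈ Y n) →
  (∀ n, ∀ y ∈ Y n, ∀ j s, Polynomial.eval₂ (spc e (xx n j) fun s => y (j, s)) (y (j, s)) (R s) = 0) →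
  ∀ (D d : ℕ) (K : ℕ → IntermediateField ℚ ℂ), (∀ n, FiniteDimensional ℚ (K n)) → (∀ n, finrank ℚ (K n) ≤ D) →
  ∀ P : ∀ n, MvPolynomial (υ ⊕ Fin k × σ) (K n), (∀ n, (P n).totalDegree ≤ d) →
  (∀ n, MvPolynomial.aeval (Sum.elim (w n) (z n)) (P n) = 0) →
  ∀ y0 : ℕ → Fin k × σ → ℂ, (∀ n, y0 n ∈ Y n) → (∀ n, MvPolynomial.aeval (Sum.elim (w n) (y0 n)) (P n) ≠ 0) →
  ∃ a : Fin k × ε, mk ℂ (fun n => z n (a.1, e a.2)) ∈
    MM.closure (Set.range (fun j : υ => mk ℂ fun n => w n j) ∪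
      ((fun b : Fin k × ε => mk ℂ (fun n => z n (b.1, e b.2))) '' {a}ᶜ))

/-- (NR) the free coordinates have no relations of bounded degree at the points of number fields -/
def S_nr : Prop := ∀ (r : ℕ) (T : Polynomial ℤ) (A : Fin r → Fin r → Polynomial ℤ) (h : Fin r → ℚ⟦X⟧), GFam T A h →
  ∃ G0 : ℕ, 1 ≤ G0 ∧ ∀ G : ℕ, G0 ≤ G → ∀ I : Finset (Fin r), Free h I →
    Sl.InpA (fun ξ g (i : Option I) => vc G h ξ g (i.map Subtype.val))

/-- (BR) relations between all coordinates of a point of an irreducible set `Y` in the product of the fibres at algebraic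
points of bounded degree, which do not hold on the whole of `Y`, give relations between the free coordinates -/
def S_br : Prop := ∀ (r : ℕ) (h : Fin r → ℚ⟦X⟧) (I : Finset (Fin r)), Free h I → ∀ k m d δ D : ℕ,
  ∃ (δ' : ℕ) (c : Polynomial ℚ), c ≠ 0 ∧ ∀ (x : Fin k → ℂ) (y₀ : Fin k × Option (Fin r) → ℂ)
  (Y : Set (Fin k × Option (Fin r) → ℂ)) (K : IntermediateField ℚ ℂ) (w : Fin D → ℂ)
  (P : MvPolynomial (Fin D ⊕ Fin k × Option (Fin r)) K),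
  (∀ j, ∃ K₁ : IntermediateField ℚ ℂ, FiniteDimensional ℚ K₁ ∧ finrank ℚ K₁ ≤ m ∧ x j ∈ K₁) →
  (∀ j, Polynomial.aeval (x j) c ≠ 0) → Irr Y → y₀ ∈ Y → (∀ y ∈ Y, ∀ j, (fun i => y (j, some i)) ∈ Vc h (x j)) →
  FiniteDimensional ℚ K → finrank ℚ K ≤ d → P.totalDegree ≤ δ → MvPolynomial.aeval (Sum.elim w y₀) P = 0 →
  (∃ y ∈ Y, MvPolynomial.aeval (Sum.elim w y) P ≠ 0) →
  ∃ Q : MvPolynomial (Fin D ⊕ Fin k × Option I) ℚ, Q.totalDegree ≤ δ' ∧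
    MvPolynomial.aeval (Sum.elim w fun p : Fin k × Option I => y₀ (p.1, p.2.map Subtype.val)) Q = 0 ∧
    (MvPolynomial.aeval (Sum.elim (fun j => MvPolynomial.C (w j)) MvPolynomial.X) Q :
      MvPolynomial (Fin k × Option I) ℂ) ≠ 0

end Pool.Agent.Y916.Af
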