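import Pool.Agent.Y916.Af.Stm
import Pool.Agent.Y118.UL.Vli

/-!
# Families of G-functions at algebraic points: statements for connected families
-/

set_option autoImplicit false

open PowerSeries Module Filter AlgebraicIndependent

namespace Pool.Agent.Y916.Af

open Pool.Agent.Y113 Pool.Agent.Y916.Al Pool.Agent.Y118.UL

/-- irreducible for polynomials of degree at most `d` -/
def IrrD {ι : Type} (d : ℕ) (Y : Set (ι → ℂ)) : Prop := ∀ P Q : MvPolynomial ι ℂ, P.totalDegree ≤ d → Q.totalDegree ≤ d →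
  (∀ y ∈ Y, MvPolynomial.eval y P * MvPolynomial.eval y Q = 0) →
  (∀ y ∈ Y, MvPolynomial.eval y P = 0) ∨ (∀ y ∈ Y, MvPolynomial.eval y Q = 0)

theorem irrD_of_irr {ι : Type} {Y : Set (ι → ℂ)} (h : Irr Y) (d : ℕ) : IrrD d Y := fun P Q _ _ => h P Q

/-- (DEP2) the same as `S_dep` with a weaker hypothesis on `Y n` -/
def S_dep2 : Prop := ∀ (σ ε υ : Type) [Fintype σ] [Fintype υ] (e : ε → σ)
  (R : σ → Polynomial (MvPolynomial ε (Polynomial ℚ))), (∀ s, R s ≠ 0) → ∀ (k : ℕ) (xx : ℕ → Fin k → ℂ),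
  (∀ j, IsAlgebraic (Pool.Agent.Y118.UL.U ℚ) (mk ℂ fun n => xx n j)) →
  (∀ c : Polynomial ℚ, c ≠ 0 → ∀ j, ∀ᶠ n in (hyperfilter ℕ : Filter ℕ), Polynomial.aeval (xx n j) c ≠ 0) →
  ∀ (w : ℕ → υ → ℂ) (Y : ℕ → Set (Fin k × σ → ℂ)), (∀ n, IrrD n (Y n)) → ∀ z : ℕ → Fin k × σ → ℂ, (∀ n, z n ∈ Y n) →
  (∀ n, ∀ y ∈ Y n, ∀ j s, Polynomial.eval₂ (spc e (xx n j) fun s => y (j, s)) (y (j, s)) (R s) = 0) →
  ∀ (D d : ℕ) (K : ℕ → IntermediateField ℚ ℂ), (∀ n, FiniteDimensional ℚ (K n)) → (∀ n, finrank ℚ (K n) ≤ D) →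
  ∀ P : ∀ n, MvPolynomial (υ ⊕ Fin k × σ) (K n), (∀ n, (P n).totalDegree ≤ d) →
  (∀ n, MvPolynomial.aeval (Sum.elim (w n) (z n)) (P n) = 0) →
  ∀ y0 : ℕ → Fin k × σ → ℂ, (∀ n, y0 n ∈ Y n) → (∀ n, MvPolynomial.aeval (Sum.elim (w n) (y0 n)) (P n) ≠ 0) →
  ∃ a : Fin k × ε, mk ℂ (fun n => z n (a.1, e a.2)) ∈
    MM.closure (Set.range (fun j : υ => mk ℂ fun n => w n j) ∪
      ((fun b : Fin k × ε => mk ℂ (fun n => z n (b.1, e b.2))) '' {a}ᶜ))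

/-- (BR2) the same as `S_br` with a weaker hypothesis on `Y` -/
def S_br2 : Prop := ∀ (r : ℕ) (h : Fin r → ℚ⟦X⟧) (I : Finset (Fin r)), Free h I → ∀ k m d δ D : ℕ,
  ∃ (δ' : ℕ) (c : Polynomial ℚ), c ≠ 0 ∧ ∀ (x : Fin k → ℂ) (y₀ : Fin k × Option (Fin r) → ℂ)
  (Y : Set (Fin k × Option (Fin r) → ℂ)) (K : IntermediateField ℚ ℂ) (w : Fin D → ℂ)
  (P : MvPolynomial (Fin D ⊕ Fin k × Option (Fin r)) K),
  (∀ j, ∃ K₁ : IntermediateField ℚ ℂ, FiniteDimensional ℚ K₁ ∧ finrank ℚ K₁ ≤ m ∧ x j ∈ K₁) →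
  (∀ j, Polynomial.aeval (x j) c ≠ 0) → IrrD δ' Y → y₀ ∈ Y → (∀ y ∈ Y, ∀ j, (fun i => y (j, some i)) ∈ Vc h (x j)) →
  FiniteDimensional ℚ K → finrank ℚ K ≤ d → P.totalDegree ≤ δ → MvPolynomial.aeval (Sum.elim w y₀) P = 0 →
  (∃ y ∈ Y, MvPolynomial.aeval (Sum.elim w y) P ≠ 0) →
  ∃ Q : MvPolynomial (Fin D ⊕ Fin k × Option I) ℚ, Q.totalDegree ≤ δ' ∧
    MvPolynomial.aeval (Sum.elim w fun p : Fin k × Option I => y₀ (p.1, p.2.map Subtype.val)) Q = 0 ∧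
    (MvPolynomial.aeval (Sum.elim (fun j => MvPolynomial.C (w j)) MvPolynomial.X) Q :
      MvPolynomial (Fin k × Option I) ℂ) ≠ 0

/-- (CONN) the fibres of a connected family are irreducible in bounded degree, for almost all parameters -/
def S_conn : Prop := ∀ (r : ℕ) (h : Fin r → ℚ⟦X⟧), Conn h → ∀ d : ℕ, ∃ c : Polynomial ℚ, c ≠ 0 ∧
  ∀ x : ℂ, Polynomial.aeval x c ≠ 0 → IrrD d (Vc h x)

end Pool.Agent.Y916.Af
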