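import Pool.Agent.Y547.AF.Fin
import Pool.Agent.Y185.AF.Hf
import Pool.Agent.Y356.AF.Rk
import Pool.Agent.Y475.AF.NR
import Pool.Agent.Y340.AF.Conn
import Pool.Agent.Y916.Af.Br2
import Pool.Agent.Y916.Af.Win2

/-!
# Families of G-functions at algebraic points of bounded degree: assembly of the parts

FAM: helper547, HF: helper185, RK: helper356, DEP: helper430, BR: helper977, NR: helper475, CONN: helper340.
-/

set_option autoImplicit false

namespace Pool.Agent.Y916.Af

theorem nr : S_nr := Pool.Agent.Y475.AF.nr_of Pool.Agent.Y547.AF.t_fam Pool.Agent.Y185.AF.t_hf Pool.Agent.Y356.AF.t_rk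

theorem conn : S_conn := Pool.Agent.Y340.AF.t_conn

end Pool.Agent.Y916.Af
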