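import Pool.Agent.Y916.Af.Stm
import Pool.Agent.Y916.Sl.DegT

/-!
# Families of G-functions at algebraic points: counting with windows of step `G`
-/

set_option autoImplicit false

open PowerSeries Module

namespace Pool.Agent.Y916.Af

open Pool.Agent.Y113 Pool.Agent.Y916.Al Pool.Agent.Y916.AW

variable {r : ℕ}

/-- the numbers at `α`: the principal logarithm and the values of the functions -/
noncomputable def xc (h : Fin r → ℚ⟦X⟧) (α : ℂ) : Option (Fin r) → ℂ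
  | none => Complex.log α
  | some j => evc (1 / α) (h j)

/-- the values at the rescaled point -/
noncomputable def va (G : ℕ) (h : Fin r → ℚ⟦X⟧) (I : Finset (Fin r)) (ξ : ℂ) (g : ℕ) (i : Option I) : ℂ :=
  vc G h (-(G : ℂ) * ξ) g (i.map Subtype.val)

/-- the numbers at the rescaled point -/
noncomputable def xa (G : ℕ) (h : Fin r → ℚ⟦X⟧) (I : Finset (Fin r)) (ζ : ℂ) (i : Option I) : ℂ :=
  xc h (-(G : ℂ) * ζ) (i.map Subtype.val)

lemma nat_int {K : IntermediateField ℚ ℂ} (c : ℕ) : IsIntegral ℤ (c : K) := by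
  have h1 : ((c : ℤ) : K) = (c : K) := by norm_cast
  rw [← h1, ← eq_intCast (algebraMap ℤ K)]
  exact isIntegral_algebraMap

theorem inpA_va {h : Fin r → ℚ⟦X⟧} {G : ℕ} (hG : 1 ≤ G) {I : Finset (Fin r)}
    (hval : Sl.InpA (fun ξ g (i : Option I) => vc G h ξ g (i.map Subtype.val))) : Sl.InpA (va G h I) := by
  intro N Δ d A
  obtain ⟨E, hE⟩ := hval N Δ d (A + 1)
  refine ⟨E + 1, fun H K ξ X hf hd hPt hξ hX g hg hgb Q hQ hQ0 => ?_⟩
  have hGR : (1 : ℝ) ≤ G := by exact_mod_cast hG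
  have hH1 : (1 : ℝ) ≤ (H : ℝ) + 2 := by linarith [(Nat.cast_nonneg H : (0 : ℝ) ≤ H)]
  have hξ1 : 1 ≤ ‖(ξ : ℂ)‖ := (one_le_pow₀ hH1).trans hξ
  have hcast : ((-(G : K) * ξ : K) : ℂ) = -(G : ℂ) * ξ := by push_cast; ring
  have hnorm : ‖((-(G : K) * ξ : K) : ℂ)‖ = G * ‖(ξ : ℂ)‖ := by
    rw [hcast, norm_mul, norm_neg, Complex.norm_natCast]
  have hPt' : Al.Pt K (-(G : K) * ξ) (G * X) := by
    obtain ⟨u, w, hu, hw, hw0, hx, hσ⟩ := hPt
    have hX0 : 0 ≤ X := (norm_nonneg _).trans (hσ (algebraMap K ℂ)).1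
    refine ⟨-(G : K) * u, w, (nat_int G).neg.mul hu, hw, hw0, by rw [hx, mul_div_assoc], fun σ => ⟨?_, ?_⟩⟩
    · rw [map_mul, map_neg, map_natCast, norm_mul, norm_neg, Complex.norm_natCast]
      exact mul_le_mul_of_nonneg_left (hσ σ).1 (by linarith)
    · refine (hσ σ).2.trans ?_
      nlinarith
  refine hE H K (-(G : K) * ξ) (G * X) hf hd hPt' ?_ ?_ g hg hgb Q hQ ?_
  · rw [hnorm]
    refine (pow_le_pow_right₀ hH1 (by omega : E ≤ E + 1)).trans (hξ.trans ?_)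
    nlinarith
  · rw [hnorm]
    have h1 : (G : ℝ) ≤ (G : ℝ) ^ (A + 1) := le_self_pow₀ hGR (by omega)
    have h2 : ‖(ξ : ℂ)‖ ^ A ≤ ‖(ξ : ℂ)‖ ^ (A + 1) := pow_le_pow_right₀ hξ1 (by omega)
    rw [mul_pow]
    exact mul_le_mul h1 (hX.trans h2) (by
      obtain ⟨u, w, -, -, -, -, hσ⟩ := hPt
      exact (norm_nonneg _).trans (hσ (algebraMap K ℂ)).1) (by positivity)
  · rw [hcast]
    exact hQ0

/-- the logarithm of a product -/
lemma log_mul_mem {a b : ℂ} (ha : a ≠ 0) (hb : b ≠ 0) : ∃ n : ℤ, Complex.log (a * b) - Complex.log b =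
    Complex.log a + n * (2 * Real.pi * Complex.I) := by
  have h1 : Complex.exp (Complex.log (a * b)) = Complex.exp (Complex.log a + Complex.log b) := by
    rw [Complex.exp_add, Complex.exp_log ha, Complex.exp_log hb, Complex.exp_log (mul_ne_zero ha hb)]
  obtain ⟨n, hn⟩ := Complex.exp_eq_exp_iff_exists_int.1 h1
  exact ⟨n, by rw [hn]; ring⟩

theorem link_mem (h : Fin r → ℚ⟦X⟧) {G : ℕ} (hG : 1 ≤ G) (I : Finset (Fin r)) (ξ : ℂ) (W : Submodule (⊥ : IntermediateField ℚ ℂ) ℂ)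
    (hW1 : Complex.log (-(G : ℂ) * ξ) ∈ W) (hW2 : (2 * Real.pi * Complex.I : ℂ) ∈ W) {g : ℕ}
    (hgξ : ((g : ℝ) + 2) ^ 1 ≤ ‖ξ‖) (s : Option I) :
    xa G h I (ξ + g) s - (((1 : (⊥ : IntermediateField ℚ ℂ))) : ℂ) * va G h I ξ g s ∈ W := by
  have hG0 : (G : ℂ) ≠ 0 := by exact_mod_cast (by omega : G ≠ 0)
  have hξg : (g : ℝ) < ‖ξ‖ := by
    rw [pow_one] at hgξ
    linarith
  have hξ0 : ξ ≠ 0 := by
    rw [← norm_pos_iff]
    exact lt_of_le_of_lt (Nat.cast_nonneg g) hξg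
  have hb : (1 : ℂ) + g / ξ ≠ 0 := by
    intro h0
    have h1 : ξ = -g := by
      field_simp at h0
      linear_combination h0
    rw [h1, norm_neg, Complex.norm_natCast] at hξg
    exact lt_irrefl _ hξg
  rw [show (((1 : (⊥ : IntermediateField ℚ ℂ))) : ℂ) = 1 from rfl, one_mul]
  rcases s with _ | i
  · show Complex.log (-(G : ℂ) * (ξ + g)) - Complex.log (1 - ((G * g : ℕ) : ℂ) / (-(G : ℂ) * ξ)) ∈ _
    have h1 : -(G : ℂ) * (ξ + g) = (-(G : ℂ) * ξ) * (1 + g / ξ) := by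
      field_simp
    have h2 : 1 - ((G * g : ℕ) : ℂ) / (-(G : ℂ) * ξ) = 1 + g / ξ := by
      push_cast
      field_simp
      ring
    rw [h1, h2]
    obtain ⟨n, hn⟩ := log_mul_mem (mul_ne_zero (neg_ne_zero.2 hG0) hξ0) hb
    rw [hn]
    refine Submodule.add_mem _ hW1 ?_
    have h3 : (n : ℂ) * (2 * Real.pi * Complex.I) = (n : (⊥ : IntermediateField ℚ ℂ)) • (2 * Real.pi * Complex.I : ℂ) := by
      rw [Algebra.smul_def]
      simp
    rw [h3]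
    exact Submodule.smul_mem _ _ hW2
  · have h1 : xa G h I (ξ + g) (some i) = va G h I ξ g (some i) := by
      show evc (1 / (-(G : ℂ) * (ξ + g))) (h i) = evc (1 / (-(G : ℂ) * ξ - ((G * g : ℕ) : ℂ))) (h i)
      congr 2
      push_cast
      ring
    rw [h1, sub_self]
    exact Submodule.zero_mem _

theorem link_va (h : Fin r → ℚ⟦X⟧) {G : ℕ} (hG : 1 ≤ G) (I : Finset (Fin r)) (m : ℕ) :
    Sl.LinkA (va G h I) (xa G h I) (fun _ => True) m 1 2 1 := by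
  intro K₁ ξ _ _
  refine ⟨⊥, inferInstance, by rw [IntermediateField.finrank_bot],
    ![Complex.log (-(G : ℂ) * ξ), 2 * Real.pi * Complex.I], fun g hg hgξ _ s => ⟨1, one_ne_zero, ?_⟩⟩
  refine link_mem h hG I _ _ ?_ ?_ hgξ s
  · exact Submodule.subset_span (Set.mem_insert_of_mem _ ⟨0, rfl⟩)
  · exact Submodule.subset_span (Set.mem_insert_of_mem _ ⟨1, rfl⟩)

theorem linkU_va (h : Fin r → ℚ⟦X⟧) {G : ℕ} (hG : 1 ≤ G) (I : Finset (Fin r)) (m : ℕ) {υ : Type} (u : υ → ℂ) (i₀ : υ)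
    (hu : u i₀ = 2 * Real.pi * Complex.I) : Sl.LinkU (va G h I) (xa G h I) (fun _ => True) u m 1 1 := by
  intro K₁ ξ _ _
  refine ⟨⊥, inferInstance, by rw [IntermediateField.finrank_bot], Complex.log (-(G : ℂ) * ξ),
    fun g hg hgξ _ s => ⟨1, one_ne_zero, ?_⟩⟩
  refine link_mem h hG I _ _ ?_ ?_ hgξ s
  · exact Submodule.subset_span (Set.mem_insert_of_mem _ (Set.mem_insert _ _))
  · exact Submodule.subset_span (Set.mem_insert_of_mem _ (Set.mem_insert_of_mem _ ⟨i₀, hu⟩))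

open Classical in
/-- double counting with windows of step `G` -/
theorem double_countG (m G : ℕ) (Bd : ℂ → Prop) (M H T : ℕ) (s : ℝ) (hHT : G * H ≤ T) (hHs : ((G * H : ℕ) : ℝ) ≤ s)
    (hwin : ∀ ξ, Sl.AInt m ((2 * T : ℕ) : ℝ) ξ → s ≤ ‖ξ‖ → ∀ S : Finset ℕ,
      (∀ g ∈ S, g ≤ H ∧ Bd (ξ + ((G * g : ℕ) : ℂ))) → S.card ≤ M) :
    ((Sl.NF m T).filter fun ξ => Bd ξ ∧ 2 * s ≤ ‖ξ‖).card * (H + 1) ≤ M * (Sl.NF m (2 * T)).card := by
  set L := (Sl.NF m T).filter fun ξ => Bd ξ ∧ 2 * s ≤ ‖ξ‖ with hL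
  set Gf : ℂ → Finset ℕ := fun ξ => (Finset.range (H + 1)).filter fun g => Bd (ξ + ((G * g : ℕ) : ℂ)) with hGf
  set N := (Sl.NF m (2 * T)).filter fun ξ => s ≤ ‖ξ‖ with hN
  have h1 : (L ×ˢ Finset.range (H + 1)).card ≤ (N.sigma Gf).card := by
    refine Finset.card_le_card_of_injOn (fun p => (⟨p.1 - ((G * p.2 : ℕ) : ℂ), p.2⟩ : Σ _ : ℂ, ℕ)) ?_ ?_
    · rintro ⟨ξ, g⟩ hp
      rw [Finset.mem_coe, Finset.mem_product] at hp
      obtain ⟨hξ, hg⟩ := hp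
      obtain ⟨hξ1, hξ2, hξ3⟩ := Finset.mem_filter.1 hξ
      have hgH : g ≤ H := by have := Finset.mem_range.1 hg; omega
      have hgG : G * g ≤ G * H := Nat.mul_le_mul_left _ hgH
      have hgR : ((G * g : ℕ) : ℝ) ≤ ((G * H : ℕ) : ℝ) := by exact_mod_cast hgG
      rw [Finset.mem_coe, Finset.mem_sigma]
      refine ⟨Finset.mem_filter.2 ⟨?_, ?_⟩, Finset.mem_filter.2 ⟨hg, ?_⟩⟩
      · rw [Sl.mem_NF]
        refine ((Sl.mem_NF.1 hξ1).sub (G * g)).mono ?_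
        have h2 : ((G * g : ℕ) : ℝ) ≤ T := by exact_mod_cast hgG.trans hHT
        push_cast at h2 ⊢
        linarith
      · have h2 := norm_sub_norm_le ξ ((G * g : ℕ) : ℂ)
        rw [Complex.norm_natCast] at h2
        change s ≤ ‖ξ - ((G * g : ℕ) : ℂ)‖
        linarith
      · change Bd (ξ - ((G * g : ℕ) : ℂ) + ((G * g : ℕ) : ℂ))
        rw [sub_add_cancel]
        exact hξ2
    · rintro ⟨ξ, g⟩ - ⟨ξ', g'⟩ - h
      simp only [Sigma.mk.injEq, heq_eq_eq] at h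
      obtain ⟨h2, rfl⟩ := h
      have h3 : ξ = ξ' := sub_left_injective h2
      rw [h3]
  rw [Finset.card_product, Finset.card_range, Finset.card_sigma] at h1
  refine h1.trans ?_
  calc ∑ a ∈ N, (Gf a).card ≤ ∑ _a ∈ N, M := by
        refine Finset.sum_le_sum fun ξ hξ => ?_
        obtain ⟨hξ1, hξ2⟩ := Finset.mem_filter.1 hξ
        refine hwin ξ (Sl.mem_NF.1 hξ1) hξ2 (Gf ξ) fun g hg => ?_
        obtain ⟨hg1, hg2⟩ := Finset.mem_filter.1 hg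
        exact ⟨by have := Finset.mem_range.1 hg1; omega, hg2⟩
    _ = M * N.card := by rw [Finset.sum_const, smul_eq_mul, mul_comm]
    _ ≤ _ := Nat.mul_le_mul_left _ (Finset.card_filter_le _ _)

/-- the rescaled point -/
theorem pt_scale {m G : ℕ} (hG : 1 ≤ G) {T : ℝ} (hT : 1 ≤ T) {ξ : ℂ} (hξ : Sl.AInt m T ξ) :
    ∃ (K : IntermediateField ℚ ℂ) (ξ' : K), FiniteDimensional ℚ K ∧ finrank ℚ K ≤ m ∧ (ξ' : ℂ) = -ξ / G ∧
      Al.Pt K ξ' (G * T) := by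
  obtain ⟨K, ξ', h1, h2, h3, h4⟩ := hξ.pt hT
  obtain ⟨f, hf1, hf2, hf3, hf4⟩ := hξ
  have hGR : (1 : ℝ) ≤ G := by exact_mod_cast hG
  have hG0 : (G : K) ≠ 0 := by exact_mod_cast (by omega : G ≠ 0)
  have hint : IsIntegral ℤ ξ' := by
    refine ⟨f, hf1, ?_⟩
    apply (algebraMap K ℂ).injective
    have h5 : Polynomial.aeval ξ f = 0 := hf3
    rw [← h3] at h5
    rw [map_zero]
    have h6 := Polynomial.hom_eval₂ f (algebraMap ℤ K) (algebraMap K ℂ) ξ'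
    rw [h6]
    have h7 : (algebraMap K ℂ).comp (algebraMap ℤ K) = algebraMap ℤ ℂ := RingHom.ext_int _ _
    rw [h7]
    exact h5
  refine ⟨K, -ξ' / G, h1, h2, by push_cast; rw [h3], -ξ', G, hint.neg, nat_int G, hG0, rfl, fun σ => ⟨?_, ?_⟩⟩
  · rw [map_neg, norm_neg]
    have h5 : ‖σ ξ'‖ ≤ T := by
      refine hf4 _ ?_
      have h5 := Polynomial.hom_eval₂ f (algebraMap ℤ K) σ ξ'
      have h6 : Polynomial.eval₂ (algebraMap ℤ K) ξ' f = 0 := by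
        apply (algebraMap K ℂ).injective
        rw [map_zero, Polynomial.hom_eval₂]
        have h7 : (algebraMap K ℂ).comp (algebraMap ℤ K) = algebraMap ℤ ℂ := RingHom.ext_int _ _
        rw [h7]
        have h8 : algebraMap K ℂ ξ' = ξ := h3
        rw [h8]
        exact hf3
      rw [h6, map_zero] at h5
      have h7 : σ.comp (algebraMap ℤ K) = algebraMap ℤ ℂ := RingHom.ext_int _ _
      rw [h7] at h5
      exact h5.symm
    nlinarith
  · rw [map_natCast, Complex.norm_natCast]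
    nlinarith

open Classical in
/-- few bad points -/
theorem deg_badG {h : Fin r → ℚ⟦X⟧} {G : ℕ} (hG : 1 ≤ G) {I : Finset (Fin r)}
    (hval : Sl.InpA (fun ξ g (i : Option I) => vc G h ξ g (i.map Subtype.val))) (m δ D : ℕ) :
    ∃ c : ℝ, 0 < c ∧ ∃ C : ℝ, 0 ≤ C ∧ ∀ V : Submodule ℚ ℂ, Module.Finite ℚ V → finrank ℚ V ≤ D → ∀ T : ℕ, 1 ≤ T →
      (((Sl.NF m T).filter fun ξ => Rel δ V (fun i : Option I => xc h ξ (i.map Subtype.val))).card : ℝ) ≤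
        C * (T : ℝ) ^ ((Sl.Mm m : ℝ) - c) := by
  obtain ⟨M, E, hwin⟩ := Sl.hwinS (va G h I) (inpA_va hG hval) (xa G h I) (fun _ => True) m 1 2 1 (link_va h hG I m)
    (r := 1) (fun _ => 0) (fun _ _ _ => Subsingleton.elim _ _) 8 δ D
  have hGR : (1 : ℝ) ≤ G := by exact_mod_cast hG
  have hG0 : (G : ℂ) ≠ 0 := by exact_mod_cast (by omega : G ≠ 0)
  set E' := E + 2 with hE'
  have hE'0 : (0 : ℝ) < E' := by positivity
  set ε : ℝ := 1 / (4 * E') with hε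
  have hε0 : 0 < ε := by positivity
  have hε1 : ε ≤ 1 / 4 := by
    rw [hε]
    refine one_div_le_one_div_of_le (by norm_num) ?_
    have : (1 : ℝ) ≤ E' := by exact_mod_cast (by omega : 1 ≤ E')
    linarith
  set C₀ : ℝ := (3 * 2 ^ m) ^ m * m with hC₀
  have hC₀0 : 0 ≤ C₀ := by positivity
  set T₀ : ℕ := (3 * G) ^ (4 * E') with hT₀
  have hT₀1 : (1 : ℝ) ≤ T₀ := by
    rw [hT₀]
    push_cast
    exact one_le_pow₀ (by linarith)
  refine ⟨ε, hε0, M * (C₀ * 2 ^ Sl.Mm m) + 4 * C₀ + C₀ * (T₀ : ℝ) ^ ε, by positivity, fun V hV hVD T hT => ?_⟩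
  have hT1 : (1 : ℝ) ≤ T := by exact_mod_cast hT
  have hT0 : (0 : ℝ) < T := by linarith
  obtain ⟨Bd, hBd⟩ : ∃ Bd : ℂ → Prop, ∀ ξ, Bd ξ ↔ Rel δ V (fun i : Option I => xc h ξ (i.map Subtype.val)) :=
    ⟨_, fun _ => Iff.rfl⟩
  have hgoal : ((Sl.NF m T).filter fun ξ => Rel δ V (fun i : Option I => xc h ξ (i.map Subtype.val))) =
      (Sl.NF m T).filter fun ξ => Bd ξ := by
    ext ξ
    simp only [Finset.mem_filter, hBd]
  rw [hgoal]
  have hcardT := Sl.card_NF m T hT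
  have hbase : 0 ≤ (T : ℝ) ^ ((Sl.Mm m : ℝ) - ε) := by positivity
  rcases lt_or_ge T T₀ with hTT | hTT
  · have h1 : (((Sl.NF m T).filter fun ξ => Bd ξ).card : ℝ) ≤ C₀ * (T : ℝ) ^ Sl.Mm m :=
      le_trans (by exact_mod_cast Finset.card_filter_le _ _) hcardT
    refine h1.trans ?_
    have h2 : (T : ℝ) ^ Sl.Mm m = (T : ℝ) ^ ε * (T : ℝ) ^ ((Sl.Mm m : ℝ) - ε) := by
      rw [← Real.rpow_add hT0, ← Real.rpow_natCast]
      congr 1
      ring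
    have h3 : (T : ℝ) ^ ε ≤ (T₀ : ℝ) ^ ε := Real.rpow_le_rpow hT0.le (by exact_mod_cast hTT.le) hε0.le
    rw [h2]
    calc C₀ * ((T : ℝ) ^ ε * (T : ℝ) ^ ((Sl.Mm m : ℝ) - ε)) ≤ C₀ * ((T₀ : ℝ) ^ ε * (T : ℝ) ^ ((Sl.Mm m : ℝ) - ε)) :=
          mul_le_mul_of_nonneg_left (mul_le_mul_of_nonneg_right h3 hbase) hC₀0
      _ = (C₀ * (T₀ : ℝ) ^ ε) * (T : ℝ) ^ ((Sl.Mm m : ℝ) - ε) := by ring
      _ ≤ _ := mul_le_mul_of_nonneg_right (by
          have : 0 ≤ (M : ℝ) * (C₀ * 2 ^ Sl.Mm m) + 4 * C₀ := by positivity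
          linarith) hbase
  -- the main case
  set s : ℝ := (T : ℝ) ^ (1 / 2 : ℝ) with hs
  have hs0 : 0 < s := by positivity
  have hs1 : 1 ≤ s := Real.one_le_rpow hT1 (by norm_num)
  have hss : s * s = T := by
    rw [hs, ← Real.rpow_add hT0]
    norm_num
  set H : ℕ := ⌊(T : ℝ) ^ ε⌋₊ with hH
  have hTε1 : 1 ≤ (T : ℝ) ^ ε := Real.one_le_rpow hT1 hε0.le
  have hHT : (H : ℝ) ≤ (T : ℝ) ^ ε := Nat.floor_le (by positivity)
  have hH2 : ((G : ℝ) * ((H : ℝ) + 2)) ^ E' ≤ s := by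
    have h1 : (G : ℝ) * ((H : ℝ) + 2) ≤ (3 * G) * (T : ℝ) ^ ε := by nlinarith
    have h2 : ((3 : ℝ) * G) ^ E' ≤ (T : ℝ) ^ (1 / 4 : ℝ) := by
      have h3 : (((3 : ℝ) * G) ^ E') = (((3 : ℝ) * G) ^ (4 * E')) ^ (1 / 4 : ℝ) := by
        rw [← Real.rpow_natCast, ← Real.rpow_natCast, ← Real.rpow_mul (by positivity)]
        congr 1
        push_cast
        ring
      rw [h3]
      refine Real.rpow_le_rpow (by positivity) ?_ (by norm_num)
      have h4 : ((T₀ : ℕ) : ℝ) ≤ T := by exact_mod_cast hTT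
      rw [hT₀] at h4
      push_cast at h4
      exact h4
    calc ((G : ℝ) * ((H : ℝ) + 2)) ^ E' ≤ ((3 * G) * (T : ℝ) ^ ε) ^ E' := pow_le_pow_left₀ (by positivity) h1 _
      _ = (3 * G) ^ E' * ((T : ℝ) ^ ε) ^ E' := by rw [mul_pow]
      _ = (3 * G) ^ E' * (T : ℝ) ^ (1 / 4 : ℝ) := by
          rw [← Real.rpow_natCast ((T : ℝ) ^ ε) E', ← Real.rpow_mul hT0.le]
          congr 2
          rw [hε]
          field_simp
      _ ≤ (T : ℝ) ^ (1 / 4 : ℝ) * (T : ℝ) ^ (1 / 4 : ℝ) := mul_le_mul_of_nonneg_right h2 (by positivity)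
      _ = s := by
          rw [hs, ← Real.rpow_add hT0]
          norm_num
  have hH0 : (0 : ℝ) ≤ H := Nat.cast_nonneg H
  have hGH1 : 1 ≤ (G : ℝ) * ((H : ℝ) + 2) := by nlinarith
  have hGHs : (G : ℝ) * ((H : ℝ) + 2) ≤ s := (le_self_pow₀ hGH1 (by omega)).trans hH2
  have hHs : ((G * H : ℕ) : ℝ) ≤ s := by
    push_cast
    nlinarith
  have hHE : (G : ℝ) * ((H : ℝ) + 2) ^ E ≤ s := by
    refine le_trans ?_ hH2
    have h1 : (G : ℝ) ≤ (G : ℝ) ^ E' := le_self_pow₀ hGR (by omega)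
    have h2 : ((H : ℝ) + 2) ^ E ≤ ((H : ℝ) + 2) ^ E' := pow_le_pow_right₀ (by linarith) (by omega)
    rw [mul_pow]
    exact mul_le_mul h1 h2 (by positivity) (by positivity)
  have hG2 : (G : ℝ) * G ≤ s := by
    refine le_trans ?_ hH2
    have h0 : (G : ℝ) ≤ (G : ℝ) * ((H : ℝ) + 2) := le_mul_of_one_le_right (by linarith) (by linarith)
    have h1 : (G : ℝ) * G ≤ ((G : ℝ) * ((H : ℝ) + 2)) ^ 2 := by
      rw [pow_two]
      exact mul_le_mul h0 h0 (by linarith) (by linarith)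
    exact h1.trans (pow_le_pow_right₀ hGH1 (by omega))
  have hsT : s ≤ T := by nlinarith
  have hHTn : G * H ≤ T := by exact_mod_cast hHs.trans hsT
  have hs2 : 2 * (G : ℝ) ≤ s := by nlinarith
  have hdc := double_countG m G Bd M H T s hHTn hHs (by
    intro ξ hξ hsξ S hS
    obtain ⟨K, ξ', hKf, hKd, hξ', hPt⟩ := pt_scale hG (T := ((2 * T : ℕ) : ℝ)) (by
      push_cast
      linarith) hξ
    have hn : ‖(ξ' : ℂ)‖ = ‖ξ‖ / G := by
      rw [hξ', norm_div, norm_neg, Complex.norm_natCast]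
    have hsG : s / G ≤ ‖(ξ' : ℂ)‖ := by
      rw [hn]
      exact div_le_div_of_nonneg_right hsξ (by linarith)
    refine hwin V hV hVD H K ξ' _ hKf hKd hPt ?_ ?_ 1 (Or.inl rfl) S ?_
    · refine le_trans ?_ hsG
      rw [le_div_iff₀ (by linarith), mul_comm]
      exact hHE
    · have h1 : s ≤ (s / G) * (s / G) := by
        rw [div_mul_div_comm, le_div_iff₀ (by positivity)]
        nlinarith
      have h2 : s ^ 4 ≤ ‖(ξ' : ℂ)‖ ^ 8 := by
        calc s ^ 4 ≤ ((s / G) * (s / G)) ^ 4 := pow_le_pow_left₀ hs0.le h1 4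
          _ = (s / G) ^ 8 := by ring
          _ ≤ _ := pow_le_pow_left₀ (by positivity) hsG 8
      refine le_trans ?_ h2
      push_cast
      have h3 : s ^ 4 = T * T := by rw [← hss]; ring
      rw [h3]
      have h4 : (G : ℝ) * 2 ≤ T := by linarith
      nlinarith
    · intro g hg
      obtain ⟨h1, h2⟩ := hS g hg
      refine ⟨h1, fun _ => trivial, ?_⟩
      have h3 := (hBd _).1 h2
      have h4 := h3.reindex (Equiv.uniqueProd (Option I) (Fin 1))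
      have h5 : (fun p : Fin 1 × Option I => xa G h I ((ξ' : ℂ) - ((1 : ℤ) : ℂ) * (g : ℂ) + ((0 : ℕ) : ℂ)) p.2) =
          fun p => xc h (ξ + ((G * g : ℕ) : ℂ)) (((Equiv.uniqueProd (Option I) (Fin 1)) p).map Subtype.val) := by
        funext p
        show xc h (-(G : ℂ) * ((ξ' : ℂ) - ((1 : ℤ) : ℂ) * (g : ℂ) + ((0 : ℕ) : ℂ))) _ = _
        have h6 : -(G : ℂ) * ((ξ' : ℂ) - ((1 : ℤ) : ℂ) * (g : ℂ) + ((0 : ℕ) : ℂ)) = ξ + ((G * g : ℕ) : ℂ) := by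
          rw [hξ']
          push_cast
          field_simp
          ring
        rw [h6]
        rfl
      exact h5 ▸ h4)
  -- the large points
  set L := (Sl.NF m T).filter fun ξ => Bd ξ ∧ 2 * s ≤ ‖ξ‖ with hL
  have hLc : (L.card : ℝ) ≤ M * (C₀ * 2 ^ Sl.Mm m) * (T : ℝ) ^ ((Sl.Mm m : ℝ) - ε) := by
    have h1 : (L.card : ℝ) * ((H : ℝ) + 1) ≤ M * ((Sl.NF m (2 * T)).card : ℝ) := by exact_mod_cast hdc
    have h2 : (T : ℝ) ^ ε ≤ (H : ℝ) + 1 := (Nat.lt_floor_add_one _).le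
    have h3 := Sl.card_NF m (2 * T) (by omega)
    have h4 : (L.card : ℝ) * (T : ℝ) ^ ε ≤ M * (C₀ * 2 ^ Sl.Mm m) * (T : ℝ) ^ Sl.Mm m := by
      calc (L.card : ℝ) * (T : ℝ) ^ ε ≤ (L.card : ℝ) * ((H : ℝ) + 1) := mul_le_mul_of_nonneg_left h2 (Nat.cast_nonneg _)
        _ ≤ M * ((Sl.NF m (2 * T)).card : ℝ) := h1
        _ ≤ M * (C₀ * ((2 * T : ℕ) : ℝ) ^ Sl.Mm m) := mul_le_mul_of_nonneg_left h3 (Nat.cast_nonneg _)
        _ = _ := by push_cast; rw [mul_pow]; ring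
    have h5 : (T : ℝ) ^ ((Sl.Mm m : ℝ) - ε) = (T : ℝ) ^ Sl.Mm m / (T : ℝ) ^ ε := by
      rw [Real.rpow_sub hT0, Real.rpow_natCast]
    rw [h5, ← mul_div_assoc, le_div_iff₀ (by positivity)]
    exact h4
  -- the small points
  set B : ℕ := ⌈2 * s⌉₊ with hB
  have hB1 : 1 ≤ B := Nat.one_le_ceil_iff.2 (by linarith)
  have hBs : (B : ℝ) ≤ 4 * s := by
    have h1 := Nat.ceil_lt_add_one (show (0 : ℝ) ≤ 2 * s by linarith)
    have h2 : (B : ℝ) < 2 * s + 1 := h1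
    linarith
  set Sm := (Sl.NF m T).filter fun ξ => ‖ξ‖ ≤ B with hSm
  have hSc : (Sm.card : ℝ) ≤ 4 * C₀ * (T : ℝ) ^ ((Sl.Mm m : ℝ) - ε) := by
    have h1 := Sl.card_small m T B hT hB1
    have h2 : (Sm.card : ℝ) * T ≤ C₀ * (4 * s) * (T : ℝ) ^ Sl.Mm m := by
      refine h1.trans ?_
      refine mul_le_mul_of_nonneg_right ?_ (by positivity)
      exact mul_le_mul_of_nonneg_left hBs hC₀0
    have h3 : (Sm.card : ℝ) * s ≤ 4 * C₀ * (T : ℝ) ^ Sl.Mm m := by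
      rw [← hss] at h2
      have h4 : (Sm.card : ℝ) * s * s ≤ 4 * C₀ * (s * s) ^ Sl.Mm m * s := by
        calc (Sm.card : ℝ) * s * s = (Sm.card : ℝ) * (s * s) := by ring
          _ ≤ C₀ * (4 * s) * (s * s) ^ Sl.Mm m := h2
          _ = _ := by ring
      have h5 := le_of_mul_le_mul_right h4 hs0
      rw [hss] at h5
      exact h5
    have h5 : (T : ℝ) ^ ((Sl.Mm m : ℝ) - ε) = (T : ℝ) ^ Sl.Mm m / (T : ℝ) ^ ε := by
      rw [Real.rpow_sub hT0, Real.rpow_natCast]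
    rw [h5, ← mul_div_assoc, le_div_iff₀ (by positivity)]
    refine le_trans ?_ h3
    refine mul_le_mul_of_nonneg_left ?_ (Nat.cast_nonneg _)
    rw [hs]
    exact Real.rpow_le_rpow_of_exponent_le hT1 (by linarith)
  have hcov : (Sl.NF m T).filter (fun ξ => Bd ξ) ⊆ L ∪ Sm := by
    intro ξ hξ
    obtain ⟨hξ1, hξ2⟩ := Finset.mem_filter.1 hξ
    rw [Finset.mem_union]
    rcases le_total (2 * s) ‖ξ‖ with h | h
    · exact Or.inl (Finset.mem_filter.2 ⟨hξ1, hξ2, h⟩)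
    · exact Or.inr (Finset.mem_filter.2 ⟨hξ1, h.trans (Nat.le_ceil _)⟩)
  calc (((Sl.NF m T).filter fun ξ => Bd ξ).card : ℝ) ≤ ((L ∪ Sm).card : ℝ) := by exact_mod_cast Finset.card_le_card hcov
    _ ≤ L.card + Sm.card := by exact_mod_cast Finset.card_union_le _ _
    _ ≤ M * (C₀ * 2 ^ Sl.Mm m) * (T : ℝ) ^ ((Sl.Mm m : ℝ) - ε) + 4 * C₀ * (T : ℝ) ^ ((Sl.Mm m : ℝ) - ε) :=
        add_le_add hLc hSc
    _ = (M * (C₀ * 2 ^ Sl.Mm m) + 4 * C₀) * (T : ℝ) ^ ((Sl.Mm m : ℝ) - ε) := by ring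
    _ ≤ _ := mul_le_mul_of_nonneg_right (by
        have : 0 ≤ C₀ * (T₀ : ℝ) ^ ε := by positivity
        linarith) hbase

open Classical in
/-- few bad tuples -/
theorem tuplesG {h : Fin r → ℚ⟦X⟧} {G : ℕ} (hG : 1 ≤ G) {I : Finset (Fin r)}
    (hval : Sl.InpA (fun ξ g (i : Option I) => vc G h ξ g (i.map Subtype.val))) (m δ k D : ℕ) :
    ∃ c : ℝ, 0 < c ∧ ∃ C : ℝ, 0 ≤ C ∧ ∀ V : Submodule ℚ ℂ, Module.Finite ℚ V → finrank ℚ V ≤ D → ∀ T : ℕ, 1 ≤ T →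
      (((Fintype.piFinset fun _ : Fin k => Sl.NF m T).filter fun α =>
        Rel δ V (fun p : Fin k × Option I => xc h (α p.1) (p.2.map Subtype.val))).card : ℝ) ≤
        C * (T : ℝ) ^ (((k * Sl.Mm m : ℕ) : ℝ) - c) :=
  tuples_count (fun T : ℕ => Sl.NF m T) (fun (α : ℂ) (i : Option I) => xc h α (i.map Subtype.val)) (Sl.Mm m)
    ((3 * 2 ^ m) ^ m * m) (by positivity) (fun T hT => Sl.card_NF m T hT)
    (fun δ D => deg_badG hG hval m δ D) δ k D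

end Pool.Agent.Y916.Af
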