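import Pool.Agent.Y916.Af.Cnt
import Pool.Agent.Y916.Sl.Many

/-!
# Families of G-functions at algebraic points: almost all tuples
-/

set_option autoImplicit false

open PowerSeries Module

namespace Pool.Agent.Y916.Af

open Pool.Agent.Y113 Pool.Agent.Y916.Al Pool.Agent.Y916.AW Pool.Agent.Y118.UL

variable {r : ℕ}

/-- coordinates of the coefficients -/
theorem coeff_lift {κ : Type} [Fintype κ] {D δ : ℕ} (L : IntermediateField ℚ ℂ) (V : Submodule ℚ ℂ) (w : Fin D → ℂ)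
    (c : ℂ → Fin D → ℚ) (hc : ∀ v ∈ V, v = ∑ j, ((c v j : ℚ) : ℂ) * w j) (P : MvPolynomial κ ℂ) (hP : P.totalDegree ≤ δ)
    (hcf : ∀ s, P.coeff s ∈ Submodule.span L (V : Set ℂ)) :
    ∃ P' : MvPolynomial (Fin D ⊕ κ) L, P'.totalDegree ≤ δ + 1 ∧
      ∀ y : κ → ℂ, MvPolynomial.aeval (Sum.elim w y) P' = MvPolynomial.aeval y P := by
  classical
  have h1 : ∀ s, ∃ a : Fin D → L, ∑ j, a j • w j = P.coeff s := by
    intro s
    rw [← Submodule.mem_span_range_iff_exists_fun]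
    refine (Submodule.span_le.2 ?_) (hcf s)
    intro v hv
    rw [hc v hv]
    refine Submodule.sum_mem _ fun j _ => ?_
    have h2 : ((c v j : ℚ) : ℂ) * w j = (algebraMap ℚ L (c v j)) • w j := by
      rw [Algebra.smul_def]
      rfl
    rw [h2]
    exact Submodule.smul_mem _ _ (Submodule.subset_span ⟨j, rfl⟩)
  choose a ha using h1
  refine ⟨NF.Pl L P.support a, NF.Pl_deg L P.support a fun e he => ?_, fun y => ?_⟩
  · have h2 := (MvPolynomial.le_totalDegree he).trans hP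
    rwa [Finsupp.sum_fintype _ _ (fun _ => rfl)] at h2
  · have h3 := NF.Pl_val L P.support w a (A := ℂ) y
    have h4 : MvPolynomial.aeval (Sum.elim w y) (NF.Pl L P.support a) = MvPolynomial.eval₂ ((algebraMap ℂ ℂ).comp
      (algebraMap L ℂ)) (Sum.elim (fun j => algebraMap ℂ ℂ (w j)) y) (NF.Pl L P.support a) := rfl
    rw [h4, h3, MvPolynomial.aeval_def, MvPolynomial.eval₂_eq']
    refine Finset.sum_congr rfl fun e _ => ?_
    congr 1
    rw [← ha e]
    rfl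

/-- from rational relations with the constants `w` to relations with coefficients in a space -/
theorem rel_of_Q {κ : Type} [Fintype κ] {D δ : ℕ} (W : Submodule ℚ ℂ) (h1 : (1 : ℂ) ∈ W) (w : Fin D → ℂ)
    (hw : ∀ j, w j ∈ W) (z z' : κ → ℂ) (hz : ∀ p, z' p - z p ∈ W) (Q : MvPolynomial (Fin D ⊕ κ) ℚ)
    (hQd : Q.totalDegree ≤ δ) (hQ : MvPolynomial.aeval (Sum.elim w z') Q = 0)
    (hQ0 : (MvPolynomial.aeval (Sum.elim (fun j => MvPolynomial.C (w j)) MvPolynomial.X) Q : MvPolynomial κ ℂ) ≠ 0) :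
    Rel δ (W ^ δ) z := by
  classical
  set Lf : Fin D ⊕ κ → MvPolynomial κ ℂ := Sum.elim (fun j => MvPolynomial.C (w j))
    fun p => MvPolynomial.X p + MvPolynomial.C (z' p - z p) with hLf
  have hLD : ∀ i, DC 1 W (Lf i) := by
    have hC : ∀ a ∈ W, DC 1 W (MvPolynomial.C a : MvPolynomial κ ℂ) := by
      intro a ha
      refine ⟨by simp, fun t => ?_⟩
      rw [MvPolynomial.coeff_C]
      split_ifs
      · exact ha
      · exact Submodule.zero_mem _
    rintro (j | p)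
    · exact hC _ (hw j)
    · refine ⟨?_, fun t => ?_⟩
      · refine (MvPolynomial.totalDegree_add _ _).trans (max_le ?_ ?_)
        · rw [MvPolynomial.totalDegree_X]
        · rw [MvPolynomial.totalDegree_C]
          exact Nat.zero_le _
      · show MvPolynomial.coeff t (MvPolynomial.X p + MvPolynomial.C (z' p - z p)) ∈ W
        rw [MvPolynomial.coeff_add]
        refine W.add_mem ?_ ((hC _ (hz p)).2 t)
        rw [MvPolynomial.coeff_X']
        split_ifs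
        · exact h1
        · exact W.zero_mem
  have hQC : DC δ (1 : Submodule ℚ ℂ) (MvPolynomial.map (algebraMap ℚ ℂ) Q) := by
    refine ⟨(tdm _ _).trans hQd, fun s => ?_⟩
    rw [MvPolynomial.coeff_map]
    exact Submodule.algebraMap_mem _
  have h2 := DC.subst' h1 Lf hLD hQC
  rw [one_mul] at h2
  have h3 : ∀ {A : Type} [CommRing A] [Algebra ℂ A] (f : Fin D ⊕ κ → A),
      MvPolynomial.aeval f (MvPolynomial.map (algebraMap ℚ ℂ) Q) = MvPolynomial.eval₂ ((algebraMap ℂ A).comp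
        (algebraMap ℚ ℂ)) f Q := by
    intro A _ _ f
    rw [MvPolynomial.aeval_def, MvPolynomial.eval₂_map]
  refine ⟨MvPolynomial.aeval Lf (MvPolynomial.map (algebraMap ℚ ℂ) Q), fun h0 => ?_, h2.1, h2.2, ?_⟩
  · apply hQ0
    have h4 := congrArg (MvPolynomial.aeval fun p : κ => (MvPolynomial.X p - MvPolynomial.C (z' p - z p) :
      MvPolynomial κ ℂ)) h0
    rw [map_zero, ← AlgHom.comp_apply, ] at h4
    have h5 : ((MvPolynomial.aeval fun p : κ => (MvPolynomial.X p - MvPolynomial.C (z' p - z p) :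
        MvPolynomial κ ℂ)).comp (MvPolynomial.aeval Lf)) =
        MvPolynomial.aeval (R := ℂ) (Sum.elim (fun j => MvPolynomial.C (w j)) MvPolynomial.X) := by
      refine MvPolynomial.algHom_ext fun i => ?_
      rcases i with j | p
      · simp [hLf]
      · simp [hLf]
    rw [h5, h3] at h4
    rw [MvPolynomial.aeval_def]
    refine Eq.trans ?_ h4
    congr 1
  · have h4 : MvPolynomial.aeval z (MvPolynomial.aeval Lf (MvPolynomial.map (algebraMap ℚ ℂ) Q)) =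
        MvPolynomial.aeval (Sum.elim w z') (MvPolynomial.map (algebraMap ℚ ℂ) Q) := by
      rw [← AlgHom.comp_apply]
      congr 1
      refine MvPolynomial.algHom_ext fun i => ?_
      rcases i with j | p
      · simp [hLf]
      · simp [hLf]
    rw [h4, h3, ← hQ, MvPolynomial.aeval_def]
    rfl

/-- the point -/
noncomputable def ptc (h : Fin r → ℚ⟦X⟧) {k : ℕ} (α ℓ : Fin k → ℂ) : Fin k × Option (Fin r) → ℂ :=
  fun a => a.2.elim (ℓ a.1) fun i => evc (1 / α a.1) (h i)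

/-- the exceptional tuples -/
def ExcT (h : Fin r → ℚ⟦X⟧) (δ d : ℕ) (V : Submodule ℚ ℂ) {k : ℕ} (α : Fin k → ℂ) : Prop :=
  ∃ ℓ : Fin k → ℂ, (∀ i, Complex.exp (ℓ i) = α i) ∧ ∃ Y : Set (Fin k × Option (Fin r) → ℂ), Irr Y ∧ ptc h α ℓ ∈ Y ∧
    (∀ y ∈ Y, ∀ j, (fun i => y (j, some i)) ∈ Vc h (1 / α j)) ∧
    ∃ L : IntermediateField ℚ ℂ, FiniteDimensional ℚ L ∧ finrank ℚ L ≤ d ∧
    ∃ P : MvPolynomial (Fin k × Option (Fin r)) ℂ, P.totalDegree ≤ δ ∧
      (∀ s, P.coeff s ∈ Submodule.span L (V : Set ℂ)) ∧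
      MvPolynomial.aeval (ptc h α ℓ) P = 0 ∧ ∃ y ∈ Y, MvPolynomial.aeval y P ≠ 0

open Classical in
/-- few tuples with a small member -/
theorem small_tuples (m k B : ℕ) (hB : 1 ≤ B) : ∃ C : ℝ, 0 ≤ C ∧ ∀ T : ℕ, 1 ≤ T →
    (((Fintype.piFinset fun _ : Fin k => Sl.NF m T).filter fun α => ∃ i, ‖α i‖ ≤ B).card : ℝ) ≤
      C * (T : ℝ) ^ (((k * Sl.Mm m : ℕ) : ℝ) - 1) := by
  set C₀ : ℝ := (3 * 2 ^ m) ^ m * m with hC₀
  have hC₀0 : 0 ≤ C₀ := by positivity
  refine ⟨k * (C₀ ^ k * B), by positivity, fun T hT => ?_⟩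
  have hT1 : (1 : ℝ) ≤ T := by exact_mod_cast hT
  have hT0 : (0 : ℝ) < T := by linarith
  set Sm := (Sl.NF m T).filter fun ξ => ‖ξ‖ ≤ B with hSm
  have hsub : ((Fintype.piFinset fun _ : Fin k => Sl.NF m T).filter fun α => ∃ i, ‖α i‖ ≤ B) ⊆
      Finset.univ.biUnion fun i : Fin k => Fintype.piFinset fun j : Fin k => if j = i then Sm else Sl.NF m T := by
    intro α hα
    obtain ⟨h1, i, h2⟩ := Finset.mem_filter.1 hα
    rw [Fintype.mem_piFinset] at h1
    rw [Finset.mem_biUnion]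
    refine ⟨i, Finset.mem_univ _, ?_⟩
    rw [Fintype.mem_piFinset]
    intro j
    split_ifs with hj
    · subst hj
      exact Finset.mem_filter.2 ⟨h1 j, h2⟩
    · exact h1 j
  have hNF := Sl.card_NF m T hT
  have hS := Sl.card_small m T B hT hB
  have hone : ∀ i : Fin k, ((Fintype.piFinset fun j : Fin k => if j = i then Sm else Sl.NF m T).card : ℝ) ≤
      C₀ ^ k * B * (T : ℝ) ^ (((k * Sl.Mm m : ℕ) : ℝ) - 1) := by
    intro i
    have hk : 1 ≤ k := i.pos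
    rw [Fintype.card_piFinset, ← Finset.mul_prod_erase Finset.univ _ (Finset.mem_univ i)]
    have h1 : ∏ j ∈ Finset.univ.erase i, (if j = i then Sm else Sl.NF m T).card = (Sl.NF m T).card ^ (k - 1) := by
      rw [Finset.prod_congr rfl (g := fun _ => (Sl.NF m T).card), Finset.prod_const, Finset.card_erase_of_mem
        (Finset.mem_univ i), Finset.card_univ, Fintype.card_fin]
      intro j hj
      rw [if_neg (Finset.ne_of_mem_erase hj)]
    rw [h1, if_pos rfl, Nat.cast_mul, Nat.cast_pow]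
    have h2 : (T : ℝ) ^ (((k * Sl.Mm m : ℕ) : ℝ) - 1) = (T : ℝ) ^ (k * Sl.Mm m) / T := by
      rw [Real.rpow_sub hT0, Real.rpow_natCast, Real.rpow_one]
    rw [h2, ← mul_div_assoc, le_div_iff₀ hT0]
    have h3 : ((Sl.NF m T).card : ℝ) ^ (k - 1) ≤ (C₀ * (T : ℝ) ^ Sl.Mm m) ^ (k - 1) :=
      pow_le_pow_left₀ (Nat.cast_nonneg _) hNF _
    calc (Sm.card : ℝ) * ((Sl.NF m T).card : ℝ) ^ (k - 1) * T = (Sm.card * T) * ((Sl.NF m T).card : ℝ) ^ (k - 1) := by
          ring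
      _ ≤ (C₀ * B * (T : ℝ) ^ Sl.Mm m) * (C₀ * (T : ℝ) ^ Sl.Mm m) ^ (k - 1) :=
          mul_le_mul hS h3 (by positivity) (by positivity)
      _ = B * (C₀ * (T : ℝ) ^ Sl.Mm m) ^ (k - 1 + 1) := by rw [pow_succ]; ring
      _ = C₀ ^ k * B * (T : ℝ) ^ (k * Sl.Mm m) := by
          rw [Nat.sub_add_cancel hk, mul_pow, ← pow_mul, mul_comm (Sl.Mm m) k]
          ring
  calc (((Fintype.piFinset fun _ : Fin k => Sl.NF m T).filter fun α => ∃ i, ‖α i‖ ≤ B).card : ℝ)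
      ≤ ∑ i : Fin k, ((Fintype.piFinset fun j : Fin k => if j = i then Sm else Sl.NF m T).card : ℝ) := by
        exact_mod_cast (Finset.card_le_card hsub).trans Finset.card_biUnion_le
    _ ≤ ∑ _i : Fin k, C₀ ^ k * B * (T : ℝ) ^ (((k * Sl.Mm m : ℕ) : ℝ) - 1) := Finset.sum_le_sum fun i _ => hone i
    _ = _ := by
        rw [Finset.sum_const, Finset.card_univ, Fintype.card_fin, nsmul_eq_mul]
        ring

/-- no zeros of the coefficients at the reciprocals of large numbers -/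
theorem large_ne {c : Polynomial ℚ} (hc : c ≠ 0) : ∃ B : ℕ, 1 ≤ B ∧ ∀ α : ℂ, (B : ℝ) < ‖α‖ →
    Polynomial.aeval (1 / α) c ≠ 0 := by
  classical
  set F : Finset ℂ := (c.map (algebraMap ℚ ℂ)).roots.toFinset with hF
  obtain ⟨b, hb⟩ := (F.image fun z => ‖1 / z‖).bddAbove
  obtain ⟨B, hB⟩ := exists_nat_gt b
  refine ⟨B + 1, by omega, fun α hα h0 => ?_⟩
  have h1 : 1 / α ∈ F := by
    rw [hF, Multiset.mem_toFinset, Polynomial.mem_roots ((Polynomial.map_ne_zero_iff (algebraMap ℚ ℂ).injective).2 hc),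
      Polynomial.IsRoot.def, Polynomial.eval_map]
    exact h0
  have h2 := hb (Finset.mem_coe.2 (Finset.mem_image_of_mem (fun z => ‖1 / z‖) h1))
  rw [one_div_one_div] at h2
  push_cast at hα
  linarith

/-- **Almost all tuples** -/
theorem tupT (hnr : S_nr) (hbr : S_br) {T₀ : Polynomial ℤ} {A : Fin r → Fin r → Polynomial ℤ} {h : Fin r → ℚ⟦X⟧}
    (hGF : GFam T₀ A h) (k m δ d D : ℕ) :
    ∃ c : ℝ, 0 < c ∧ ∃ C : ℝ, 0 ≤ C ∧ ∀ V : Submodule ℚ ℂ, Module.Finite ℚ V → finrank ℚ V ≤ D → ∀ T : ℕ, 1 ≤ T →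
      {α : Fin k → ℂ | (∀ i, Sl.AInt m T (α i)) ∧ ExcT h δ d V α}.Finite ∧
      ({α : Fin k → ℂ | (∀ i, Sl.AInt m T (α i)) ∧ ExcT h δ d V α}.ncard : ℝ) ≤
        C * (T : ℝ) ^ (((k * Sl.Mm m : ℕ) : ℝ) - c) := by
  classical
  obtain ⟨I, hI1, hI2⟩ := exists_free h
  have hI : Free h I := ⟨hI1, hI2⟩
  obtain ⟨G, hG1, hval⟩ := hnr r T₀ A h hGF
  have hval := hval G le_rfl I hI
  obtain ⟨δ', c, hc, hbr⟩ := hbr r h I hI k m d (δ + 1) D
  obtain ⟨B, hB1, hB⟩ := large_ne hc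
  obtain ⟨c₁, hc₁, C₁, hC₁, h₁⟩ := tuplesG hG1 hval m δ' k ((D + 2) ^ δ')
  obtain ⟨C₂, hC₂, h₂⟩ := small_tuples m k B hB1
  refine ⟨min c₁ 1, lt_min hc₁ one_pos, C₁ + C₂, by positivity, fun V hV hVD T hT => ?_⟩
  have hT1 : (1 : ℝ) ≤ T := by exact_mod_cast hT
  obtain ⟨w, cc, hw⟩ := coords V hV D hVD
  set f : Option (Option (Fin D)) → ℂ := fun o => o.elim 1 fun o => o.elim (2 * Real.pi * Complex.I) w with hf
  set W : Submodule ℚ ℂ := Submodule.span ℚ (Set.range f) with hW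
  have hW1 : (1 : ℂ) ∈ W := Submodule.subset_span ⟨none, rfl⟩
  have hWpi : (2 * Real.pi * Complex.I : ℂ) ∈ W := Submodule.subset_span ⟨some none, rfl⟩
  have hWw : ∀ j, w j ∈ W := fun j => Submodule.subset_span ⟨some (some j), rfl⟩
  have hWf : Module.Finite ℚ W := Module.Finite.span_of_finite ℚ (Set.finite_range _)
  have hWd : finrank ℚ W ≤ D + 2 := by
    refine (finrank_range_le_card _).trans ?_
    simp
  obtain ⟨hb1, hb2⟩ := Om.finrank_pow_le W δ'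
  have h3 := h₁ (W ^ δ') hb1 (hb2.trans (Nat.pow_le_pow_left hWd _)) T hT
  have h4 := h₂ T hT
  set B1 := (Fintype.piFinset fun _ : Fin k => Sl.NF m T).filter fun α =>
        Rel δ' (W ^ δ') (fun p : Fin k × Option I => xc h (α p.1) (p.2.map Subtype.val)) with hB1'
  set B2 := (Fintype.piFinset fun _ : Fin k => Sl.NF m T).filter fun α => ∃ i, ‖α i‖ ≤ B with hB2'
  have hsub : {α : Fin k → ℂ | (∀ i, Sl.AInt m T (α i)) ∧ ExcT h δ d V α} ⊆ ((B1 ∪ B2 : Finset (Fin k → ℂ)) : Set (Fin k → ℂ)) := by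
    rintro α ⟨hα, ℓ, hℓ, Y, hY, hmem, hfib, L, hLf, hLd, P, hPd, hPc, hP0, y, hy, hPy⟩
    have hαm : α ∈ Fintype.piFinset fun _ : Fin k => Sl.NF m T := by
      rw [Fintype.mem_piFinset]
      exact fun i => Sl.mem_NF.2 (hα i)
    rw [Finset.mem_coe, Finset.mem_union]
    by_cases hs : ∃ i, ‖α i‖ ≤ B
    · exact Or.inr (Finset.mem_filter.2 ⟨hαm, hs⟩)
    · left
      push Not at hs
      refine Finset.mem_filter.2 ⟨hαm, ?_⟩
      obtain ⟨P', hP'd, hP'⟩ := coeff_lift L V w cc hw P hPd hPc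
      obtain ⟨Q, hQd, hQ, hQ0⟩ := hbr (fun j => 1 / α j) (ptc h α ℓ) Y L w P' (fun j => by
        obtain ⟨K, ξ', h5, h6, h7, -⟩ := (hα j).pt hT1
        refine ⟨K, h5, h6, ?_⟩
        rw [one_div, ← h7]
        exact K.inv_mem ξ'.2) (fun j => hB _ (hs j)) hY hmem hfib hLf hLd hP'd (by rw [hP', hP0])
        ⟨y, hy, by rwa [hP']⟩
      refine rel_of_Q W hW1 w hWw _ (fun p : Fin k × Option I => ptc h α ℓ (p.1, p.2.map Subtype.val)) ?_ Q hQd hQ hQ0
      rintro ⟨i, _ | s⟩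
      · show ℓ i - Complex.log (α i) ∈ W
        have hα0 : α i ≠ 0 := by
          rw [← hℓ i]
          exact Complex.exp_ne_zero _
        obtain ⟨n, hn⟩ := Complex.exp_eq_exp_iff_exists_int.1 ((hℓ i).trans (Complex.exp_log hα0).symm)
        have h5 : ℓ i - Complex.log (α i) = (n : ℚ) • (2 * Real.pi * Complex.I : ℂ) := by
          rw [hn, Rat.smul_def]
          push_cast
          ring
        rw [h5]
        exact W.smul_mem _ hWpi
      · show evc (1 / α i) (h s) - evc (1 / α i) (h s) ∈ W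
        rw [sub_self]
        exact W.zero_mem
  refine ⟨(Finset.finite_toSet _).subset hsub, ?_⟩
  have h5 := Set.ncard_le_ncard hsub (Finset.finite_toSet _)
  rw [Set.ncard_coe_finset] at h5
  have h6 : (T : ℝ) ^ (((k * Sl.Mm m : ℕ) : ℝ) - c₁) ≤ (T : ℝ) ^ (((k * Sl.Mm m : ℕ) : ℝ) - min c₁ 1) :=
    Real.rpow_le_rpow_of_exponent_le hT1 (by linarith [min_le_left c₁ 1])
  have h7 : (T : ℝ) ^ (((k * Sl.Mm m : ℕ) : ℝ) - 1) ≤ (T : ℝ) ^ (((k * Sl.Mm m : ℕ) : ℝ) - min c₁ 1) :=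
    Real.rpow_le_rpow_of_exponent_le hT1 (by linarith [min_le_right c₁ 1])
  calc ({α : Fin k → ℂ | (∀ i, Sl.AInt m T (α i)) ∧ ExcT h δ d V α}.ncard : ℝ) ≤ ((B1 ∪ B2).card : ℝ) := by
        exact_mod_cast h5
    _ ≤ B1.card + B2.card := by exact_mod_cast Finset.card_union_le _ _
    _ ≤ C₁ * (T : ℝ) ^ (((k * Sl.Mm m : ℕ) : ℝ) - min c₁ 1) + C₂ * (T : ℝ) ^ (((k * Sl.Mm m : ℕ) : ℝ) - min c₁ 1) :=
        add_le_add (h3.trans (mul_le_mul_of_nonneg_left h6 hC₁)) (h4.trans (mul_le_mul_of_nonneg_left h7 hC₂))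
    _ = _ := by ring

end Pool.Agent.Y916.Af
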