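import Pool.Agent.Y916.Af.Nolog
import Pool.Agent.Y916.Af.Ind

/-!
# Families of G-functions at algebraic points: windows for relations without logarithms, connected families
-/

set_option autoImplicit false

open PowerSeries Module

namespace Pool.Agent.Y916.Af

open Pool.Agent.Y113 Pool.Agent.Y916.Al Pool.Agent.Y916.AW Pool.Agent.Y118.UL

variable {r : ℕ}

/-- the product of the fibres, without logarithms -/
def Fibn (h : Fin r → ℚ⟦X⟧) {k : ℕ} (x : Fin k → ℂ) : Set (Fin k × Fin r → ℂ) :=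
  {y | ∀ j, (fun i => y (j, i)) ∈ Vc h (x j)}

/-- windows, connected families, without logarithms -/
theorem winCN {T₀ : Polynomial ℤ} {A₀ : Fin r → Fin r → Polynomial ℤ} {h : Fin r → ℚ⟦X⟧} (hGF : GFam T₀ A₀ h)
    (hconn : Conn h) :
    ∃ G0 : ℕ, 1 ≤ G0 ∧ ∀ G : ℕ, G0 ≤ G → ∀ (p : ℕ) (Ω : Fin p → ℂ) (q k m d δ A : ℕ), ∃ E : ℕ, ∀ (H : ℕ) (ξ : ℂ),
      ((H : ℝ) + 2) ^ E ≤ ‖ξ‖ → Ht m A ξ → ∀ w : Fin q → ℂ, ∃ S : Finset ℕ,
      (S.card : Cardinal) ≤ Algebra.trdeg ℚ (IntermediateField.adjoin ℚ (Set.range Ω)) + q ∧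
      ∀ u : Fin k → ℕ, Function.Injective u → (∀ j, 1 ≤ u j ∧ u j ≤ H ∧ u j ∉ S) →
      ptn h (fun j => ξ - ((G * u j : ℕ) : ℂ)) ∈ Fibn h (fun j => 1 / (ξ - ((G * u j : ℕ) : ℂ))) ∧
      ∀ K : IntermediateField ℚ ℂ, FiniteDimensional ℚ K → finrank ℚ K ≤ d →
      ∀ P : MvPolynomial ((Fin p ⊕ Fin q) ⊕ Fin k × Fin r) K, P.totalDegree ≤ δ →
      MvPolynomial.aeval (Sum.elim (Sum.elim Ω w) (ptn h (fun j => ξ - ((G * u j : ℕ) : ℂ)))) P = 0 →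
      ∀ y ∈ Fibn h (fun j => 1 / (ξ - ((G * u j : ℕ) : ℂ))), MvPolynomial.aeval (Sum.elim (Sum.elim Ω w) y) P = 0 := by
  obtain ⟨G0, hG0, hW⟩ := winN hGF
  obtain ⟨B₂, hB₂1, hB₂⟩ := val_memC hGF.hsize
  refine ⟨G0, hG0, fun G hG p Ω q k m d δ A => ?_⟩
  obtain ⟨δ₁, E, h1⟩ := hW G hG p Ω q k m d δ A
  obtain ⟨cc, hcc, hirr⟩ := conn r h hconn δ₁
  obtain ⟨B₁, -, hB₁⟩ := large_ne hcc
  have hG1 : 1 ≤ G := hG0.trans hG
  have hGR : (1 : ℝ) ≤ G := by exact_mod_cast hG1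
  refine ⟨E + (G + 1 + (B₁ + B₂) + 1), fun H ξ hξ hHt w => ?_⟩
  have hH2 : (2 : ℝ) ≤ (H : ℝ) + 2 := by linarith [(Nat.cast_nonneg H : (0 : ℝ) ≤ H)]
  have hH1 : (1 : ℝ) ≤ (H : ℝ) + 2 := by linarith
  have h2n : ∀ n : ℕ, (n : ℝ) ≤ ((H : ℝ) + 2) ^ n := fun n => by
    refine le_trans ?_ (pow_le_pow_left₀ (by norm_num) hH2 n)
    exact_mod_cast (Nat.lt_two_pow_self (n := n)).le
  have hGB : (G : ℝ) * (H + 2) + (B₁ + B₂ : ℕ) ≤ ‖ξ‖ := by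
    refine le_trans ?_ ((pow_le_pow_right₀ hH1 (by omega : G + 1 + (B₁ + B₂) + 1 ≤ E + (G + 1 + (B₁ + B₂) + 1))).trans hξ)
    have h1 := h2n G
    have h3 : (1 : ℝ) ≤ ((H : ℝ) + 2) ^ (G + 1) := one_le_pow₀ hH1
    have h4 : (1 : ℝ) ≤ ((H : ℝ) + 2) ^ (B₁ + B₂) := one_le_pow₀ hH1
    have h5 : (G : ℝ) * (H + 2) ≤ ((H : ℝ) + 2) ^ (G + 1) := by
      rw [pow_succ]
      exact mul_le_mul_of_nonneg_right h1 (by linarith)
    have h6 := h2n (B₁ + B₂)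
    calc (G : ℝ) * (H + 2) + (B₁ + B₂ : ℕ) ≤ ((H : ℝ) + 2) ^ (G + 1) + ((H : ℝ) + 2) ^ (B₁ + B₂) := add_le_add h5 h6
      _ ≤ ((H : ℝ) + 2) ^ (G + 1) * ((H : ℝ) + 2) ^ (B₁ + B₂) * 2 := by nlinarith
      _ ≤ ((H : ℝ) + 2) ^ (G + 1) * ((H : ℝ) + 2) ^ (B₁ + B₂) * ((H : ℝ) + 2) :=
          mul_le_mul_of_nonneg_left hH2 (by positivity)
      _ = _ := by rw [← pow_add, ← pow_succ]
  obtain ⟨S, hS, h2⟩ := h1 H ξ ((pow_le_pow_right₀ hH1 (by omega)).trans hξ) hHt w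
  refine ⟨S, hS, fun u hu hub => ?_⟩
  have hαB : ∀ j, ((B₁ + B₂ : ℕ) : ℝ) < ‖ξ - ((G * u j : ℕ) : ℂ)‖ := by
    intro j
    have h5 := norm_sub_norm_le ξ ((G * u j : ℕ) : ℂ)
    rw [Complex.norm_natCast] at h5
    have h6 : ((G * u j : ℕ) : ℝ) ≤ G * H := by
      push_cast
      exact mul_le_mul_of_nonneg_left (by exact_mod_cast (hub j).2.1) (by linarith)
    nlinarith
  have hα1 : ∀ j, (B₁ : ℝ) < ‖ξ - ((G * u j : ℕ) : ℂ)‖ := fun j =>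
    lt_of_le_of_lt (by exact_mod_cast Nat.le_add_right B₁ B₂) (hαB j)
  have hα2 : ∀ j, (B₂ : ℝ) < ‖ξ - ((G * u j : ℕ) : ℂ)‖ := fun j =>
    lt_of_le_of_lt (by exact_mod_cast Nat.le_add_left B₂ B₁) (hαB j)
  have hmem : ptn h (fun j => ξ - ((G * u j : ℕ) : ℂ)) ∈ Fibn h (fun j => 1 / (ξ - ((G * u j : ℕ) : ℂ))) :=
    fun j => hB₂ _ (hα2 j)
  refine ⟨hmem, fun K hKf hKd P hPd hP0 y hy => ?_⟩
  exact h2 u hu hub (Fibn h fun j => 1 / (ξ - ((G * u j : ℕ) : ℂ))) (prod_irrD _ fun j => hirr _ (hB₁ _ (hα1 j)))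
    hmem (fun y hy => hy) K hKf hKd P hPd hP0 y hy

/-- relations on the product of the fibres at algebraic points, without logarithms -/
theorem indepN {h : Fin r → ℚ⟦X⟧} {k : ℕ} {x : Fin k → ℂ} (hx : ∀ j, IsAlgebraic ℚ (x j))
    {z : Fin k × Fin r → ℂ} (hz : z ∈ Fibn h x) {ι : Type} (w : ι → ℂ) (hw : AlgebraicIndependent ℚ w)
    (K : IntermediateField ℚ ℂ) (hK : FiniteDimensional ℚ K) (P : MvPolynomial (ι ⊕ Fin k × Fin r) K)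
    (hP : ∀ y ∈ Fibn h x, MvPolynomial.aeval (Sum.elim w y) P = 0) (v : ι → ℂ) :
    MvPolynomial.aeval (Sum.elim v z) P = 0 := by
  set ρ : ι ⊕ Fin k × Fin r → ι ⊕ Fin k × Option (Fin r) := Sum.map id fun p => (p.1, some p.2) with hρ
  have hev : ∀ (u : ι → ℂ) (y : Fin k × Option (Fin r) → ℂ), MvPolynomial.aeval (Sum.elim u y) (MvPolynomial.rename ρ P) =
      MvPolynomial.aeval (Sum.elim u fun p : Fin k × Fin r => y (p.1, some p.2)) P := by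
    intro u y
    rw [MvPolynomial.aeval_rename]
    congr 2
    funext a
    rcases a with a | a <;> rfl
  have h1 := indepE hx (z := fun p : Fin k × Option (Fin r) => p.2.elim 0 fun i => z (p.1, i)) hz w hw K hK
    (MvPolynomial.rename ρ P) (fun y hy => by
      rw [hev]
      exact hP _ hy) v
  rw [hev] at h1
  exact h1

end Pool.Agent.Y916.Af
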