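import Pool.Agent.Y916.Af.Stm2
import Pool.Agent.Y916.Af.Fin
import Pool.Agent.Y118.UL.Win

/-!
# Products of irreducible sets, the point in the fibre
-/

set_option autoImplicit false

open PowerSeries Module

namespace Pool.Agent.Y916.Af

open Pool.Agent.Y113 Pool.Agent.Y916.Al Pool.Agent.Y916.AW Pool.Agent.Y118.UL

/-- the polynomial in the block `i` with the other blocks fixed -/
theorem block {k : ℕ} {σ : Type} (P : MvPolynomial (Fin k × σ) ℂ) (y : Fin k × σ → ℂ) (i : Fin k) :
    ∃ P' : MvPolynomial σ ℂ, P'.totalDegree ≤ P.totalDegree ∧ ∀ u : σ → ℂ, MvPolynomial.eval u P' =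
      MvPolynomial.eval (fun a => if a.1 = i then u a.2 else y a) P := by
  classical
  set f : Fin k × σ → MvPolynomial σ ℂ := fun a => if a.1 = i then MvPolynomial.X a.2 else MvPolynomial.C (y a) with hf
  refine ⟨MvPolynomial.aeval f P, aeval_deg le_rfl fun a => ?_, fun u => ?_⟩
  · show (if a.1 = i then MvPolynomial.X a.2 else MvPolynomial.C (y a) : MvPolynomial σ ℂ).totalDegree ≤ 1
    split_ifs
    · rw [MvPolynomial.totalDegree_X]
    · rw [MvPolynomial.totalDegree_C]
      exact Nat.zero_le _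
  · have h1 : (MvPolynomial.aeval u : MvPolynomial σ ℂ →ₐ[ℂ] ℂ).comp (MvPolynomial.aeval f) =
        MvPolynomial.aeval (fun a => if a.1 = i then u a.2 else y a) := by
      refine MvPolynomial.algHom_ext fun a => ?_
      rw [AlgHom.comp_apply, MvPolynomial.aeval_X, MvPolynomial.aeval_X, hf]
      simp only
      split_ifs
      · rw [MvPolynomial.aeval_X]
      · rw [MvPolynomial.aeval_C]
        rfl
    exact DFunLike.congr_fun h1 P

/-- products -/
theorem prod_irrD {k : ℕ} {σ : Type} {d : ℕ} (Z : Fin k → Set (σ → ℂ)) (hZ : ∀ j, IrrD d (Z j)) :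
    IrrD d {y : Fin k × σ → ℂ | ∀ j, (fun s => y (j, s)) ∈ Z j} := by
  classical
  intro P Q hP hQ h
  by_contra hcon
  push Not at hcon
  obtain ⟨⟨y₁, hy₁, hP1⟩, y₂, hy₂, hQ2⟩ := hcon
  have key : ∀ i : ℕ, i ≤ k → ∃ y₁ y₂ : Fin k × σ → ℂ, (∀ j, (fun s => y₁ (j, s)) ∈ Z j) ∧
      (∀ j, (fun s => y₂ (j, s)) ∈ Z j) ∧ (∀ j : Fin k, (j : ℕ) < i → ∀ s, y₁ (j, s) = y₂ (j, s)) ∧
      MvPolynomial.eval y₁ P ≠ 0 ∧ MvPolynomial.eval y₂ Q ≠ 0 := by
    intro i
    induction i with
    | zero => exact fun _ => ⟨y₁, y₂, hy₁, hy₂, fun j hj => absurd hj (by omega), hP1, hQ2⟩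
    | succ i ih =>
      intro hi
      obtain ⟨z₁, z₂, h1, h2, h3, h4, h5⟩ := ih (by omega)
      set i' : Fin k := ⟨i, by omega⟩ with hi'
      obtain ⟨P', hP'd, hP'⟩ := block P z₁ i'
      obtain ⟨Q', hQ'd, hQ'⟩ := block Q z₂ i'
      have hself : ∀ z : Fin k × σ → ℂ, (fun a : Fin k × σ => if a.1 = i' then (fun s => z (i', s)) a.2 else z a) = z := by
        intro z
        funext a
        by_cases ha : a.1 = i'
        · rw [if_pos ha]
          show z (i', a.2) = z a
          rw [← ha]
        · rw [if_neg ha]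
      have h6 : ∃ u ∈ Z i', MvPolynomial.eval u P' * MvPolynomial.eval u Q' ≠ 0 := by
        by_contra hc
        push Not at hc
        rcases hZ i' P' Q' (hP'd.trans hP) (hQ'd.trans hQ) hc with h7 | h7
        · apply h4
          have h8 := h7 _ (h1 i')
          rw [hP', hself] at h8
          exact h8
        · apply h5
          have h8 := h7 _ (h2 i')
          rw [hQ', hself] at h8
          exact h8
      obtain ⟨u, hu, huPQ⟩ := h6
      have hmem : ∀ z : Fin k × σ → ℂ, (∀ j, (fun s => z (j, s)) ∈ Z j) → ∀ j,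
          (fun s => (fun a : Fin k × σ => if a.1 = i' then u a.2 else z a) (j, s)) ∈ Z j := by
        intro z hz j
        by_cases hj : j = i'
        · subst hj
          simp only [if_true]
          exact hu
        · simp only [if_neg hj]
          exact hz j
      refine ⟨fun a => if a.1 = i' then u a.2 else z₁ a, fun a => if a.1 = i' then u a.2 else z₂ a, hmem z₁ h1,
        hmem z₂ h2, ?_, ?_, ?_⟩
      · intro j hj s
        by_cases hji : j = i'
        · simp only [hji, if_true]
        · simp only [if_neg hji]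
          refine h3 j ?_ s
          have : (j : ℕ) ≠ i := fun h => hji (Fin.ext h)
          omega
      · rw [← hP']
        exact left_ne_zero_of_mul huPQ
      · rw [← hQ']
        exact right_ne_zero_of_mul huPQ
  obtain ⟨z₁, z₂, h1, h2, h3, h4, h5⟩ := key k le_rfl
  have h6 : z₁ = z₂ := by
    funext a
    exact h3 a.1 a.1.2 a.2
  subst h6
  exact mul_ne_zero h4 h5 (h z₁ h1)

/-- the additional free coordinate -/
theorem opt_irrD {σ : Type} {d : ℕ} (Z : Set (σ → ℂ)) (hZ : IrrD d Z) :
    IrrD d {y : Option σ → ℂ | (fun s => y (some s)) ∈ Z} := by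
  classical
  intro P Q hP hQ h
  by_contra hcon
  push Not at hcon
  obtain ⟨⟨y₁, hy₁, hP1⟩, y₂, hy₂, hQ2⟩ := hcon
  have sub : ∀ (P : MvPolynomial (Option σ) ℂ) (t : ℂ), ∃ P' : MvPolynomial σ ℂ, P'.totalDegree ≤ P.totalDegree ∧
      ∀ u : σ → ℂ, MvPolynomial.eval u P' = MvPolynomial.eval (fun o : Option σ => o.elim t u) P := by
    intro P t
    set f : Option σ → MvPolynomial σ ℂ := fun o => o.elim (MvPolynomial.C t) MvPolynomial.X with hf
    refine ⟨MvPolynomial.aeval f P, aeval_deg le_rfl fun o => ?_, fun u => ?_⟩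
    · rcases o with _ | s
      · show (MvPolynomial.C t : MvPolynomial σ ℂ).totalDegree ≤ 1
        rw [MvPolynomial.totalDegree_C]
        exact Nat.zero_le _
      · exact (MvPolynomial.totalDegree_X _).le
    · have h1 : (MvPolynomial.aeval u : MvPolynomial σ ℂ →ₐ[ℂ] ℂ).comp (MvPolynomial.aeval f) =
          MvPolynomial.aeval (fun o : Option σ => o.elim t u) := by
        refine MvPolynomial.algHom_ext fun o => ?_
        rw [AlgHom.comp_apply, MvPolynomial.aeval_X, MvPolynomial.aeval_X, hf]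
        rcases o with _ | s
        · show MvPolynomial.aeval u (MvPolynomial.C t) = t
          rw [MvPolynomial.aeval_C]
          rfl
        · show MvPolynomial.aeval u (MvPolynomial.X s) = u s
          rw [MvPolynomial.aeval_X]
      exact DFunLike.congr_fun h1 P
  have line : ∀ (P : MvPolynomial (Option σ) ℂ) (u : σ → ℂ), ∃ p : Polynomial ℂ, ∀ t : ℂ,
      p.eval t = MvPolynomial.eval (fun o : Option σ => o.elim t u) P := by
    intro P u
    set f : Option σ → Polynomial ℂ := fun o => o.elim Polynomial.X fun s => Polynomial.C (u s) with hf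
    refine ⟨MvPolynomial.aeval f P, fun t => ?_⟩
    have h1 : (Polynomial.aeval t : Polynomial ℂ →ₐ[ℂ] ℂ).comp (MvPolynomial.aeval f) =
        MvPolynomial.aeval (fun o : Option σ => o.elim t u) := by
      refine MvPolynomial.algHom_ext fun o => ?_
      rw [AlgHom.comp_apply, MvPolynomial.aeval_X, MvPolynomial.aeval_X, hf]
      rcases o with _ | s
      · show Polynomial.aeval t Polynomial.X = t
        rw [Polynomial.aeval_X]
      · show Polynomial.aeval t (Polynomial.C (u s)) = u s
        rw [Polynomial.aeval_C]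
        rfl
    have h2 := DFunLike.congr_fun h1 P
    rw [AlgHom.comp_apply, Polynomial.coe_aeval_eq_eval] at h2
    exact h2
  have hself : ∀ y : Option σ → ℂ, (fun o : Option σ => o.elim (y none) fun s => y (some s)) = y := by
    intro y
    funext o
    rcases o with _ | s <;> rfl
  obtain ⟨P', hP'd, hP'⟩ := sub P (y₁ none)
  obtain ⟨Q', hQ'd, hQ'⟩ := sub Q (y₂ none)
  have h6 : ∃ u ∈ Z, MvPolynomial.eval u P' * MvPolynomial.eval u Q' ≠ 0 := by
    by_contra hc
    push Not at hc
    rcases hZ P' Q' (hP'd.trans hP) (hQ'd.trans hQ) hc with h7 | h7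
    · apply hP1
      have h8 := h7 _ hy₁
      rw [hP', hself] at h8
      exact h8
    · apply hQ2
      have h8 := h7 _ hy₂
      rw [hQ', hself] at h8
      exact h8
  obtain ⟨u, hu, huPQ⟩ := h6
  obtain ⟨p, hp⟩ := line P u
  obtain ⟨q, hq⟩ := line Q u
  have hp0 : p ≠ 0 := by
    rintro rfl
    apply left_ne_zero_of_mul huPQ
    rw [hP', ← hp, Polynomial.eval_zero]
  have hq0 : q ≠ 0 := by
    rintro rfl
    apply right_ne_zero_of_mul huPQ
    rw [hQ', ← hq, Polynomial.eval_zero]
  obtain ⟨t, ht⟩ := Infinite.exists_notMem_finset (p * q).roots.toFinset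
  apply ht
  rw [Multiset.mem_toFinset, Polynomial.mem_roots (mul_ne_zero hp0 hq0), Polynomial.IsRoot.def, Polynomial.eval_mul, hp,
    hq]
  exact h _ hu

variable {r : ℕ}

/-- the product of the fibres -/
def Fib (h : Fin r → ℚ⟦X⟧) {k : ℕ} (x : Fin k → ℂ) : Set (Fin k × Option (Fin r) → ℂ) :=
  {y | ∀ j, (fun i => y (j, some i)) ∈ Vc h (x j)}

theorem fib_irrD {h : Fin r → ℚ⟦X⟧} {d k : ℕ} {x : Fin k → ℂ} (hx : ∀ j, IrrD d (Vc h (x j))) : IrrD d (Fib h x) :=
  prod_irrD (fun j => {y : Option (Fin r) → ℂ | (fun s => y (some s)) ∈ Vc h (x j)}) fun j => opt_irrD _ (hx j)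

end Pool.Agent.Y916.Af
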